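import Pool.Agent.Helper39.DB.Defs

/-!
# DB-02 (project DB): the algebra of `Ac`

Write `𝔇(a, b) = (a ∘ T - N b, c a - a - b ∘ T)` with `N = Nm p c`.

* `Nm_sub`: telescoping, `(c - 1)(1 + c + ... + c ^ (p-1)) = c ^ p - 1`, and `Nm p c` commutes with `c`, is additive
  (`Nm_add`, `Nm_sub'`) and commutes with `ρ` (`Nm_act`); `Nm_mem`: it preserves stable subgroups.
* `𝔇` maps equivariant pairs to equivariant pairs and `𝔇 𝔇 = 0`:
  first component: `(a ∘ T - N b) ∘ T - N (c a - a - b ∘ T) = a ∘ T ∘ T - N (c a - a) = 0`, because `a (T (T x)) =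
  a (act z x - x) = ρ z (a x) - a x` and `N (c a - a) = c ^ p a - a = ρ z a - a`; second component:
  `c (a ∘ T - N b) - (a ∘ T - N b) - (c a - a - b ∘ T) ∘ T = -(c N b - N b) + b ∘ T ∘ T = 0`.
* `Ac.trans`: `(a, b)` with values in `U2` and `𝔇(a, b)` in `U0 ≤ U1`: choose `(α, β)` for `h21`, the pair
  `(a, b) - 𝔇(α, β)` has values in `U1` and the same image under `𝔇`; choose `(α', β')` for it by `h10`. Take
  `(α + α', β + β')`.
* `Ac.inner`: `(a, b)` with values in `U1` and `𝔇(a, b)` in `U0`: choose `(α, β)` with values in `U2` and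
  `(a, b) - 𝔇(α, β)` in `U0` by `h20`; so `𝔇(α, β)` has values in `U1`; by `h21` there is `(α', β')` with
  `(α, β) - 𝔇(α', β') =: (α'', β'')` in `U1`; `𝔇(α'', β'') = 𝔇(α, β)`.
-/

set_option autoImplicit false
set_option linter.unusedVariables false

namespace Pool.Agent.Helper39.DB

open Finset Pool.Agent.Helper27.Mess
open scoped IsMulCommutative

variable {Γ : Type*} [Group Γ] {C : Type*} [AddCommGroup C] [Module (MonoidAlgebra ℤ Γ) C]
  {U : Type*} [AddCommGroup U] {p : ℕ} {z : Γ} {T : C →+ C} {ρ : Γ →* AddMonoid.End U}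
  {c : AddMonoid.End U}

theorem Nm_add (p : ℕ) (c : AddMonoid.End U) (u v : U) : Nm p c (u + v) = Nm p c u + Nm p c v := by
  unfold Nm
  rw [← sum_add_distrib]
  exact sum_congr rfl fun i _ => map_add (c ^ i) u v

theorem Nm_sub (p : ℕ) (c : AddMonoid.End U) (u v : U) : Nm p c (u - v) = Nm p c u - Nm p c v := by
  unfold Nm
  rw [← sum_sub_distrib]
  exact sum_congr rfl fun i _ => map_sub (c ^ i) u v

theorem Nm_zero (p : ℕ) (c : AddMonoid.End U) : Nm p c 0 = 0 := by
  unfold Nm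
  exact sum_eq_zero fun i _ => map_zero (c ^ i)

private theorem pow_succ_apply' (c : AddMonoid.End U) (i : ℕ) (u : U) :
    (c ^ (i + 1)) u = c ((c ^ i) u) := by
  rw [pow_succ']
  rfl

private theorem pow_comm_apply (c : AddMonoid.End U) (i : ℕ) (u : U) :
    (c ^ i) (c u) = c ((c ^ i) u) := by
  rw [← pow_succ_apply', pow_succ]
  rfl

theorem Nm_comm (p : ℕ) (c : AddMonoid.End U) (u : U) : Nm p c (c u) = c (Nm p c u) := by
  unfold Nm
  rw [map_sum]
  exact sum_congr rfl fun i _ => pow_comm_apply c i u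

theorem Nm_tel (p : ℕ) (c : AddMonoid.End U) (u : U) : c (Nm p c u) - Nm p c u = (c ^ p) u - u := by
  unfold Nm
  rw [map_sum, ← sum_sub_distrib]
  have h := sum_range_sub (fun i => (c ^ i) u) p
  rw [pow_zero] at h
  rw [show (1 : AddMonoid.End U) u = u from rfl] at h
  rw [← h]
  exact sum_congr rfl fun i _ => by rw [pow_succ_apply']

theorem pow_act (hc : Rot p z ρ c) (i : ℕ) (g : Γ) (u : U) :
    (c ^ i) (ρ g u) = ρ g ((c ^ i) u) := by
  induction i with
  | zero => rfl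
  | succ i ih => rw [pow_succ_apply', ih, hc.comm, pow_succ_apply']

theorem Nm_act (hc : Rot p z ρ c) (n : ℕ) (g : Γ) (u : U) : Nm n c (ρ g u) = ρ g (Nm n c u) := by
  unfold Nm
  rw [map_sum]
  exact sum_congr rfl fun i _ => pow_act hc i g u

theorem pow_mem {V : AddSubgroup U} (hV : Stb ρ c V) (i : ℕ) {u : U} (hu : u ∈ V) :
    (c ^ i) u ∈ V := by
  induction i with
  | zero => exact hu
  | succ i ih =>
    rw [pow_succ_apply']
    exact hV.rot _ ih

theorem Nm_mem {V : AddSubgroup U} (hV : Stb ρ c V) (n : ℕ) {u : U} (hu : u ∈ V) :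
    Nm n c u ∈ V := by
  unfold Nm
  exact V.sum_mem fun i _ => pow_mem hV i hu

theorem Stb.top : Stb ρ c (⊤ : AddSubgroup U) := by
  exact ⟨fun _ _ _ => AddSubgroup.mem_top _, fun _ _ => AddSubgroup.mem_top _⟩

theorem Stb.bot : Stb ρ c (⊥ : AddSubgroup U) := by
  constructor
  · intro g u hu
    rw [AddSubgroup.mem_bot] at hu ⊢
    rw [hu, map_zero]
  · intro u hu
    rw [AddSubgroup.mem_bot] at hu ⊢
    rw [hu, map_zero]

theorem Ac.refl (V : AddSubgroup U) : Ac p T ρ c V V := by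
  intro a b _ _ ha hb _ _
  refine ⟨0, 0, ?_, ?_, ?_, ?_, ?_, ?_⟩
  · intro g x
    simp
  · intro g x
    simp
  · intro x
    exact V.zero_mem
  · intro x
    exact V.zero_mem
  · intro x
    have h : a x - ((0 : C →+ U) (T x) - Nm p c ((0 : C →+ U) x)) = a x := by
      simp [Nm_zero]
    rw [h]
    exact ha x
  · intro x
    have h : b x - (c ((0 : C →+ U) x) - (0 : C →+ U) x - (0 : C →+ U) (T x)) = b x := by
      simp
    rw [h]
    exact hb x

/-- the norm as a homomorphism -/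
private def NH (p : ℕ) (c : AddMonoid.End U) : U →+ U :=
  AddMonoidHom.mk' (Nm p c) (Nm_add p c)

/-- the first component of the differential -/
private def dA (p : ℕ) (T : C →+ C) (c : AddMonoid.End U) (α β : C →+ U) : C →+ U :=
  α.comp T - (NH p c).comp β

/-- the second component of the differential -/
private def dB (T : C →+ C) (c : AddMonoid.End U) (α β : C →+ U) : C →+ U :=
  AddMonoidHom.comp (c : U →+ U) α - α - β.comp T

private theorem dA_apply (α β : C →+ U) (x : C) :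
    dA p T c α β x = α (T x) - Nm p c (β x) := rfl

private theorem dB_apply (α β : C →+ U) (x : C) :
    dB T c α β x = c (α x) - α x - β (T x) := rfl

private theorem dA_eqv (hT : Curv z T) (hc : Rot p z ρ c) {α β : C →+ U} (hα : Eqv ρ α)
    (hβ : Eqv ρ β) : Eqv ρ (dA p T c α β) := by
  intro g x
  rw [dA_apply, dA_apply, hT.equiv, hα, hβ, Nm_act hc, map_sub]

private theorem dB_eqv (hT : Curv z T) (hc : Rot p z ρ c) {α β : C →+ U} (hα : Eqv ρ α)
    (hβ : Eqv ρ β) : Eqv ρ (dB T c α β) := by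
  intro g x
  rw [dB_apply, dB_apply, hT.equiv, hα, hβ, hc.comm, map_sub, map_sub]

private theorem dd1 (hT : Curv z T) (hc : Rot p z ρ c) {α β : C →+ U} (hα : Eqv ρ α) (x : C) :
    dA p T c α β (T x) - Nm p c (dB T c α β x) = 0 := by
  rw [dA_apply, dB_apply, hT.sq, map_sub, hα, Nm_sub, Nm_sub, Nm_comm]
  have h := Nm_tel p c (α x)
  rw [hc.pow] at h
  rw [h]
  abel

private theorem dd2 (hT : Curv z T) (hc : Rot p z ρ c) {α β : C →+ U} (hβ : Eqv ρ β) (x : C) :
    c (dA p T c α β x) - dA p T c α β x - dB T c α β (T x) = 0 := by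
  rw [dA_apply, dB_apply, hT.sq, map_sub, map_sub, hβ]
  have h := Nm_tel p c (β x)
  rw [hc.pow] at h
  rw [← h]
  abel

/-- the difference with a differential has the same differential -/
private theorem sub_d1 (hT : Curv z T) (hc : Rot p z ρ c) {a b α β : C →+ U} (hα : Eqv ρ α)
    (x : C) : (a - dA p T c α β) (T x) - Nm p c ((b - dB T c α β) x) =
      a (T x) - Nm p c (b x) := by
  have h := dd1 (p := p) (β := β) hT hc hα x
  rw [AddMonoidHom.sub_apply, AddMonoidHom.sub_apply, Nm_sub]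
  have h2 : dA p T c α β (T x) = Nm p c (dB T c α β x) := sub_eq_zero.1 h
  rw [h2]
  abel

private theorem sub_d2 (hT : Curv z T) (hc : Rot p z ρ c) {a b α β : C →+ U} (hβ : Eqv ρ β)
    (x : C) : c ((a - dA p T c α β) x) - (a - dA p T c α β) x - (b - dB T c α β) (T x) =
      c (a x) - a x - b (T x) := by
  have h := dd2 (p := p) (α := α) hT hc hβ x
  rw [AddMonoidHom.sub_apply, AddMonoidHom.sub_apply, map_sub]
  have h2 : dB T c α β (T x) = c (dA p T c α β x) - dA p T c α β x := (sub_eq_zero.1 h).symm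
  rw [h2]
  abel

private theorem sub_eqv {a b : C →+ U} (ha : Eqv ρ a) (hb : Eqv ρ b) : Eqv ρ (a - b) := by
  intro g x
  rw [AddMonoidHom.sub_apply, AddMonoidHom.sub_apply, ha, hb, map_sub]

private theorem add_eqv {a b : C →+ U} (ha : Eqv ρ a) (hb : Eqv ρ b) : Eqv ρ (a + b) := by
  intro g x
  rw [AddMonoidHom.add_apply, AddMonoidHom.add_apply, ha, hb, map_add]

theorem Ac.trans (hT : Curv z T) (hc : Rot p z ρ c) {U2 U1 U0 : AddSubgroup U} (h0 : U0 ≤ U1)
    (h1 : U1 ≤ U2) (s2 : Stb ρ c U2) (s1 : Stb ρ c U1) (s0 : Stb ρ c U0) (h21 : Ac p T ρ c U2 U1)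
    (h10 : Ac p T ρ c U1 U0) : Ac p T ρ c U2 U0 := by
  intro a b ha hb ma mb da db
  obtain ⟨α, β, eα, eβ, mα, mβ, r1, r2⟩ :=
    h21 a b ha hb ma mb (fun x => h0 (da x)) (fun x => h0 (db x))
  obtain ⟨α', β', eα', eβ', mα', mβ', r1', r2'⟩ :=
    h10 (a - dA p T c α β) (b - dB T c α β) (sub_eqv ha (dA_eqv hT hc eα eβ))
      (sub_eqv hb (dB_eqv hT hc eα eβ)) r1 r2
      (fun x => by rw [sub_d1 hT hc eα]; exact da x)
      (fun x => by rw [sub_d2 hT hc eβ]; exact db x)
  refine ⟨α + α', β + β', add_eqv eα eα', add_eqv eβ eβ',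
    fun x => U2.add_mem (mα x) (h1 (mα' x)), fun x => U2.add_mem (mβ x) (h1 (mβ' x)),
    fun x => ?_, fun x => ?_⟩
  · have h := r1' x
    rw [AddMonoidHom.sub_apply, dA_apply] at h
    rw [AddMonoidHom.add_apply, AddMonoidHom.add_apply, Nm_add]
    have e : a x - (α (T x) + α' (T x) - (Nm p c (β x) + Nm p c (β' x))) =
        a x - (α (T x) - Nm p c (β x)) - (α' (T x) - Nm p c (β' x)) := by abel
    rw [e]
    exact h
  · have h := r2' x
    rw [AddMonoidHom.sub_apply, dB_apply] at h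
    rw [AddMonoidHom.add_apply, AddMonoidHom.add_apply, map_add]
    have e : b x - (c (α x) + c (α' x) - (α x + α' x) - (β (T x) + β' (T x))) =
        b x - (c (α x) - α x - β (T x)) - (c (α' x) - α' x - β' (T x)) := by abel
    rw [e]
    exact h

theorem Ac.inner (hT : Curv z T) (hc : Rot p z ρ c) {U2 U1 U0 : AddSubgroup U} (h0 : U0 ≤ U1)
    (h1 : U1 ≤ U2) (s2 : Stb ρ c U2) (s1 : Stb ρ c U1) (s0 : Stb ρ c U0) (h20 : Ac p T ρ c U2 U0)
    (h21 : Ac p T ρ c U2 U1) : Ac p T ρ c U1 U0 := by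
  intro a b ha hb ma mb da db
  obtain ⟨α, β, eα, eβ, mα, mβ, r1, r2⟩ :=
    h20 a b ha hb (fun x => h1 (ma x)) (fun x => h1 (mb x)) da db
  have d1 : ∀ x, α (T x) - Nm p c (β x) ∈ U1 := by
    intro x
    have e : α (T x) - Nm p c (β x) = a x - (a x - (α (T x) - Nm p c (β x))) := by abel
    rw [e]
    exact U1.sub_mem (ma x) (h0 (r1 x))
  have d2 : ∀ x, c (α x) - α x - β (T x) ∈ U1 := by
    intro x
    have e : c (α x) - α x - β (T x) = b x - (b x - (c (α x) - α x - β (T x))) := by abel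
    rw [e]
    exact U1.sub_mem (mb x) (h0 (r2 x))
  obtain ⟨α', β', eα', eβ', mα', mβ', r1', r2'⟩ := h21 α β eα eβ mα mβ d1 d2
  refine ⟨α - dA p T c α' β', β - dB T c α' β', sub_eqv eα (dA_eqv hT hc eα' eβ'),
    sub_eqv eβ (dB_eqv hT hc eα' eβ'), r1', r2', fun x => ?_, fun x => ?_⟩
  · rw [sub_d1 hT hc eα']
    exact r1 x
  · rw [sub_d2 hT hc eβ']
    exact r2 x

end Pool.Agent.Helper39.DB
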