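import Pool.Agent.Helper39.DB.Defs2
import Pool.Agent.Helper87.Mess.ExistsDSys

/-!
# DB-15 (project DB): systems of higher homotopies for one element

* `hsys_of_dsys`: from `S : DSys G a`, `a : Fin 1 → Subgroup.center Γ`: `h k = S.h (Finsupp.single 0 k)`, `K` a bound for the values
  `k 0`, `k ∈ S.I` (`S.I.sup`). Every `k : Fin 1 →₀ ℕ` is `single 0 (k 0)`; the antidiagonal of `single 0 k` is the image of `antidiagonal k`
  (`Finsupp.antidiagonal_single`, or reindex with `Finset.sum_nbij'`), `(single 0 k).degree = k`, and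
  `single 0 k = single 0 1 ↔ k = 1`. The last statement: `S.D (fun _ => m) f x = ∑ k ∈ S.I, m ^ (k 0) * f (S.h k x)`
  (`DSys.D_apply`, `Fin.prod_univ_one`/`Finset.univ_unique`), reindex.
* `exists_hsys`: `exists_dSys` with `a = fun _ => z`.
-/

set_option autoImplicit false

namespace Pool.Agent.Helper39.DB

open Finset Pool.Agent.Helper27.Mess
open scoped IsMulCommutative

variable {Γ : Type*} [Group Γ] {C : Type*} [AddCommGroup C] [Module (MonoidAlgebra ℤ Γ) C]
  {G : GrRes Γ C}

theorem exh_single (k : Fin 1 →₀ ℕ) : Finsupp.single (0 : Fin 1) (k 0) = k := by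
  apply Finsupp.ext
  intro j
  rw [Subsingleton.elim j 0]
  simp

theorem hsys_of_dsys {a : Fin 1 → Subgroup.center Γ} (S : DSys G a) :
    ∃ S' : HSys G (a 0 : Γ), ∀ (m : ℤ) (f : C →+ ℤ) (x : C),
      S.D (fun _ => m) f x = ∑ k ∈ range (S'.K + 1), m ^ k * f (S'.h k x) := by
  classical
  refine ⟨{ h := fun k => S.h (Finsupp.single 0 k)
            K := S.I.sup (fun k => k 0)
            h_out := ?_
            h_zero := ?_
            h_deg := ?_
            rel := ?_ }, ?_⟩
  · intro k hk
    apply S.h_out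
    intro hmem
    have h1 : (Finsupp.single (0 : Fin 1) k) 0 ≤ S.I.sup (fun k => k 0) :=
      Finset.le_sup (f := fun k : Fin 1 →₀ ℕ => k 0) hmem
    rw [Finsupp.single_eq_same] at h1
    omega
  · rw [Finsupp.single_zero]
    exact S.h_zero
  · intro k i x
    have h := S.h_deg (Finsupp.single 0 k) i x
    rw [Finsupp.degree_single] at h
    exact h
  · intro k x
    have h := S.rel (Finsupp.single 0 k) x
    rw [Finsupp.antidiagonal_single, Finset.sum_map] at h
    rw [Fintype.sum_unique] at h
    refine Eq.trans ?_ (h.trans ?_)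
    · rfl
    · have h2 : (Finsupp.single (0 : Fin 1) k = Finsupp.single (default : Fin 1) 1) ↔ k = 1 := by
        constructor
        · intro he
          exact Finsupp.single_injective (0 : Fin 1) he
        · rintro rfl
          rfl
      simp only [h2]
      rfl
  · intro m f x
    change _ = ∑ k ∈ range (S.I.sup (fun k => k 0) + 1), m ^ k * f (S.h (Finsupp.single 0 k) x)
    have h1 : S.D (fun _ => m) f x = ∑ k ∈ S.I, m ^ (k 0) * f (S.h k x) := by
      rw [DSys.D_apply]
      refine Finset.sum_congr rfl fun k _ => ?_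
      rw [Fin.prod_univ_one]
    rw [h1]
    have h2 : S.I ⊆ (range (S.I.sup (fun k => k 0) + 1)).map
        ⟨Finsupp.single (0 : Fin 1), Finsupp.single_injective (0 : Fin 1)⟩ := by
      intro k hk
      rw [Finset.mem_map]
      refine ⟨k 0, ?_, exh_single k⟩
      rw [mem_range]
      have h3 : k 0 ≤ S.I.sup (fun k => k 0) :=
        Finset.le_sup (f := fun k : Fin 1 →₀ ℕ => k 0) hk
      omega
    rw [Finset.sum_subset h2 (f := fun k => m ^ (k 0) * f (S.h k x)), Finset.sum_map]
    · refine Finset.sum_congr rfl fun k _ => ?_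
      change m ^ ((Finsupp.single (0 : Fin 1) k) 0) * f (S.h (Finsupp.single 0 k) x) = _
      rw [Finsupp.single_eq_same]
    · intro k _ hk
      change m ^ (k 0) * f (S.h k x) = 0
      rw [S.h_out k hk]
      simp

theorem exists_hsys [Module.Projective (MonoidAlgebra ℤ Γ) C] (G : GrRes Γ C) {z : Γ}
    (hz : z ∈ Subgroup.center Γ) : Nonempty (HSys G z) := by
  obtain ⟨S⟩ := exists_dSys G (fun _ : Fin 1 => (⟨z, hz⟩ : Subgroup.center Γ))
  obtain ⟨S', _⟩ := hsys_of_dsys S
  exact ⟨S'⟩

end Pool.Agent.Helper39.DB
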