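import Pool.Agent.Helper39.DB.Defs2

/-!
# DB-14 (project DB): the family of functionals on the centralizers of the roots

Conjugacy of roots: `s ~ s'` iff `s' = γ s γ⁻¹` for some `γ ∈ Γ` (a `Setoid` on `Rt p z`, or the orbits of the conjugation action). For every `s` let
`s₀` be the representative of its class, `s = γ s₀ γ⁻¹` (choose `γ = γ_s`), and `φ` the functional for `g = s₀`. Put
`F x s = φ (act γ_s⁻¹ x)`. This does not depend on the choice of `γ`: if `γ s₀ γ⁻¹ = γ' s₀ γ'⁻¹` then `γ'⁻¹ γ` commutes with `s₀`, and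
`φ (act γ'⁻¹ x) = φ (act (γ'⁻¹ γ) (act γ⁻¹ x)) = φ (act γ⁻¹ x)`. Equivariance: `F (act δ x) s = F x (δ⁻¹ s δ)` as
`γ = δ⁻¹ γ_s` is a possible choice for `δ⁻¹ s δ`. `F (T x) s = φ (act γ⁻¹ (T x)) = φ (T (act γ⁻¹ x)) = f (act γ⁻¹ x) = f x`.
-/

set_option autoImplicit false

namespace Pool.Agent.Helper39.DB

open Finset Pool.Agent.Helper27.Mess
open scoped IsMulCommutative

variable {Γ : Type*} [Group Γ] {C : Type*} [AddCommGroup C] [Module (MonoidAlgebra ℤ Γ) C]
  {p : ℕ} {z : Γ} {T : C →+ C}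

theorem exists_family (hz : ∀ g : Γ, g * z = z * g) (hT : ∀ (g : Γ) (x : C), T (act g x) = act g (T x))
    {M : Type*} [AddCommGroup M] (f : C →+ M) (hf : Ivt Γ f)
    (hloc : ∀ g : Γ, g ^ p = z → ∃ φ : C →+ M,
      (∀ h : Γ, h * g = g * h → ∀ x, φ (act h x) = φ x) ∧ ∀ x, φ (T x) = f x) :
    ∃ F : C →+ CF p z M, Eqv (rR M hz) F ∧ ∀ x s, F (T x) s = f x := by
  classical
  choose! φ hφ1 hφ2 using hloc
  -- representatives of the classes of conjugate roots
  let st : Setoid (Rt p z) :=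
    { r := fun s s' => ∃ γ : Γ, s.1 = γ * s'.1 * γ⁻¹
      iseqv :=
        { refl := fun s => ⟨1, by group⟩
          symm := by
            rintro s s' ⟨γ, h⟩
            refine ⟨γ⁻¹, ?_⟩
            rw [h]
            group
          trans := by
            rintro s s' s'' ⟨γ, h⟩ ⟨δ, h'⟩
            refine ⟨γ * δ, ?_⟩
            rw [h, h']
            group } }
  let r0 : Rt p z → Rt p z := fun s => Quotient.out (Quotient.mk st s)
  have hr : ∀ s, ∃ γ : Γ, s.1 = γ * (r0 s).1 * γ⁻¹ := by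
    intro s
    have h1 : st.r (r0 s) s := Quotient.mk_out (s := st) s
    obtain ⟨γ, h⟩ := st.iseqv.symm h1
    exact ⟨γ, h⟩
  choose γ hγ using hr
  -- independence of the choice
  have key : ∀ (s : Rt p z) (a b : Γ), a * (r0 s).1 * a⁻¹ = b * (r0 s).1 * b⁻¹ →
      ∀ x, φ (r0 s).1 (act a⁻¹ x) = φ (r0 s).1 (act b⁻¹ x) := by
    intro s a b hab x
    have h1 : (b⁻¹ * a) * (r0 s).1 = (r0 s).1 * (b⁻¹ * a) := by
      have h2 : a * (r0 s).1 = b * (r0 s).1 * b⁻¹ * a := by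
        rw [← hab]
        group
      calc (b⁻¹ * a) * (r0 s).1 = b⁻¹ * (a * (r0 s).1) := by group
        _ = b⁻¹ * (b * (r0 s).1 * b⁻¹ * a) := by rw [h2]
        _ = (r0 s).1 * (b⁻¹ * a) := by group
    have h3 := hφ1 (r0 s).1 (r0 s).2 (b⁻¹ * a) h1 (act a⁻¹ x)
    rw [← act_mul] at h3
    rw [← h3]
    congr 2
    group
  refine ⟨⟨⟨fun x s => φ (r0 s).1 (act (γ s)⁻¹ x), ?_⟩, ?_⟩, ?_, ?_⟩
  · funext s
    change φ (r0 s).1 (act (γ s)⁻¹ 0) = 0
    rw [act_zero, map_zero]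
  · intro x y
    funext s
    change φ (r0 s).1 (act (γ s)⁻¹ (x + y)) = _
    rw [act_add, map_add]
    rfl
  · intro δ x
    funext s
    change φ (r0 s).1 (act (γ s)⁻¹ (act δ x)) =
      φ (r0 (cj hz δ s)).1 (act (γ (cj hz δ s))⁻¹ x)
    have h0 : r0 (cj hz δ s) = r0 s := by
      have h1 : Quotient.mk st (cj hz δ s) = Quotient.mk st s := by
        apply Quotient.sound
        refine ⟨δ⁻¹, ?_⟩
        change δ⁻¹ * s.1 * δ = _
        group
      change Quotient.out (Quotient.mk st (cj hz δ s)) = Quotient.out (Quotient.mk st s)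
      rw [h1]
    have h1 := hγ (cj hz δ s)
    rw [h0] at h1 ⊢
    have h2 : (cj hz δ s).1 = δ⁻¹ * s.1 * δ := rfl
    have h3 := key s (γ (cj hz δ s)) (δ⁻¹ * γ s) (by
      rw [← h1, h2]
      conv_lhs => rw [hγ s]
      group) x
    rw [h3, ← act_mul]
    congr 2
    group
  · intro x s
    change φ (r0 s).1 (act (γ s)⁻¹ (T x)) = f x
    rw [← hT, hφ2 (r0 s).1 (r0 s).2]
    exact hf _ _

end Pool.Agent.Helper39.DB
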