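import Pool.Agent.Helper39.DB.Defs2

/-!
# DB-16 (project DB): change of the parameter

* `root_sys`: `N = 1 + g + ... + g ^ (p - 1) ∈ ℤ[Γ]` (`∑ i ∈ range p, MonoidAlgebra.of ℤ Γ (g ^ i)`), central in `ℤ[Γ]` (`g` is central:
  `smul_eq_sum`), so `x ↦ N • x` is linear; `N (g - 1) = z - 1`. Put `h' k x = N ^ k • h k x`. `rel`:
  `∑ N ^ (i + j) h_i h_j = N ^ k [k = 1] (g - 1)`. The formula for `φ`: `φ (N • y) = p • φ y` for invariant `φ`, so `φ (N ^ k • y) = p ^ k • φ y`.
* `scale_up`: `S'` has `φ (S'.h k x) = m ^ k • φ (S.h k x)` for all invariant `φ`. Given `φ` with `φ (S.T x) = e • ε x` put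
  `ψ x = ∑ i ∈ range (n + 1), if i odd then m ^ (l - (i + 1) / 2) • φ (π i x) else 0` (`l = n + 1`, `m : ℤ`). `ψ` is invariant.
  Claim `∑_k m ^ k • ψ (S.h k x) = (m ^ l * e) • ε x`: by additivity in `x` (`G.π_sum`) it is enough to check it for `x = π j x`. `S.h k x = π (j + 2k - 1) (S.h k x)` (`h_deg`,
  `π_self`). If `j` is odd, both sides are `0` (`ε_π_ne`). If `j` is even: for `j + 2 k - 1` between `0` and `n` the `k`-th term is
  `m ^ k * m ^ (l - (j + 2 k) / 2) • φ (S.h k x) = m ^ (l - j / 2) • φ (S.h k x)` (`(j + 2k)/2 ≤ l` since `j + 2k - 1 ≤ n`), otherwise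
  `S.h k x = 0` (`π_neg`, `π_big`); the sum is `m ^ (l - j / 2) • φ (S.T x) = m ^ (l - j/2) • e • ε x`, and `ε x = 0` for `j ≠ 0`.
  (`Int.even_or_odd`, cast the degrees from `ℕ`: `i ∈ range (n + 1)`.)
-/

set_option autoImplicit false

namespace Pool.Agent.Helper39.DB

open Finset Pool.Agent.Helper27.Mess
open scoped IsMulCommutative

universe u v w

variable {Γ : Type u} [Group Γ] {C : Type v} [AddCommGroup C] [Module (MonoidAlgebra ℤ Γ) C]
  {G : GrRes Γ C}

/-- A central element acts linearly. -/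
private noncomputable def actL {g : Γ} (hg : ∀ h : Γ, h * g = g * h) :
    C →ₗ[MonoidAlgebra ℤ Γ] C where
  toFun x := act g x
  map_add' x y := act_add g x y
  map_smul' s x := by
    rw [RingHom.id_apply, smul_eq_sum, smul_eq_sum, act_sum]
    refine Finset.sum_congr rfl fun h _ => ?_
    rw [act_zsmul, ← act_mul, ← act_mul, hg h]

private theorem pow_central {g : Γ} (hg : ∀ h : Γ, h * g = g * h) (i : ℕ) (h : Γ) :
    h * g ^ i = g ^ i * h := by
  have h1 : Commute h g := hg h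
  exact h1.pow_right i

/-- The norm element. -/
private noncomputable def nrm (p : ℕ) {g : Γ} (hg : ∀ h : Γ, h * g = g * h) :
    Module.End (MonoidAlgebra ℤ Γ) C :=
  ∑ i ∈ range p, actL (pow_central hg i)

private theorem nrm_apply (p : ℕ) {g : Γ} (hg : ∀ h : Γ, h * g = g * h) (x : C) :
    nrm p hg x = ∑ i ∈ range p, act (g ^ i) x := by
  unfold nrm
  rw [LinearMap.sum_apply]
  rfl

private theorem map_nrm (p : ℕ) {g : Γ} (hg : ∀ h : Γ, h * g = g * h)
    (f : C →ₗ[MonoidAlgebra ℤ Γ] C) (x : C) : f (nrm p hg x) = nrm p hg (f x) := by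
  rw [nrm_apply, nrm_apply, map_sum]
  exact Finset.sum_congr rfl fun i _ => map_act f _ x

private theorem map_nrm_pow (p : ℕ) {g : Γ} (hg : ∀ h : Γ, h * g = g * h)
    (f : C →ₗ[MonoidAlgebra ℤ Γ] C) (k : ℕ) (x : C) :
    f ((nrm p hg ^ k : Module.End (MonoidAlgebra ℤ Γ) C) x) =
      (nrm p hg ^ k : Module.End (MonoidAlgebra ℤ Γ) C) (f x) := by
  induction k generalizing x with
  | zero => rfl
  | succ k ih =>
    rw [pow_succ, Module.End.mul_apply, Module.End.mul_apply, ih, map_nrm]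

private theorem nrm_sub (p : ℕ) {g : Γ} (hg : ∀ h : Γ, h * g = g * h) (x : C) :
    nrm p hg (act g x - x) = act (g ^ p) x - x := by
  rw [nrm_apply]
  have h1 : ∀ i ∈ range p, act (g ^ i) (act g x - x) = act (g ^ (i + 1)) x - act (g ^ i) x := by
    intro i _
    rw [act_sub, ← act_mul, ← pow_succ]
  rw [Finset.sum_congr rfl h1, Finset.sum_range_sub (fun i => act (g ^ i) x), pow_zero, act_one]

private theorem ivt_nrm_pow (p : ℕ) {g : Γ} (hg : ∀ h : Γ, h * g = g * h) {M : Type w}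
    [AddCommGroup M] {φ : C →+ M} (hφ : Ivt Γ φ) (k : ℕ) (x : C) :
    φ ((nrm p hg ^ k : Module.End (MonoidAlgebra ℤ Γ) C) x) = (p : ℤ) ^ k • φ x := by
  induction k generalizing x with
  | zero => rw [pow_zero, pow_zero, one_smul]; rfl
  | succ k ih =>
    rw [pow_succ, Module.End.mul_apply, ih, nrm_apply, map_sum,
      Finset.sum_congr rfl fun i _ => hφ (g ^ i) x, Finset.sum_const, card_range, pow_succ,
      mul_smul]
    congr 1
    rw [natCast_zsmul]

/-- from a system for the central element `g` to one for `g ^ p` -/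
theorem root_sys (p : ℕ) {g z : Γ} (hg : ∀ h : Γ, h * g = g * h) (hgz : g ^ p = z)
    (S : HSys G g) : ∃ S' : HSys G z, S'.K = S.K ∧
      ∀ (M : Type w) [AddCommGroup M] (φ : C →+ M), Ivt Γ φ → ∀ (k : ℕ) (x : C),
        φ (S'.h k x) = (p : ℤ) ^ k • φ (S.h k x) := by
  refine ⟨{ h := fun k => (nrm p hg ^ k : Module.End (MonoidAlgebra ℤ Γ) C).comp (S.h k)
            K := S.K
            h_out := ?_
            h_zero := ?_
            h_deg := ?_
            rel := ?_ }, rfl, ?_⟩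
  · intro k hk
    rw [S.h_out k hk]
    exact LinearMap.comp_zero _
  · rw [pow_zero, S.h_zero]
    rfl
  · intro k i x
    change (nrm p hg ^ k : Module.End (MonoidAlgebra ℤ Γ) C) (S.h k (G.π i x)) =
      G.π (i + 2 * (k : ℤ) - 1) ((nrm p hg ^ k : Module.End (MonoidAlgebra ℤ Γ) C) (S.h k x))
    rw [S.h_deg, map_nrm_pow]
  · intro k x
    have h1 : ∀ q ∈ antidiagonal k,
        (nrm p hg ^ q.1 : Module.End (MonoidAlgebra ℤ Γ) C) (S.h q.1
          ((nrm p hg ^ q.2 : Module.End (MonoidAlgebra ℤ Γ) C) (S.h q.2 x))) =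
        (nrm p hg ^ k : Module.End (MonoidAlgebra ℤ Γ) C) (S.h q.1 (S.h q.2 x)) := by
      intro q hq
      rw [HasAntidiagonal.mem_antidiagonal] at hq
      rw [map_nrm_pow, ← Module.End.mul_apply, ← pow_add, hq]
    have h2 : ∑ q ∈ antidiagonal k,
        (nrm p hg ^ q.1 : Module.End (MonoidAlgebra ℤ Γ) C) (S.h q.1
          ((nrm p hg ^ q.2 : Module.End (MonoidAlgebra ℤ Γ) C) (S.h q.2 x))) =
        if k = 1 then act z x - x else 0 := by
      rw [Finset.sum_congr rfl h1, ← map_sum, S.rel]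
      by_cases hk : k = 1
      · rw [if_pos hk, if_pos hk, hk, pow_one, nrm_sub, hgz]
      · rw [if_neg hk, if_neg hk, map_zero]
    exact h2
  · intro M _ φ hφ k x
    exact ivt_nrm_pow p hg hφ k (S.h k x)

section scale

variable {M : Type w} [AddCommGroup M]

/-- The rescaled invariant map. -/
private noncomputable def psi (G : GrRes Γ C) (φ : C →+ M) (m : ℤ) : C →+ M :=
  AddMonoidHom.mk' (fun x => ∑ i ∈ range (G.n + 1),
    if i % 2 = 1 then m ^ (G.n + 1 - (i + 1) / 2) • φ (G.π (i : ℤ) x) else 0) (by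
      intro a b
      rw [← Finset.sum_add_distrib]
      refine Finset.sum_congr rfl fun i _ => ?_
      by_cases hi : i % 2 = 1
      · rw [if_pos hi, if_pos hi, if_pos hi, map_add, map_add, smul_add]
      · rw [if_neg hi, if_neg hi, if_neg hi, add_zero])

private theorem psi_apply (G : GrRes Γ C) (φ : C →+ M) (m : ℤ) (x : C) :
    psi G φ m x = ∑ i ∈ range (G.n + 1),
      if i % 2 = 1 then m ^ (G.n + 1 - (i + 1) / 2) • φ (G.π (i : ℤ) x) else 0 := rfl

private theorem psi_ivt (G : GrRes Γ C) {φ : C →+ M} (hφ : Ivt Γ φ) (m : ℤ) :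
    Ivt Γ (psi G φ m) := by
  intro g x
  rw [psi_apply, psi_apply]
  refine Finset.sum_congr rfl fun i _ => ?_
  rw [map_act, hφ]

private theorem psi_even (G : GrRes Γ C) (φ : C →+ M) (m : ℤ) {d : ℤ} {y : C}
    (hy : G.π d y = y) (hd : d % 2 = 0) : psi G φ m y = 0 := by
  rw [psi_apply]
  refine Finset.sum_eq_zero fun i _ => ?_
  by_cases hi : i % 2 = 1
  · have hne : (i : ℤ) ≠ d := by omega
    rw [if_pos hi, ← hy, G.π_ne _ _ _ hne, map_zero, smul_zero]
  · rw [if_neg hi]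

private theorem psi_odd (G : GrRes Γ C) (φ : C →+ M) (m : ℤ) {i : ℕ} {y : C}
    (hy : G.π (i : ℤ) y = y) (hi : i % 2 = 1) (hin : i ≤ G.n) :
    psi G φ m y = m ^ (G.n + 1 - (i + 1) / 2) • φ y := by
  rw [psi_apply, Finset.sum_eq_single i]
  · rw [if_pos hi, hy]
  · intro j _ hj
    have hne : (j : ℤ) ≠ (i : ℤ) := by exact_mod_cast hj
    rw [← hy, G.π_ne _ _ _ hne, map_zero, smul_zero]
    exact ite_self 0
  · intro h1
    exact absurd (mem_range.2 (by omega)) h1

private theorem scale_piece {z : Γ} (S : HSys G z) (φ : C →+ M)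
    (e : M) (h : ∀ x, φ (S.T x) = G.ε x • e) (m : ℤ) (j : ℕ) (hj : j ≤ G.n) (x : C) :
    ∑ k ∈ range (S.K + 1), m ^ k • psi G φ m (S.h k (G.π (j : ℤ) x)) =
      m ^ (G.n + 1) • G.ε (G.π (j : ℤ) x) • e := by
  have hdeg : ∀ k : ℕ, G.π ((j : ℤ) + 2 * (k : ℤ) - 1) (S.h k (G.π (j : ℤ) x)) =
      S.h k (G.π (j : ℤ) x) := by
    intro k
    rw [S.h_deg, G.π_self]
  by_cases hodd : j % 2 = 1
  · have hj0 : (j : ℤ) ≠ 0 := by omega
    rw [G.ε_π_ne _ hj0, zero_smul, smul_zero]
    refine Finset.sum_eq_zero fun k _ => ?_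
    rw [psi_even G φ m (hdeg k) (by omega), smul_zero]
  · have hterm : ∀ k ∈ range (S.K + 1), m ^ k • psi G φ m (S.h k (G.π (j : ℤ) x)) =
        m ^ (G.n + 1 - j / 2) • φ (S.h k (G.π (j : ℤ) x)) := by
      intro k _
      by_cases hneg : (j : ℤ) + 2 * (k : ℤ) - 1 < 0
      · have h0 : S.h k (G.π (j : ℤ) x) = 0 := by
          rw [← hdeg k, G.π_neg _ _ hneg]
        rw [h0, map_zero, map_zero, smul_zero, smul_zero]
      · by_cases hbig : (G.n : ℤ) < (j : ℤ) + 2 * (k : ℤ) - 1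
        · have h0 : S.h k (G.π (j : ℤ) x) = 0 := by
            rw [← hdeg k, G.π_big _ _ hbig]
          rw [h0, map_zero, map_zero, smul_zero, smul_zero]
        · obtain ⟨i, hi⟩ : ∃ i : ℕ, (i : ℤ) = (j : ℤ) + 2 * (k : ℤ) - 1 :=
            ⟨((j : ℤ) + 2 * (k : ℤ) - 1).toNat, by omega⟩
          have hy := hdeg k
          rw [← hi] at hy
          rw [psi_odd G φ m hy (by omega) (by omega), smul_smul, ← pow_add]
          congr 2
          omega
    rw [Finset.sum_congr rfl hterm, ← Finset.smul_sum, ← map_sum, ← S.T_apply, h]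
    by_cases hj0 : j = 0
    · subst hj0
      simp
    · have hj0' : (j : ℤ) ≠ 0 := by exact_mod_cast hj0
      rw [G.ε_π_ne _ hj0', zero_smul, smul_zero, smul_zero]

end scale

theorem scale_up {z : Γ} (S : HSys G z) {M : Type w} [AddCommGroup M] (φ : C →+ M)
    (hφ : Ivt Γ φ) (e : M) (h : ∀ x, φ (S.T x) = G.ε x • e) (m : ℤ) :
    ∃ ψ : C →+ M, Ivt Γ ψ ∧ ∀ x, ∑ k ∈ range (S.K + 1), m ^ k • ψ (S.h k x) =
      m ^ (G.n + 1) • G.ε x • e := by
  refine ⟨psi G φ m, psi_ivt G hφ m, fun x => ?_⟩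
  let A : C →+ M := AddMonoidHom.mk'
    (fun x => ∑ k ∈ range (S.K + 1), m ^ k • psi G φ m (S.h k x)) (by
      intro a b
      rw [← Finset.sum_add_distrib]
      refine Finset.sum_congr rfl fun k _ => ?_
      rw [map_add, map_add, smul_add])
  let B : C →+ M := AddMonoidHom.mk' (fun x => m ^ (G.n + 1) • G.ε x • e) (by
      intro a b
      rw [map_add, add_smul, smul_add])
  change A x = B x
  rw [← G.π_sum x, map_sum, map_sum]
  refine Finset.sum_congr rfl fun j hj => ?_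
  rw [mem_range] at hj
  exact scale_piece S φ e h m j (by omega) x

end Pool.Agent.Helper39.DB
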