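import Pool.Agent.Helper39.DB.Defs2
import Pool.Agent.Helper10.Mess.Lift
import Pool.Agent.Helper28.Mess.NullHomotopy

/-!
# DB-10 (project DB): restriction to a subgroup is projective; the additive contraction

* `res_projective`: `C` is projective over `ℤ[Γ]`. To show that `Res H C` is projective over `ℤ[H]` use the lifting property
  (`Module.Projective.of_lifting_property'`, or a section of the surjection `Finsupp.linearCombination` from
  `(Res H C →₀ ℤ[H])`, `Module.projective_def`): let `M = (Res H C →₀ ℤ[H])`, `p = Finsupp.linearCombination .. id : M → Res H C`,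
  surjective. Both carry the action of the group `H` (`act`), i.e. `DistribMulAction H M` (`letI`), and
  `equivariant_lift H p ..` for `f = toRes H : C →+ Res H C` gives an additive `F : C →+ M` with
  `F (act h x) = act h (F x)`, `p (F x) = toRes H x`. Additive and equivariant maps are linear over the group ring
  (`smul_eq_sum`).
* `exists_contr`: apply `null_homotopy` over the group `↥(⊥ : Subgroup Γ)` to `resG ⊥ G` (projective by
  `res_projective`), `q = 0`, `ω x = x - (G.ε x) • y₀`, where `y₀` has `G.ε y₀ = 1`, `G.π 0 y₀ = y₀` (`ε_surj`, `ε_π`;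
  additive maps are linear over `ℤ[⊥]`, as `act 1 = id`; `G.d y₀ = G.d (G.π 0 y₀) = G.π (-1) .. = 0`, `ε_d`, so `ω` commutes with `d`; `ε (ω x) = 0`;
  degrees: `ε (π i x) = 0` for `i ≠ 0`). For `d x = 0`, `ε x = 0`: `d (h x) = ω x - h (d x) = x`.
-/

set_option autoImplicit false

namespace Pool.Agent.Helper39.DB

open Finset Pool.Agent.Helper27.Mess
open scoped IsMulCommutative

universe u v

variable {Γ : Type u} [Group Γ] {C : Type v} [AddCommGroup C] [Module (MonoidAlgebra ℤ Γ) C]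

theorem res_projective [Module.Projective (MonoidAlgebra ℤ Γ) C] (H : Subgroup Γ) :
    Module.Projective (MonoidAlgebra ℤ H) (Res H C) := by
  classical
  let p : (Res H C →₀ MonoidAlgebra ℤ H) →ₗ[MonoidAlgebra ℤ H] Res H C :=
    Finsupp.linearCombination (MonoidAlgebra ℤ H) (id : Res H C → Res H C)
  have hp : Function.Surjective p := fun x => ⟨Finsupp.single x 1, by simp [p]⟩
  let i1 : DistribMulAction H (Res H C →₀ MonoidAlgebra ℤ H) :=
    DistribMulAction.compHom _ (MonoidAlgebra.of ℤ H)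
  let i2 : DistribMulAction H (Res H C) :=
    DistribMulAction.compHom _ (MonoidAlgebra.of ℤ H)
  obtain ⟨F, hF1, hF2⟩ := @equivariant_lift Γ _ C _ _ _ H (Res H C →₀ MonoidAlgebra ℤ H)
    (Res H C) _ _ i1 i2 p.toAddMonoidHom hp
    (fun g m => by
      change p (MonoidAlgebra.of ℤ H g • m) = MonoidAlgebra.of ℤ H g • p m
      rw [map_smul])
    (toRes H).toAddMonoidHom
    (fun g x => by
      change toRes H (act (g : Γ) x) = act g (toRes H x)
      rw [act_toRes])
  have hF1' : ∀ (g : H) (x : C), F (act (g : Γ) x) = act g (F x) := hF1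
  have hF2' : ∀ x : C, p (F x) = toRes H x := hF2
  rw [Module.projective_def']
  refine ⟨{ toFun := fun x => F ((toRes H).symm x)
            map_add' := fun x y => by rw [map_add, map_add]
            map_smul' := fun t x => ?_ }, ?_⟩
  · rw [RingHom.id_apply, smul_eq_sum, smul_eq_sum, map_sum, map_sum]
    refine Finset.sum_congr rfl fun g _ => ?_
    rw [map_zsmul, map_zsmul]
    congr 1
    have h1 : act g x = toRes H (act (g : Γ) ((toRes H).symm x)) := by
      rw [← act_toRes, AddEquiv.apply_symm_apply]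
    rw [h1, AddEquiv.symm_apply_apply]
    exact hF1' g _
  · apply LinearMap.ext
    intro x
    change p (F ((toRes H).symm x)) = x
    rw [hF2', AddEquiv.apply_symm_apply]

private theorem lin_bot {A B : Type*} [AddCommGroup A] [AddCommGroup B]
    [Module (MonoidAlgebra ℤ (⊥ : Subgroup Γ)) A] [Module (MonoidAlgebra ℤ (⊥ : Subgroup Γ)) B]
    (f : A →+ B) (t : MonoidAlgebra ℤ (⊥ : Subgroup Γ)) (x : A) : f (t • x) = t • f x := by
  rw [smul_eq_sum, smul_eq_sum, map_sum]
  refine Finset.sum_congr rfl fun g _ => ?_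
  have h1 : g = 1 := Subsingleton.elim _ _
  rw [map_zsmul, h1, act_one, act_one]

theorem exists_contr [Module.Projective (MonoidAlgebra ℤ Γ) C] (G : GrRes Γ C) :
    ∃ s : C →+ C, ∀ x, G.d x = 0 → G.ε x = 0 → G.d (s x) = x := by
  classical
  haveI hproj : Module.Projective (MonoidAlgebra ℤ (⊥ : Subgroup Γ)) (Res (⊥ : Subgroup Γ) C) :=
    res_projective ⊥
  obtain ⟨y, hy⟩ := G.ε_surj 1
  set y₀ : C := G.π 0 y with hy₀
  have hεy : G.ε y₀ = 1 := by rw [hy₀, G.ε_π, hy]
  have hπy : G.π 0 y₀ = y₀ := by rw [hy₀, G.π_self]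
  have hπy' : ∀ i : ℤ, i ≠ 0 → G.π i y₀ = 0 := fun i hi => by rw [hy₀, G.π_ne i 0 y hi]
  have hdy : G.d y₀ = 0 := by rw [hy₀, G.d_π, G.π_neg _ _ (by norm_num)]
  let f : Res (⊥ : Subgroup Γ) C →+ Res (⊥ : Subgroup Γ) C :=
    AddMonoidHom.id _ - (zmultiplesHom (Res (⊥ : Subgroup Γ) C) (toRes ⊥ y₀)).comp
      (resG (⊥ : Subgroup Γ) G).ε
  have hf : ∀ x : C, f (toRes ⊥ x) = toRes ⊥ (x - G.ε x • y₀) := by
    intro x
    rw [map_sub, map_zsmul]
    rfl
  let ω : Res (⊥ : Subgroup Γ) C →ₗ[MonoidAlgebra ℤ (⊥ : Subgroup Γ)] Res (⊥ : Subgroup Γ) C :=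
    { toFun := f
      map_add' := f.map_add
      map_smul' := fun t x => lin_bot f t x }
  have hω : ∀ x : C, ω (toRes ⊥ x) = toRes ⊥ (x - G.ε x • y₀) := hf
  obtain ⟨h, -, h2⟩ := null_homotopy (resG (⊥ : Subgroup Γ) G) 0 ω (by
      intro i x
      obtain ⟨x, rfl⟩ := (toRes (⊥ : Subgroup Γ)).surjective x
      change ω (toRes ⊥ (G.π i x)) = toRes ⊥ (G.π (i + ((0 : ℕ) : ℤ)) ((toRes ⊥).symm (ω (toRes ⊥ x))))
      rw [hω, hω, AddEquiv.symm_apply_apply, Nat.cast_zero, add_zero]
      refine congrArg (toRes (⊥ : Subgroup Γ)) ?_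
      rw [map_sub, map_zsmul]
      by_cases hi : i = 0
      · subst hi
        rw [G.ε_π, hπy]
      · rw [G.ε_π_ne i hi, zero_smul, hπy' i hi, smul_zero]) (by
      intro x
      obtain ⟨x, rfl⟩ := (toRes (⊥ : Subgroup Γ)).surjective x
      change toRes ⊥ (G.d ((toRes ⊥).symm (ω (toRes ⊥ x)))) = ω (toRes ⊥ (G.d x))
      rw [hω, hω, AddEquiv.symm_apply_apply, map_sub, map_zsmul, hdy, smul_zero, G.ε_d,
        zero_smul]) (by
      intro _ x
      obtain ⟨x, rfl⟩ := (toRes (⊥ : Subgroup Γ)).surjective x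
      rw [hω, resG_ε, map_sub, map_zsmul, hεy]
      simp)
  refine ⟨(toRes ⊥).symm.toAddMonoidHom.comp (h.toAddMonoidHom.comp
    (toRes (⊥ : Subgroup Γ)).toAddMonoidHom), fun x hdx hεx => ?_⟩
  have h3 := h2 (toRes ⊥ x)
  have h4 : (resG (⊥ : Subgroup Γ) G).d (toRes ⊥ x) = 0 := by
    change toRes ⊥ (G.d x) = 0
    rw [hdx, map_zero]
  rw [h4, map_zero, add_zero, hω, hεx, zero_smul, sub_zero] at h3
  exact congrArg (toRes (⊥ : Subgroup Γ)).symm h3

end Pool.Agent.Helper39.DB
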