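import Pool.Agent.Helper39.DB.Defs2
import Pool.Agent.Helper28.Mess.NullHomotopy
import Pool.Agent.Helper87.Mess.ExistsDSys

/-!
# DB-17 (project DB): comparison of two systems of higher homotopies

* `null_homotopy_odd`: the parity operator `P x = ∑ i ∈ range (n + 1), (-1) ^ i • π i x` is linear, `P (P x) = x`, `d (P x) = - P (d x)`,
  `P (π i x) = π i (P x)`. Apply `null_homotopy` to `ω ∘ P` (`d (ω (P x)) = - ω (d (P x)) = ω (P (d x))`): `h` with
  `d (h x) + h (d x) = ω (P x)`; `θ x = h (P x)`: `d (θ x) - θ (d x) = d (h (P x)) + h (d (P x)) = ω (P (P x)) = ω x`.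
* `compare`: find `θ : ℕ → End C` with `θ 0 = 1`, `θ k` of degree `2 k` and
  (R k) `∑_{i+j=k} (h' i ∘ θ j - θ i ∘ h j) = 0` for all `k`. Induction on `K`: a sequence with `θ k = 0` for `k > K` and (R k) for `k ≤ K`
  (`K = 0`: `θ 0 = 1`, `h' 0 = d = h 0`). Step: `X j = ∑_{i+l=j} (h' i ∘ θ l - θ i ∘ h l)`, `X j = 0` for `j ≤ K`; `ω = - X (K + 1)` has degree
  `2 (K + 1) - 1 ≥ 1` and `d ω + ω d = 0`: by associativity `∑_{i+j=K+1} (h' i X j + X j h i) = ((z - 1) θ_K - θ_K (z - 1)) = 0`
  (`rel` for both systems; `θ_K` commutes with `act z`), and the left side is `d X (K+1) + X (K+1) d`.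
  (As in `ms3_assoc` of Helper87/Mess/ExistsDSys.lean: compute in `PowerSeries (Module.End (MonoidAlgebra ℤ Γ) C)` (or `MvPowerSeries`): with
  `D = ∑ h k X^k`, `D' = ∑ h' k X^k`, `Θ = ∑ θ k X^k`: `D' (D' Θ - Θ D) + (D' Θ - Θ D) D = D'^2 Θ - Θ D^2`.)
  By `null_homotopy_odd` (`q = 2 K + 1`) there is `θ (K+1)` of degree `2 (K + 1)` with `d θ (K+1) - θ (K+1) d = ω`: this is (R (K+1)).
  For `k > n`, `θ k = 0` by its degree (`θ (π i x) = π (i + 2 k) (θ x) = 0` for `i ≥ 0`), so finitely many steps are enough: take `K ≥ n + S.K + S'.K + 1`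
  and note that (R k) holds for all `k` (for large `k` all terms vanish). `Θ = ∑_{k ≤ K} θ k`; summing (R k) over all `k ≤ 2 K` gives
  `S'.T (Θ x) = Θ (S.T x)` (`HSys.T_apply_of_le`; double sums as in `HSys.curv`). `ε (θ k x) = 0` for `k ≥ 1` (degree `≥ 2`).
-/

set_option autoImplicit false

namespace Pool.Agent.Helper39.DB

open Finset Pool.Agent.Helper27.Mess
open scoped IsMulCommutative

variable {Γ : Type*} [Group Γ] {C : Type*} [AddCommGroup C] [Module (MonoidAlgebra ℤ Γ) C]

theorem th_ext (G : GrRes Γ C) {F F' : C →ₗ[MonoidAlgebra ℤ Γ] C}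
    (h : ∀ (i : ℤ) (x : C), F (G.π i x) = F' (G.π i x)) (x : C) : F x = F' x := by
  have key : ∀ E : C →ₗ[MonoidAlgebra ℤ Γ] C, E x = ∑ i ∈ range (G.n + 1), E (G.π (i : ℤ) x) := by
    intro E
    rw [← map_sum, G.π_sum]
  rw [key F, key F']
  exact sum_congr rfl fun i _ => h _ _

/-- The parity operator. -/
noncomputable def th_P (G : GrRes Γ C) : C →ₗ[MonoidAlgebra ℤ Γ] C :=
  ∑ i ∈ range (G.n + 1), if Even i then G.π (i : ℤ) else - G.π (i : ℤ)

theorem th_P_apply (G : GrRes Γ C) (x : C) :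
    th_P G x = ∑ i ∈ range (G.n + 1), if Even i then G.π (i : ℤ) x else - G.π (i : ℤ) x := by
  rw [th_P, LinearMap.sum_apply]
  refine sum_congr rfl fun i _ => ?_
  split_ifs with h
  · rfl
  · rfl

theorem th_P_π (G : GrRes Γ C) (j : ℤ) (x : C) :
    th_P G (G.π j x) = if Even j then G.π j x else - G.π j x := by
  rw [th_P_apply]
  by_cases hj : 0 ≤ j ∧ j ≤ G.n
  · obtain ⟨h0, h1⟩ := hj
    obtain ⟨m, rfl⟩ := Int.eq_ofNat_of_zero_le h0
    rw [Finset.sum_eq_single m]
    · rw [G.π_self]
      simp only [Int.even_coe_nat]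
    · intro i _ hi
      rw [G.π_ne _ _ _ (by exact_mod_cast hi), neg_zero, ite_self]
    · intro hn
      exfalso
      apply hn
      rw [mem_range]
      have : (m : ℤ) ≤ G.n := h1
      omega
  · have hz : G.π j x = 0 := by
      rcases lt_or_ge j 0 with h | h
      · exact G.π_neg _ _ h
      · exact G.π_big _ _ (by
          by_contra hcon
          exact hj ⟨h, by omega⟩)
    rw [hz, neg_zero, ite_self]
    refine sum_eq_zero fun i _ => ?_
    rw [map_zero, neg_zero, ite_self]

theorem th_π_P (G : GrRes Γ C) (j : ℤ) (x : C) :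
    G.π j (th_P G x) = if Even j then G.π j x else - G.π j x := by
  rw [th_P_apply, map_sum]
  by_cases hj : 0 ≤ j ∧ j ≤ G.n
  · obtain ⟨h0, h1⟩ := hj
    obtain ⟨m, rfl⟩ := Int.eq_ofNat_of_zero_le h0
    rw [Finset.sum_eq_single m]
    · rw [apply_ite (G.π (m : ℤ)), map_neg, G.π_self]
      simp only [Int.even_coe_nat]
    · intro i _ hi
      have hne : (m : ℤ) ≠ (i : ℤ) := by
        intro h
        exact hi (by exact_mod_cast h.symm)
      rw [apply_ite (G.π (m : ℤ)), map_neg, G.π_ne _ _ _ hne, neg_zero, ite_self]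
    · intro hn
      exfalso
      apply hn
      rw [mem_range]
      have : (m : ℤ) ≤ G.n := h1
      omega
  · have hz : ∀ y, G.π j y = 0 := by
      intro y
      rcases lt_or_ge j 0 with h | h
      · exact G.π_neg _ _ h
      · exact G.π_big _ _ (by
          by_contra hcon
          exact hj ⟨h, by omega⟩)
    rw [hz, neg_zero, ite_self]
    exact sum_eq_zero fun i _ => hz _

theorem th_P_comm (G : GrRes Γ C) (j : ℤ) (x : C) :
    th_P G (G.π j x) = G.π j (th_P G x) := by
  rw [th_P_π, th_π_P]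

theorem th_P_P (G : GrRes Γ C) (x : C) : th_P G (th_P G x) = x := by
  refine th_ext (F := th_P G ∘ₗ th_P G) (F' := LinearMap.id) G ?_ x
  intro i x
  rw [LinearMap.comp_apply, LinearMap.id_apply, th_P_π]
  split_ifs with h
  · rw [th_P_π, if_pos h]
  · rw [map_neg, th_P_π, if_neg h, neg_neg]

theorem th_d_P (G : GrRes Γ C) (x : C) : G.d (th_P G x) = - th_P G (G.d x) := by
  refine th_ext (F := G.d ∘ₗ th_P G) (F' := - (th_P G ∘ₗ G.d)) G ?_ x
  intro i x
  rw [LinearMap.comp_apply, LinearMap.neg_apply, LinearMap.comp_apply, th_P_π, G.d_π, th_P_π]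
  by_cases h : Even i
  · have h2 : ¬ Even (i - 1) := by
      rw [Int.even_sub]
      simp [h]
    rw [if_pos h, if_neg h2, G.d_π, neg_neg]
  · have h2 : Even (i - 1) := by
      rw [Int.even_sub]
      simp [h]
    rw [if_neg h, if_pos h2, map_neg, G.d_π]

/-- Products of three sequences. -/
theorem th_assoc {R : Type*} [Ring R] (a b c : ℕ → R) (k : ℕ) :
    ∑ p ∈ antidiagonal k, a p.1 * (∑ q ∈ antidiagonal p.2, a q.1 * b q.2 -
        ∑ q ∈ antidiagonal p.2, b q.1 * c q.2) +
      ∑ p ∈ antidiagonal k, (∑ q ∈ antidiagonal p.1, a q.1 * b q.2 -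
        ∑ q ∈ antidiagonal p.1, b q.1 * c q.2) * c p.2 =
    ∑ p ∈ antidiagonal k, (∑ q ∈ antidiagonal p.1, a q.1 * a q.2) * b p.2 -
      ∑ p ∈ antidiagonal k, b p.1 * (∑ q ∈ antidiagonal p.2, c q.1 * c q.2) := by
  have H : PowerSeries.mk a * (PowerSeries.mk a * PowerSeries.mk b -
      PowerSeries.mk b * PowerSeries.mk c) +
      (PowerSeries.mk a * PowerSeries.mk b - PowerSeries.mk b * PowerSeries.mk c) *
        PowerSeries.mk c =
      (PowerSeries.mk a * PowerSeries.mk a) * PowerSeries.mk b -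
        PowerSeries.mk b * (PowerSeries.mk c * PowerSeries.mk c) := by
    rw [mul_sub, sub_mul, mul_assoc, mul_assoc, mul_assoc]
    abel
  have H2 := congrArg (PowerSeries.coeff k) H
  simp only [map_add, map_sub, PowerSeries.coeff_mul, PowerSeries.coeff_mk] at H2
  exact H2

theorem null_homotopy_odd [Module.Projective (MonoidAlgebra ℤ Γ) C] (G : GrRes Γ C) (q : ℕ)
    (hq : 1 ≤ q) (ω : C →ₗ[MonoidAlgebra ℤ Γ] C)
    (hdeg : ∀ (i : ℤ) (x : C), ω (G.π i x) = G.π (i + q) (ω x))
    (hω : ∀ x, G.d (ω x) = - ω (G.d x)) :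
    ∃ θ : C →ₗ[MonoidAlgebra ℤ Γ] C,
      (∀ (i : ℤ) (x : C), θ (G.π i x) = G.π (i + q + 1) (θ x)) ∧
      ∀ x, G.d (θ x) - θ (G.d x) = ω x := by
  obtain ⟨h, h1, h2⟩ := null_homotopy G q (ω ∘ₗ th_P G)
    (fun i x => by
      rw [LinearMap.comp_apply, LinearMap.comp_apply, th_P_comm, hdeg])
    (fun x => by
      rw [LinearMap.comp_apply, LinearMap.comp_apply, hω, th_d_P, map_neg, neg_neg])
    (fun h => absurd h (by omega))
  refine ⟨h ∘ₗ th_P G, fun i x => ?_, fun x => ?_⟩
  · rw [LinearMap.comp_apply, LinearMap.comp_apply, th_P_comm, h1]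
  · rw [LinearMap.comp_apply, LinearMap.comp_apply]
    have h3 := h2 (th_P G x)
    rw [th_d_P, map_neg, LinearMap.comp_apply, th_P_P] at h3
    rw [← h3]
    abel

/-- The inductive statement. -/
def th_Q {G : GrRes Γ C} {z : Γ} (S S' : HSys G z) (K : ℕ)
    (θ : ℕ → Module.End (MonoidAlgebra ℤ Γ) C) : Prop :=
  θ 0 = 1 ∧
  (∀ k i x, θ k (G.π i x) = G.π (i + 2 * (k : ℤ)) (θ k x)) ∧
  (∀ k, K < k → θ k = 0) ∧
  ∀ k, k ≤ K → ∑ q ∈ antidiagonal k, (S'.h q.1 : Module.End (MonoidAlgebra ℤ Γ) C) * θ q.2 -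
    ∑ q ∈ antidiagonal k, θ q.1 * (S.h q.2 : Module.End (MonoidAlgebra ℤ Γ) C) = 0

theorem th_zero {G : GrRes Γ C} {z : Γ} (S S' : HSys G z) :
    ∃ θ, th_Q S S' 0 θ := by
  refine ⟨fun k => if k = 0 then 1 else 0, ?_, ?_, ?_, ?_⟩
  · simp
  · intro k i x
    by_cases hk : k = 0
    · subst hk
      simp
    · simp [hk]
  · intro k hk
    have : k ≠ 0 := by omega
    simp [this]
  · intro k hk
    have hk0 : k = 0 := by omega
    subst hk0
    simp [S.h_zero, S'.h_zero]

/-- The square of a system. -/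
theorem th_sq {G : GrRes Γ C} {z : Γ} (S : HSys G z) (k : ℕ) (hk : k ≠ 1) :
    ∑ q ∈ antidiagonal k, (S.h q.1 : Module.End (MonoidAlgebra ℤ Γ) C) * S.h q.2 = 0 := by
  apply LinearMap.ext
  intro x
  have h := S.rel k x
  rw [if_neg hk] at h
  rw [LinearMap.sum_apply, LinearMap.zero_apply, ← h]
  rfl

theorem th_sq_one {G : GrRes Γ C} {z : Γ} (S : HSys G z) (x : C) :
    (∑ q ∈ antidiagonal 1, (S.h q.1 : Module.End (MonoidAlgebra ℤ Γ) C) * S.h q.2) x =
      act z x - x := by
  have h := S.rel 1 x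
  rw [if_pos rfl] at h
  rw [LinearMap.sum_apply, ← h]
  rfl

theorem th_step [Module.Projective (MonoidAlgebra ℤ Γ) C] {G : GrRes Γ C} {z : Γ}
    (S S' : HSys G z) (K : ℕ) (θ : ℕ → Module.End (MonoidAlgebra ℤ Γ) C)
    (hQ : th_Q S S' K θ) : ∃ θ', th_Q S S' (K + 1) θ' := by
  obtain ⟨h0, hdeg, hbig, hrel⟩ := hQ
  set X : ℕ → Module.End (MonoidAlgebra ℤ Γ) C := fun k =>
    ∑ q ∈ antidiagonal k, (S'.h q.1 : Module.End (MonoidAlgebra ℤ Γ) C) * θ q.2 -
    ∑ q ∈ antidiagonal k, θ q.1 * (S.h q.2 : Module.End (MonoidAlgebra ℤ Γ) C) with hX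
  have hX0 : ∀ k, k ≤ K → X k = 0 := hrel
  have hXa : ∀ k x, X k x = ∑ q ∈ antidiagonal k, S'.h q.1 (θ q.2 x) -
      ∑ q ∈ antidiagonal k, θ q.1 (S.h q.2 x) := by
    intro k x
    rw [hX]
    simp only [LinearMap.sub_apply, LinearMap.sum_apply]
    rfl
  have hXπ : ∀ (i : ℤ) (x : C), X (K + 1) (G.π i x) =
      G.π (i + ((2 * K + 1 : ℕ) : ℤ)) (X (K + 1) x) := by
    intro i x
    rw [hXa, hXa, map_sub, map_sum, map_sum]
    congr 1
    · refine sum_congr rfl fun q hq => ?_
      rw [HasAntidiagonal.mem_antidiagonal] at hq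
      rw [hdeg, S'.h_deg]
      congr 2
      push_cast
      have : (q.1 : ℤ) + q.2 = K + 1 := by exact_mod_cast hq
      linarith
    · refine sum_congr rfl fun q hq => ?_
      rw [HasAntidiagonal.mem_antidiagonal] at hq
      rw [S.h_deg, hdeg]
      congr 2
      push_cast
      have : (q.1 : ℤ) + q.2 = K + 1 := by exact_mod_cast hq
      linarith
  have hXd : (S'.h 0 : Module.End (MonoidAlgebra ℤ Γ) C) * X (K + 1) +
      X (K + 1) * (S.h 0 : Module.End (MonoidAlgebra ℤ Γ) C) = 0 := by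
    have hA := th_assoc (R := Module.End (MonoidAlgebra ℤ Γ) C) S'.h θ S.h (K + 1)
    have hL1 : ∑ p ∈ antidiagonal (K + 1), (S'.h p.1 : Module.End (MonoidAlgebra ℤ Γ) C) *
        X p.2 = S'.h 0 * X (K + 1) := by
      rw [Finset.sum_eq_single (0, K + 1)]
      · rintro ⟨p, q⟩ hp hne
        rw [HasAntidiagonal.mem_antidiagonal] at hp
        simp only at hp hne ⊢
        rw [hX0 q, mul_zero]
        by_contra hcon
        apply hne
        have : p = 0 := by omega
        subst this
        rw [zero_add] at hp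
        rw [hp]
      · intro hn
        exact absurd (by rw [HasAntidiagonal.mem_antidiagonal]; simp) hn
    have hL2 : ∑ p ∈ antidiagonal (K + 1), X p.1 *
        (S.h p.2 : Module.End (MonoidAlgebra ℤ Γ) C) = X (K + 1) * S.h 0 := by
      rw [Finset.sum_eq_single (K + 1, 0)]
      · rintro ⟨p, q⟩ hp hne
        rw [HasAntidiagonal.mem_antidiagonal] at hp
        simp only at hp hne ⊢
        rw [hX0 p, zero_mul]
        by_contra hcon
        apply hne
        have : q = 0 := by omega
        subst this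
        rw [add_zero] at hp
        rw [hp]
      · intro hn
        exact absurd (by rw [HasAntidiagonal.mem_antidiagonal]; simp) hn
    have hR1 : ∑ p ∈ antidiagonal (K + 1), (∑ q ∈ antidiagonal p.1,
        (S'.h q.1 : Module.End (MonoidAlgebra ℤ Γ) C) * S'.h q.2) * θ p.2 =
        (∑ q ∈ antidiagonal 1, (S'.h q.1 : Module.End (MonoidAlgebra ℤ Γ) C) * S'.h q.2) *
          θ K := by
      rw [Finset.sum_eq_single (1, K)]
      · rintro ⟨p, q⟩ hp hne
        rw [HasAntidiagonal.mem_antidiagonal] at hp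
        simp only at hp hne ⊢
        rw [th_sq S' p, zero_mul]
        rintro rfl
        apply hne
        have : q = K := by omega
        rw [this]
      · intro hn
        exact absurd (by rw [HasAntidiagonal.mem_antidiagonal]; exact add_comm _ _) hn
    have hR2 : ∑ p ∈ antidiagonal (K + 1), θ p.1 * (∑ q ∈ antidiagonal p.2,
        (S.h q.1 : Module.End (MonoidAlgebra ℤ Γ) C) * S.h q.2) =
        θ K * (∑ q ∈ antidiagonal 1, (S.h q.1 : Module.End (MonoidAlgebra ℤ Γ) C) *
          S.h q.2) := by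
      rw [Finset.sum_eq_single (K, 1)]
      · rintro ⟨p, q⟩ hp hne
        rw [HasAntidiagonal.mem_antidiagonal] at hp
        simp only at hp hne ⊢
        rw [th_sq S q, mul_zero]
        rintro rfl
        apply hne
        have : p = K := by omega
        rw [this]
      · intro hn
        exact absurd (by rw [HasAntidiagonal.mem_antidiagonal]) hn
    have hA2 : (S'.h 0 : Module.End (MonoidAlgebra ℤ Γ) C) * X (K + 1) +
        X (K + 1) * (S.h 0 : Module.End (MonoidAlgebra ℤ Γ) C) =
        (∑ q ∈ antidiagonal 1, (S'.h q.1 : Module.End (MonoidAlgebra ℤ Γ) C) * S'.h q.2) *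
          θ K - θ K * (∑ q ∈ antidiagonal 1, (S.h q.1 : Module.End (MonoidAlgebra ℤ Γ) C) *
          S.h q.2) := by
      rw [← hL1, ← hL2, ← hR1, ← hR2]
      exact hA
    rw [hA2]
    apply LinearMap.ext
    intro x
    rw [LinearMap.sub_apply, Module.End.mul_apply, Module.End.mul_apply, th_sq_one, th_sq_one,
      map_sub, map_act, sub_self, LinearMap.zero_apply]
  have hXd' : ∀ x, G.d (X (K + 1) x) = - X (K + 1) (G.d x) := by
    intro x
    have h := LinearMap.congr_fun hXd x
    rw [S.h_zero, S'.h_zero, LinearMap.add_apply, Module.End.mul_apply, Module.End.mul_apply,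
      LinearMap.zero_apply] at h
    exact eq_neg_of_add_eq_zero_left h
  obtain ⟨g, hg1, hg2⟩ := null_homotopy_odd G (2 * K + 1) (by omega) (- X (K + 1))
    (fun i x => by
      rw [LinearMap.neg_apply, LinearMap.neg_apply, map_neg, hXπ])
    (fun x => by
      rw [LinearMap.neg_apply, LinearMap.neg_apply, map_neg, hXd'])
  refine ⟨fun k => θ k + if k = K + 1 then g else 0, ?_, ?_, ?_, ?_⟩
  · have : (0 : ℕ) ≠ K + 1 := by omega
    simp only [if_neg this, add_zero]
    exact h0
  · intro k i x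
    by_cases hk : k = K + 1
    · subst hk
      simp only [if_true, LinearMap.add_apply]
      rw [hbig _ (by omega), LinearMap.zero_apply, LinearMap.zero_apply, zero_add, zero_add, hg1]
      congr 2
      push_cast
      ring
    · simp only [if_neg hk, add_zero]
      exact hdeg k i x
  · intro k hk
    have : k ≠ K + 1 := by omega
    simp only [if_neg this, add_zero]
    exact hbig k (by omega)
  · intro k hk
    have e1 : ∑ q ∈ antidiagonal k, (S'.h q.1 : Module.End (MonoidAlgebra ℤ Γ) C) *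
        (θ q.2 + if q.2 = K + 1 then g else 0) = ∑ q ∈ antidiagonal k,
          (S'.h q.1 : Module.End (MonoidAlgebra ℤ Γ) C) * θ q.2 +
          if k = K + 1 then (S'.h 0 : Module.End (MonoidAlgebra ℤ Γ) C) * g else 0 := by
      simp only [mul_add, sum_add_distrib]
      congr 1
      split_ifs with hk2
      · subst hk2
        rw [Finset.sum_eq_single (0, K + 1)]
        · simp
        · rintro ⟨p, q⟩ hp hne
          rw [HasAntidiagonal.mem_antidiagonal] at hp
          simp only at hp hne ⊢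
          rw [if_neg, mul_zero]
          rintro rfl
          apply hne
          have : p = 0 := by omega
          rw [this]
        · intro hn
          exact absurd (by rw [HasAntidiagonal.mem_antidiagonal]; simp) hn
      · refine sum_eq_zero ?_
        rintro ⟨p, q⟩ hp
        rw [HasAntidiagonal.mem_antidiagonal] at hp
        simp only at hp ⊢
        rw [if_neg (by omega), mul_zero]
    have e2 : ∑ q ∈ antidiagonal k, (θ q.1 + if q.1 = K + 1 then g else 0) *
        (S.h q.2 : Module.End (MonoidAlgebra ℤ Γ) C) = ∑ q ∈ antidiagonal k,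
          θ q.1 * (S.h q.2 : Module.End (MonoidAlgebra ℤ Γ) C) +
          if k = K + 1 then g * (S.h 0 : Module.End (MonoidAlgebra ℤ Γ) C) else 0 := by
      simp only [add_mul, sum_add_distrib]
      congr 1
      split_ifs with hk2
      · subst hk2
        rw [Finset.sum_eq_single (K + 1, 0)]
        · simp
        · rintro ⟨p, q⟩ hp hne
          rw [HasAntidiagonal.mem_antidiagonal] at hp
          simp only at hp hne ⊢
          rw [if_neg, zero_mul]
          rintro rfl
          apply hne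
          have : q = 0 := by omega
          rw [this]
        · intro hn
          exact absurd (by rw [HasAntidiagonal.mem_antidiagonal]; simp) hn
      · refine sum_eq_zero ?_
        rintro ⟨p, q⟩ hp
        rw [HasAntidiagonal.mem_antidiagonal] at hp
        simp only at hp ⊢
        rw [if_neg (by omega), zero_mul]
    change ∑ q ∈ antidiagonal k, (S'.h q.1 : Module.End (MonoidAlgebra ℤ Γ) C) *
        (θ q.2 + if q.2 = K + 1 then g else 0) -
      ∑ q ∈ antidiagonal k, (θ q.1 + if q.1 = K + 1 then g else 0) *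
        (S.h q.2 : Module.End (MonoidAlgebra ℤ Γ) C) = 0
    rw [e1, e2]
    by_cases hk2 : k = K + 1
    · subst hk2
      rw [if_pos rfl, if_pos rfl, S'.h_zero, S.h_zero]
      have e3 : (G.d : Module.End (MonoidAlgebra ℤ Γ) C) * g - g * G.d = - X (K + 1) := by
        apply LinearMap.ext
        intro x
        rw [LinearMap.sub_apply, Module.End.mul_apply, Module.End.mul_apply]
        exact hg2 x
      rw [add_sub_add_comm, e3]
      exact add_neg_cancel _
    · rw [if_neg hk2, if_neg hk2, add_zero, add_zero]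
      exact hrel k (by omega)

theorem th_exists [Module.Projective (MonoidAlgebra ℤ Γ) C] {G : GrRes Γ C} {z : Γ}
    (S S' : HSys G z) (K : ℕ) : ∃ θ, th_Q S S' K θ := by
  induction K with
  | zero => exact th_zero S S'
  | succ K ih =>
    obtain ⟨θ, hθ⟩ := ih
    exact th_step S S' K θ hθ

theorem th_sum {M : Type*} [AddCommMonoid M] (L : ℕ) (f : ℕ → ℕ → M)
    (hf : ∀ i j, L < i ∨ L < j → f i j = 0) :
    ∑ i ∈ range (L + 1), ∑ j ∈ range (L + 1), f i j =
      ∑ k ∈ range (2 * L + 1), ∑ p ∈ antidiagonal k, f p.1 p.2 := by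
  rw [← Finset.sum_product' (range (L + 1)) (range (L + 1)) f]
  rw [← Finset.sum_fiberwise_of_maps_to (s := range (L + 1) ×ˢ range (L + 1))
    (t := range (2 * L + 1)) (g := fun p => p.1 + p.2)]
  · refine sum_congr rfl fun k _ => ?_
    refine Finset.sum_subset ?_ ?_
    · intro p hp
      rw [mem_filter] at hp
      rw [HasAntidiagonal.mem_antidiagonal]
      exact hp.2
    · intro p hp hn
      rw [HasAntidiagonal.mem_antidiagonal] at hp
      apply hf
      by_contra hcon
      apply hn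
      rw [mem_filter, mem_product, mem_range, mem_range]
      refine ⟨⟨by omega, by omega⟩, hp⟩
  · intro p hp
    rw [mem_product, mem_range, mem_range] at hp
    rw [mem_range]
    omega

theorem compare [Module.Projective (MonoidAlgebra ℤ Γ) C] {G : GrRes Γ C} {z : Γ}
    (S S' : HSys G z) : ∃ Θ : C →ₗ[MonoidAlgebra ℤ Γ] C,
      (∀ x, G.ε (Θ x) = G.ε x) ∧ ∀ x, S'.T (Θ x) = Θ (S.T x) := by
  set L : ℕ := G.n + S.K + S'.K with hL
  obtain ⟨θ, h0, hdeg, -, hrel⟩ := th_exists S S' (2 * L)
  have hθ0 : ∀ k, L < k → ∀ x, θ k x = 0 := by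
    intro k hk x
    refine th_ext (F := θ k) (F' := 0) G ?_ x
    intro i x
    rw [LinearMap.zero_apply]
    rcases lt_or_ge i 0 with h | h
    · rw [G.π_neg _ _ h, map_zero]
    · rw [hdeg, G.π_big]
      have : (L : ℤ) < k := by exact_mod_cast hk
      have h2 : (L : ℤ) = G.n + S.K + S'.K := by
        rw [hL]
        push_cast
        ring
      have h3 : (0 : ℤ) ≤ S.K := Int.natCast_nonneg _
      have h4 : (0 : ℤ) ≤ S'.K := Int.natCast_nonneg _
      have h5 : (0 : ℤ) ≤ G.n := Int.natCast_nonneg _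
      linarith
  have hrel' : ∀ k, k ≤ 2 * L → ∀ x, ∑ q ∈ antidiagonal k, S'.h q.1 (θ q.2 x) =
      ∑ q ∈ antidiagonal k, θ q.1 (S.h q.2 x) := by
    intro k hk x
    have h := LinearMap.congr_fun (hrel k hk) x
    rw [LinearMap.sub_apply, LinearMap.sum_apply, LinearMap.sum_apply, LinearMap.zero_apply] at h
    exact sub_eq_zero.1 h
  have hΘ : ∀ x, (∑ k ∈ range (L + 1), θ k : Module.End (MonoidAlgebra ℤ Γ) C) x =
      ∑ k ∈ range (L + 1), θ k x := by
    intro x
    rw [LinearMap.sum_apply]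
  refine ⟨(∑ k ∈ range (L + 1), θ k : Module.End (MonoidAlgebra ℤ Γ) C), fun x => ?_,
    fun x => ?_⟩
  · rw [hΘ, map_sum, Finset.sum_eq_single 0]
    · rw [h0]
      rfl
    · intro k _ hk
      have e : θ k x = ∑ i ∈ range (G.n + 1), θ k (G.π (i : ℤ) x) := by
        rw [← map_sum, G.π_sum]
      rw [e, map_sum]
      refine sum_eq_zero fun i _ => ?_
      rw [hdeg]
      exact ms2_επ G _ (by omega) _
    · intro hn
      exact absurd (mem_range.2 (by omega)) hn
  · rw [S'.T_apply_of_le (L := L) (by omega), S.T_apply_of_le (L := L) (by omega), hΘ, hΘ]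
    have e1 : ∑ k ∈ range (L + 1), S'.h k (∑ j ∈ range (L + 1), θ j x) =
        ∑ k ∈ range (L + 1), ∑ j ∈ range (L + 1), S'.h k (θ j x) :=
      sum_congr rfl fun k _ => map_sum _ _ _
    have e2 : ∑ k ∈ range (L + 1), θ k (∑ j ∈ range (L + 1), S.h j x) =
        ∑ k ∈ range (L + 1), ∑ j ∈ range (L + 1), θ k (S.h j x) :=
      sum_congr rfl fun k _ => map_sum _ _ _
    rw [e1, e2, th_sum L (fun i j => S'.h i (θ j x)), th_sum L (fun i j => θ i (S.h j x))]
    · refine sum_congr rfl fun k hk => ?_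
      rw [mem_range] at hk
      exact hrel' k (by omega) x
    · intro i j hij
      change θ i (S.h j x) = 0
      rcases hij with h | h
      · exact hθ0 i h _
      · rw [S.h_out j (by omega), LinearMap.zero_apply, map_zero]
    · intro i j hij
      change S'.h i (θ j x) = 0
      rcases hij with h | h
      · rw [S'.h_out i (by omega), LinearMap.zero_apply]
      · rw [hθ0 j h, map_zero]

end Pool.Agent.Helper39.DB
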