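import Pool.Agent.Helper39.DB.LocM
import Pool.Agent.Helper39.DB.Fam
import Pool.Agent.Helper39.DB.ExH
import Pool.Agent.Helper39.DB.Param
import Pool.Agent.Helper39.DB.Theta
import Pool.Agent.Helper39.DB.ResP

/-!
# DB-18 (project DB): the class of the augmentation is killed by a power of `p`

* `ε_T`: `ε (S.h k x) = 0` for all `k` (`k = 0`: `G.ε_d`; `k ≥ 1`: sum over `G.π_sum`, degree `i + 2 k - 1 ≥ 1`, `G.ε_π_ne`; compare `DSys.ε_h_of_ne` in Basic.lean).
* `claim`: induction on `k`, for all groups of the universe `u`. `k = 0`: `t = z` contradicts the hypothesis. Step `k → k + 1`: put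
  `f x = ε x • p ^ ((k+1) (n+1))` in `M = ZMod (p ^ s)` (killed by `p ^ s`), invariant, `f (S.T x) = 0` by `ε_T`. If `Rt p z` is empty use `loc_empty`.
  Otherwise let `g ^ p = z`, `H = Subgroup.centralizer {g}`; `g ∈ H`, `z ∈ H`, `g' = ⟨g, _⟩` is central in `H`. Over `H`: `Res H C` is projective
  (`res_projective`), `resG H G`, a system `S₁` for `g'` (`exists_hsys`). No `t ∈ H` has `t ^ p ^ k = g'` (else `t ^ p ^ (k+1) = z`), so by induction there is
  `φ` with `φ (S₁.T x) = ε x • p ^ (k (n+1))`. `scale_up` (`m = p`) gives `ψ` with `∑ p ^ j • ψ (S₁.h j x) = p ^ (n+1) • ε x • p ^ (k (n+1))`, i.e. for the system `S₂` for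
  `z` from `root_sys`: `ψ (S₂.T x) = ε x • p ^ ((k+1)(n+1))` (`HSys.T_apply`, `S₂.K = S₁.K`). Let `Θ` be from `compare (resS S _) S₂`; then `φ' = ψ ∘ Θ` has
  `φ' ((resS S _).T x) = ψ (S₂.T (Θ x)) = ε x • p ^ ((k+1)(n+1))`. With `resS_T`, `act_toRes` this is the functional required in `exists_family`
  (`h` commutes with `g` iff `h ∈ H`, `Subgroup.mem_centralizer_singleton_iff`). Then `loc_family`. (The element `⟨z, _⟩` of `H` may come in different
  forms, `g' ^ p = ⟨z, _⟩`; use `root_sys` with `z := ⟨z, hz⟩`.)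
-/

set_option autoImplicit false

namespace Pool.Agent.Helper39.DB

open Finset Pool.Agent.Helper27.Mess
open scoped IsMulCommutative

universe u v

theorem ε_T {Γ : Type u} [Group Γ] {C : Type v} [AddCommGroup C] [Module (MonoidAlgebra ℤ Γ) C]
    {G : GrRes Γ C} {z : Γ} (S : HSys G z) (x : C) : G.ε (S.T x) = 0 := by
  rw [S.T_apply, map_sum]
  refine Finset.sum_eq_zero fun k _ => ?_
  by_cases hk : k = 0
  · rw [hk, S.h_zero, G.ε_d]
  · rw [← G.π_sum x, map_sum, map_sum]
    refine Finset.sum_eq_zero fun i _ => ?_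
    rw [S.h_deg]
    apply G.ε_π_ne
    omega

theorem claim {p : ℕ} (hp : p.Prime) (k : ℕ) : ∀ (Γ : Type u) [Group Γ] (C : Type v)
    [AddCommGroup C] [Module (MonoidAlgebra ℤ Γ) C] [Module.Projective (MonoidAlgebra ℤ Γ) C]
    (G : GrRes Γ C) (z : Γ) (_ : z ∈ Subgroup.center Γ) (S : HSys G z)
    (_ : ∀ t : Γ, t ^ p ^ k ≠ z) (s : ℕ), ∃ φ : C →+ ZMod (p ^ s), Ivt Γ φ ∧
      ∀ x, φ (S.T x) = G.ε x • ((p : ZMod (p ^ s)) ^ (k * (G.n + 1))) := by
  induction k with
  | zero =>
    intro Γ _ C _ _ _ G z hz S ht s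
    exact absurd (by rw [pow_zero, pow_one]) (ht z)
  | succ k ih =>
    intro Γ _ C _ _ _ G z hz S ht s
    have hz' : ∀ g : Γ, g * z = z * g := Subgroup.mem_center_iff.1 hz
    let e : ZMod (p ^ s) := (p : ZMod (p ^ s)) ^ ((k + 1) * (G.n + 1))
    let f : C →+ ZMod (p ^ s) := (zmultiplesHom (ZMod (p ^ s)) e).comp G.ε
    have hfa : ∀ x, f x = G.ε x • e := fun x => rfl
    have hfI : Ivt Γ f := by
      intro g x
      rw [hfa, hfa, G.ε_act]
    have hfT : ∀ x, f (S.T x) = 0 := by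
      intro x
      rw [hfa, ε_T, zero_smul]
    have hM : ∀ m : ZMod (p ^ s), p ^ s • m = 0 := by
      intro m
      rw [nsmul_eq_mul, ZMod.natCast_self, zero_mul]
    by_cases hE : IsEmpty (Rt p z)
    · exact loc_empty G hp hz' S.curv hE s (ZMod (p ^ s)) hM f hfI hfT
    · have hne : Nonempty (Rt p z) := not_isEmpty_iff.1 hE
      have hloc : ∀ g : Γ, g ^ p = z → ∃ φ : C →+ ZMod (p ^ s),
          (∀ h : Γ, h * g = g * h → ∀ x, φ (act h x) = φ x) ∧ ∀ x, φ (S.T x) = f x := by
        intro g hg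
        let H : Subgroup Γ := Subgroup.centralizer {g}
        have hgH : g ∈ H := Subgroup.mem_centralizer_singleton_iff.2 rfl
        have hzH : z ∈ H := Subgroup.mem_centralizer_singleton_iff.2 (hz' g).symm
        have hgc1 : ∀ h : H, h * (⟨g, hgH⟩ : H) = (⟨g, hgH⟩ : H) * h := fun h =>
          Subtype.ext (Subgroup.mem_centralizer_singleton_iff.1 h.2)
        have hgc : (⟨g, hgH⟩ : H) ∈ Subgroup.center H := Subgroup.mem_center_iff.2 hgc1
        have : Module.Projective (MonoidAlgebra ℤ H) (Res H C) := res_projective H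
        obtain ⟨S₁⟩ := exists_hsys (resG H G) hgc
        obtain ⟨φ, hφ1, hφ2⟩ := ih H (Res H C) (resG H G) ⟨g, hgH⟩ hgc S₁ (by
          intro t ht'
          apply ht t.1
          have h1 : (t.1 : Γ) ^ p ^ k = g := congrArg Subtype.val ht'
          rw [pow_succ, pow_mul, h1, hg]) s
        obtain ⟨ψ, hψ1, hψ2⟩ := scale_up S₁ φ hφ1 _ hφ2 (p : ℤ)
        obtain ⟨S₂, hK, hS₂⟩ := root_sys p (z := (⟨z, hzH⟩ : H)) hgc1 (Subtype.ext hg) S₁
        have hψT : ∀ x, ψ (S₂.T x) = (resG H G).ε x • e := by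
          intro x
          rw [S₂.T_apply, map_sum, hK]
          rw [Finset.sum_congr rfl fun j _ => hS₂ (ZMod (p ^ s)) ψ hψ1 j x]
          rw [hψ2 x]
          rw [smul_comm]
          congr 1
          change ((p : ℤ) ^ (G.n + 1)) • ((p : ZMod (p ^ s)) ^ (k * (G.n + 1))) = e
          rw [zsmul_eq_mul]
          push_cast
          rw [← pow_add]
          congr 1
          ring
        obtain ⟨Θ, hΘ1, hΘ2⟩ := compare (resS S hzH) S₂
        refine ⟨(ψ.comp Θ.toAddMonoidHom).comp (toRes H).toAddMonoidHom, ?_, ?_⟩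
        · intro h hh x
          change ψ (Θ (toRes H (act h x))) = ψ (Θ (toRes H x))
          have h1 := act_toRes H ⟨h, Subgroup.mem_centralizer_singleton_iff.2 hh⟩ x
          rw [← h1, map_act, hψ1]
        · intro x
          change ψ (Θ (toRes H (S.T x))) = f x
          rw [← resS_T S hzH, ← hΘ2, hψT, hΘ1]
          rfl
      obtain ⟨F, hF1, hF2⟩ := exists_family (T := S.T) hz' S.curv.equiv f hfI hloc
      exact loc_family G hp hz' S.curv hne s (ZMod (p ^ s)) hM f hfI F hF1 hF2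

end Pool.Agent.Helper39.DB
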