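import Pool.Agent.Helper39.DB.Defs

/-!
# DB-05 (project DB): orbits of the rotation, choice of the idempotents

* `exists_chi`: `τ` generates an action of `ZMod p` (`p` prime) without fixed points, so all orbits
  `{τ^[i] x | i < p}` have `p` elements: `τ^[i] x = x` with `0 < i < p` implies `τ x = x` (`i` is prime to `p`:
  `Function.IsPeriodicPt`, `Function.minimalPeriod τ x ∣ p` and `≠ 1`, so it is `p`). The relation
  `∃ i, τ^[i] x = y` is an equivalence relation (`Setoid`); choose a representative `r` of each class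
  (`Quotient.out`) and put `χ x = 1` if `x` is the representative of its class, `0` otherwise: exactly one
  `i < p` has `τ^[i] x = r`.
* `exists_E`: `Γ` acts on `Y = Fin p → X` freely (`p > 0`), `σ = sgX p z` commutes with `Γ` and
  `σ^[p] x = z⁻¹ • x`. Let `O = MulAction.orbitRel.Quotient Γ Y` and `σ̄` the induced map on `O`, `σ̄^[p] = id`.
  - On `{o // σ̄ o ≠ o}` (stable under `σ̄`) use `exists_chi` to get `χ`, and put `E x = χ [x]` (scalar).
  - If `σ̄ [x] = [x]` then `σ x = η • x` for some `η`, `σ^[i] x = η ^ i • x`, so `η ^ p • x = z⁻¹ • x` and `η ^ p = z⁻¹`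
    (the action is free). For every such orbit `o` fix the representative `x₀ = Quotient.out o`, its
    `η₀` and `E₀` from `hA η₀`; for `x = g • x₀` (`g` unique) put `E x = ρ g * E₀ * ρ g⁻¹`.
    Then `E (g • x) = ρ g * E x * ρ g⁻¹`, and
    `∑_{i<p} E (σ^[i] x₀) = ∑ E (η₀ ^ i • x₀) = ∑ ρ (η₀ ^ i) E₀ ρ (η₀⁻¹ ^ i) = 1`; conjugate for `x = g • x₀`.
-/

set_option autoImplicit false

namespace Pool.Agent.Helper39.DB

open Finset Pool.Agent.Helper27.Mess
open scoped IsMulCommutative

/-- the version with fixed points allowed -/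
theorem exists_chi' {p : ℕ} (hp : p.Prime) {X : Type*} (τ : X → X) (hτ : ∀ x, τ^[p] x = x) :
    ∃ χ : X → ℤ, ∀ x, τ x ≠ x → ∑ i ∈ range p, χ (τ^[i] x) = 1 := by
  classical
  have hmul : ∀ (k : ℕ) (x : X), τ^[k * p] x = x := by
    intro k x
    induction k with
    | zero => rw [Nat.zero_mul]; rfl
    | succ k ih => rw [Nat.succ_mul, Function.iterate_add_apply, hτ, ih]
  have hmod : ∀ (i : ℕ) (x : X), τ^[i % p] x = τ^[i] x := by
    intro i x
    conv_rhs => rw [← Nat.mod_add_div' i p, Function.iterate_add_apply, hmul]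
  let S : Setoid X :=
    { r := fun x y => ∃ i, τ^[i] x = y
      iseqv :=
        { refl := fun x => ⟨0, rfl⟩
          symm := by
            rintro x y ⟨i, hi⟩
            refine ⟨i * p - i, ?_⟩
            rw [← hi, ← Function.iterate_add_apply, Nat.sub_add_cancel, hmul]
            exact Nat.le_mul_of_pos_right i hp.pos
          trans := by
            rintro x y w ⟨i, hi⟩ ⟨j, hj⟩
            refine ⟨j + i, ?_⟩
            rw [Function.iterate_add_apply, hi, hj] } }
  refine ⟨fun x => if (Quotient.mk S x).out = x then 1 else 0, fun x hx => ?_⟩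
  have hcl : ∀ i, Quotient.mk S (τ^[i] x) = Quotient.mk S x := by
    intro i
    apply Quotient.sound
    exact S.symm ⟨i, rfl⟩
  have hr : ∃ i, τ^[i] x = (Quotient.mk S x).out := by
    have h := Quotient.exact (Quotient.out_eq (Quotient.mk S x))
    exact S.symm h
  obtain ⟨i0, hi0⟩ := hr
  have huniq : ∀ i j, i < j → j < p → τ^[i] x = τ^[j] x → False := by
    intro i j hij hj h
    apply hx
    have h1 : Function.IsPeriodicPt τ (j - i) (τ^[i] x) := by
      change τ^[j - i] (τ^[i] x) = τ^[i] x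
      rw [← Function.iterate_add_apply, Nat.sub_add_cancel hij.le, h]
    have h2 : Function.IsPeriodicPt τ p (τ^[i] x) := hτ _
    have h3 := h1.gcd h2
    have h4 : Nat.gcd (j - i) p = 1 := by
      rw [Nat.gcd_comm]
      exact (hp.coprime_iff_not_dvd).2 (fun hd => by
        have := Nat.le_of_dvd (by omega) hd
        omega)
    rw [h4] at h3
    have h5 : ∀ k, τ^[k] (τ^[i] x) = τ^[i] x := by
      intro k
      have := h3.const_mul k
      rw [mul_one] at this
      exact this
    have h6 : x = τ^[i] x := by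
      have := h5 (p - i)
      rw [← Function.iterate_add_apply, Nat.sub_add_cancel (by omega), hτ] at this
      exact this
    have h7 : τ (τ^[i] x) = τ^[i] x := h3
    rw [← h6] at h7
    exact h7
  have hi1 : i0 % p < p := Nat.mod_lt _ hp.pos
  rw [Finset.sum_eq_single (i0 % p)]
  · apply if_pos
    rw [hcl, hmod, hi0]
  · intro j hj hne
    apply if_neg
    intro h
    rw [hcl, ← hi0, ← hmod] at h
    have hj' := Finset.mem_range.1 hj
    rcases lt_or_gt_of_ne hne with h' | h'
    · exact huniq _ _ h' hi1 h.symm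
    · exact huniq _ _ h' hj' h
  · intro h
    exact absurd (Finset.mem_range.2 hi1) h

/-- a map with `τ^p = 1` without fixed points, `p` prime, has a set of representatives -/
theorem exists_chi {p : ℕ} (hp : p.Prime) {X : Type*} (τ : X → X) (hτ : ∀ x, τ^[p] x = x)
    (hf : ∀ x, τ x ≠ x) : ∃ χ : X → ℤ, ∀ x, ∑ i ∈ range p, χ (τ^[i] x) = 1 := by
  obtain ⟨χ, h⟩ := exists_chi' hp τ hτ
  exact ⟨χ, fun x => h x (hf x)⟩

variable {Γ : Type*} [Group Γ] {A : Type*} [AddCommGroup A]

/-- the twisted rotation of tuples of elements of a `Γ`-set -/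
def sgX (p : ℕ) (z : Γ) {X : Type*} [MulAction Γ X] (x : Fin p → X) (i : Fin p) : X :=
  if h : (i : ℕ) + 1 < p then x ⟨i + 1, h⟩
    else z⁻¹ • x ⟨0, Nat.lt_of_le_of_lt (Nat.zero_le _) i.2⟩

theorem sgX_iter (p : ℕ) (z : Γ) {X : Type*} [MulAction Γ X] (x : Fin p → X) (i : ℕ) (hi : i ≤ p)
    (j : Fin p) : (sgX p z)^[i] x j = if h : (j : ℕ) + i < p then x ⟨j + i, h⟩
      else z⁻¹ • x ⟨j + i - p, by have := j.2; omega⟩ := by
  induction i generalizing j with
  | zero =>
    have h : (j : ℕ) + 0 < p := j.2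
    rw [dif_pos h]
    rfl
  | succ i ih =>
    rw [Function.iterate_succ_apply']
    unfold sgX
    by_cases hj : (j : ℕ) + 1 < p
    · rw [dif_pos hj]
      have h1 := ih (by omega) ⟨j + 1, hj⟩
      unfold sgX at h1
      rw [h1]
      by_cases h2 : (j : ℕ) + (i + 1) < p
      · rw [dif_pos h2, dif_pos (show ((⟨j + 1, hj⟩ : Fin p) : ℕ) + i < p by
          simp only
          omega)]
        congr 1
        apply Fin.ext
        simp only
        omega
      · rw [dif_neg h2, dif_neg (show ¬ ((⟨j + 1, hj⟩ : Fin p) : ℕ) + i < p by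
          simp only
          omega)]
        congr 2
        apply Fin.ext
        simp only
        omega
    · rw [dif_neg hj]
      have hp : 0 < p := by omega
      have h1 := ih (by omega) ⟨0, hp⟩
      unfold sgX at h1
      rw [h1, dif_pos (show ((⟨0, hp⟩ : Fin p) : ℕ) + i < p by
        simp only
        omega), dif_neg (show ¬ (j : ℕ) + (i + 1) < p by omega)]
      congr 2
      apply Fin.ext
      simp only
      have := j.2
      omega

theorem sgX_p (p : ℕ) (z : Γ) {X : Type*} [MulAction Γ X] (x : Fin p → X) :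
    (sgX p z)^[p] x = z⁻¹ • x := by
  funext j
  rw [sgX_iter p z x p le_rfl j, dif_neg (by omega), Pi.smul_apply]
  congr 2
  apply Fin.ext
  simp only
  omega

theorem sgX_smul {p : ℕ} {z : Γ} (hz : ∀ g : Γ, g * z = z * g) {X : Type*} [MulAction Γ X] (g : Γ)
    (x : Fin p → X) : sgX p z (g • x) = g • sgX p z x := by
  have hz' : z⁻¹ * g = g * z⁻¹ := by
    have h : Commute g z := hz g
    exact (h.inv_right).symm
  funext j
  rw [Pi.smul_apply]
  unfold sgX
  by_cases h : (j : ℕ) + 1 < p
  · rw [dif_pos h, dif_pos h, Pi.smul_apply]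
  · rw [dif_neg h, dif_neg h, Pi.smul_apply, smul_smul, smul_smul, hz']

theorem sgX_iter_smul {p : ℕ} {z : Γ} (hz : ∀ g : Γ, g * z = z * g) {X : Type*} [MulAction Γ X]
    (g : Γ) (x : Fin p → X) (i : ℕ) : (sgX p z)^[i] (g • x) = g • (sgX p z)^[i] x := by
  induction i with
  | zero => rfl
  | succ i ih => rw [Function.iterate_succ_apply', ih, sgX_smul hz, Function.iterate_succ_apply']

theorem exists_E {p : ℕ} (hp : p.Prime) {z : Γ} (hz : ∀ g : Γ, g * z = z * g)
    {ρ : Γ →* AddMonoid.End A} (hA : HA p z ρ) {X : Type*} [MulAction Γ X]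
    (hfree : ∀ (g : Γ) (x : X), g • x = x → g = 1) :
    ∃ E : (Fin p → X) → AddMonoid.End A,
      (∀ (g : Γ) (x : Fin p → X) (a : A), E (fun i => g • x i) a = ρ g (E x (ρ g⁻¹ a))) ∧
      ∀ (x : Fin p → X) (a : A), ∑ i ∈ range p, E ((sgX p z)^[i] x) a = a := by
  classical
  have hfr : ∀ (g : Γ) (x : Fin p → X), g • x = x → g = 1 := by
    intro g x h
    exact hfree g (x ⟨0, hp.pos⟩) (congrFun h ⟨0, hp.pos⟩)
  have hfr2 : ∀ (g h : Γ) (x : Fin p → X), g • x = h • x → g = h := by
    intro g h x hx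
    have : (h⁻¹ * g) • x = x := by
      rw [← smul_smul, hx, inv_smul_smul]
    have h2 := hfr _ _ this
    rwa [inv_mul_eq_one, eq_comm] at h2
  let S : Setoid (Fin p → X) := MulAction.orbitRel Γ (Fin p → X)
  have hS : ∀ x y : Fin p → X, Quotient.mk S x = Quotient.mk S y ↔ ∃ g : Γ, g • y = x := by
    intro x y
    rw [Quotient.eq]
    exact Iff.rfl
  let q : (Fin p → X) → Quotient S := fun x => Quotient.mk S x
  have hqg : ∀ (g : Γ) (x : Fin p → X), q (g • x) = q x := fun g x => (hS _ _).2 ⟨g, rfl⟩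
  let σ : (Fin p → X) → (Fin p → X) := sgX p z
  let σb : Quotient S → Quotient S := Quotient.lift (fun x => q (σ x)) (by
    intro x y hxy
    obtain ⟨g, hg⟩ := (hS x y).1 (Quotient.sound hxy)
    rw [← hg]
    change q (sgX p z (g • y)) = _
    rw [sgX_smul hz, hqg])
  have hσb : ∀ x, σb (q x) = q (σ x) := fun x => rfl
  have hσbi : ∀ (i : ℕ) (x : Fin p → X), σb^[i] (q x) = q (σ^[i] x) := by
    intro i x
    induction i with
    | zero => rfl
    | succ i ih => rw [Function.iterate_succ_apply', ih, hσb, Function.iterate_succ_apply']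
  have hσp : ∀ o, σb^[p] o = o := by
    intro o
    obtain ⟨x, rfl⟩ := Quotient.exists_rep o
    change σb^[p] (q x) = q x
    rw [hσbi]
    change q ((sgX p z)^[p] x) = q x
    rw [sgX_p, hqg]
  obtain ⟨χ, hχ⟩ := exists_chi' hp σb hσp
  have hE0 : ∀ o : Quotient S, ∃ E0 : AddMonoid.End A, ∀ η : Γ, σ o.out = η • o.out →
      ∀ a : A, ∑ i ∈ range p, ρ (η ^ i) (E0 (ρ (η⁻¹ ^ i) a)) = a := by
    intro o
    by_cases h : ∃ η : Γ, σ o.out = η • o.out
    · obtain ⟨η, hη⟩ := h
      have hit : ∀ i, σ^[i] o.out = (η ^ i) • o.out := by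
        intro i
        induction i with
        | zero => rw [pow_zero, one_smul]; rfl
        | succ i ih =>
          rw [Function.iterate_succ_apply', ih, pow_succ, ← smul_smul, ← hη]
          exact sgX_smul hz _ _
      have hηp : η ^ p = z⁻¹ := by
        apply hfr2 _ _ o.out
        rw [← hit, ← sgX_p p z]
      obtain ⟨E0, h0⟩ := hA η hηp
      refine ⟨E0, fun η' hη' => ?_⟩
      have : η' = η := hfr2 _ _ o.out (by rw [← hη', hη])
      rw [this]
      exact h0
    · exact ⟨0, fun η hη => absurd ⟨η, hη⟩ h⟩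
  choose E0 hE0 using hE0
  have hG : ∀ x : Fin p → X, ∃ g : Γ, g • (q x).out = x := by
    intro x
    exact (hS x (q x).out).1 (Quotient.out_eq (q x)).symm
  choose G hG using hG
  have hGu : ∀ (x : Fin p → X) (g : Γ), g • (q x).out = x → G x = g := by
    intro x g h
    exact hfr2 _ _ _ ((hG x).trans h.symm)
  have hGg : ∀ (g : Γ) (x : Fin p → X), G (g • x) = g * G x := by
    intro g x
    apply hGu
    rw [hqg, ← smul_smul, hG]
  refine ⟨fun x => if σb (q x) = q x then ρ (G x) * E0 (q x) * ρ (G x)⁻¹ else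
    χ (q x) • (1 : AddMonoid.End A), ?_, ?_⟩
  · intro g x a
    change (if σb (q (g • x)) = q (g • x) then ρ (G (g • x)) * E0 (q (g • x)) * ρ (G (g • x))⁻¹ else
      χ (q (g • x)) • (1 : AddMonoid.End A)) a = _
    rw [hqg, hGg]
    by_cases h : σb (q x) = q x
    · simp only [if_pos h]
      rw [mul_inv_rev, map_mul, map_mul]
      rfl
    · simp only [if_neg h]
      change χ (q x) • a = ρ g (χ (q x) • ρ g⁻¹ a)
      rw [map_zsmul]
      congr 1
      change a = (ρ g * ρ g⁻¹) a
      rw [← map_mul, mul_inv_cancel, map_one]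
      rfl
  · intro x a
    change ∑ i ∈ range p, (if σb (q (σ^[i] x)) = q (σ^[i] x) then
      ρ (G (σ^[i] x)) * E0 (q (σ^[i] x)) * ρ (G (σ^[i] x))⁻¹ else
      χ (q (σ^[i] x)) • (1 : AddMonoid.End A)) a = a
    by_cases h : σb (q x) = q x
    · have hfix : ∀ i, q (σ^[i] x) = q x := by
        intro i
        rw [← hσbi]
        exact Function.iterate_fixed h i
      have hx0 : σb (q (q x).out) = q (q x).out := by
        have : q (q x).out = q x := Quotient.out_eq (q x)
        rw [this]
        exact h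
      obtain ⟨η, hη⟩ : ∃ η : Γ, σ (q x).out = η • (q x).out := by
        obtain ⟨g, hg⟩ := (hS _ _).1 hx0
        exact ⟨g, hg.symm⟩
      have hit : ∀ i, σ^[i] (q x).out = (η ^ i) • (q x).out := by
        intro i
        induction i with
        | zero => rw [pow_zero, one_smul]; rfl
        | succ i ih =>
          rw [Function.iterate_succ_apply', ih, pow_succ, ← smul_smul, ← hη]
          exact sgX_smul hz _ _
      have hGi : ∀ i, G (σ^[i] x) = G x * η ^ i := by
        intro i
        apply hGu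
        rw [hfix, ← smul_smul, ← hit]
        conv_rhs => rw [← hG x]
        exact (sgX_iter_smul hz _ _ _).symm
      have hterm : ∀ i ∈ range p, (if σb (q (σ^[i] x)) = q (σ^[i] x) then
          ρ (G (σ^[i] x)) * E0 (q (σ^[i] x)) * ρ (G (σ^[i] x))⁻¹ else
          χ (q (σ^[i] x)) • (1 : AddMonoid.End A)) a =
          ρ (G x) (ρ (η ^ i) (E0 (q x) (ρ (η⁻¹ ^ i) (ρ (G x)⁻¹ a)))) := by
        intro i _
        rw [hfix, if_pos h, hGi, mul_inv_rev, map_mul, map_mul, inv_pow]
        rfl
      rw [Finset.sum_congr rfl hterm, ← map_sum, hE0 (q x) η hη]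
      change (ρ (G x) * ρ (G x)⁻¹) a = a
      rw [← map_mul, mul_inv_cancel, map_one]
      rfl
    · have hne : ∀ i ∈ range p, ¬ (σb (q (σ^[i] x)) = q (σ^[i] x)) := by
        intro i hi hfix
        apply h
        have hi' := Finset.mem_range.1 hi
        have h5 : σb^[p - i] (q (σ^[i] x)) = q (σ^[i] x) := Function.iterate_fixed hfix _
        rw [← hσbi, ← Function.iterate_add_apply, Nat.sub_add_cancel hi'.le, hσp] at h5
        have h6 := hfix
        rw [← hσbi, ← h5] at h6
        exact h6
      have hterm : ∀ i ∈ range p, (if σb (q (σ^[i] x)) = q (σ^[i] x) then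
          ρ (G (σ^[i] x)) * E0 (q (σ^[i] x)) * ρ (G (σ^[i] x))⁻¹ else
          χ (q (σ^[i] x)) • (1 : AddMonoid.End A)) a = χ (σb^[i] (q x)) • a := by
        intro i hi
        rw [if_neg (hne i hi), ← hσbi]
        rfl
      rw [Finset.sum_congr rfl hterm, ← Finset.sum_smul, hχ (q x) h, one_smul]

end Pool.Agent.Helper39.DB
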