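import Pool.Agent.Helper39.DB.Defs2
import Pool.Agent.Helper39.DB.Orbit

/-!
# DB-12 (project DB): the coefficients `CQ p z M`

* `rR_z`, `rQ_z`: conjugation by the central `z` is trivial.
* `CQ_tors`: obvious.
* `HA_CQ`: let `γ ^ p = z⁻¹`; `s₀ = γ⁻¹` is a `p`-th root of `z`. Conjugation `κ s = γ⁻¹ s γ` (`cj hz γ`) on `Rt p z` has `κ^[p] = id`
  (`γ ^ p` is central), `κ s₀ = s₀`, and if `κ s = s` then `s` commutes with `γ`, `(s γ) ^ p = z z⁻¹ = 1`, so `s γ = 1` (`htf`) and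
  `s = s₀`. So `κ` has no fixed points on `{s // s ≠ s₀}`; let `χ` be the function of `exists_chi`, extended by `χ s₀ = 0`.
  `E : CQ → CQ` is induced by `E' f s = χ s • (f s - f s₀)` (it kills the constants). `rR γ^i f s = f (κ^[i] s)`.
  `(rR (γ ^ i) (E' (rR (γ⁻¹ ^ i) f))) s = χ (κ^[i] s) • (f s - f s₀)` (`κ^[i] s₀ = s₀`), and the sum over `i < p` is
  `f s - f s₀` for `s ≠ s₀`, also for `s = s₀`: this is `f` modulo constants.
* `HA_empty`: if `Rt p z` is empty, `HA p z ρ` holds for all `ρ` (`γ⁻¹` would be a root).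
-/

set_option autoImplicit false

namespace Pool.Agent.Helper39.DB

open Finset Pool.Agent.Helper27.Mess
open scoped IsMulCommutative

variable {Γ : Type*} [Group Γ] {p : ℕ} {z : Γ} (M : Type*) [AddCommGroup M]

theorem cj_val (hz : ∀ g : Γ, g * z = z * g) (γ : Γ) (s : Rt p z) :
    (cj hz γ s).1 = γ⁻¹ * s.1 * γ := rfl

theorem cj_iter (hz : ∀ g : Γ, g * z = z * g) (γ : Γ) (s : Rt p z) (i : ℕ) :
    (cj hz γ)^[i] s = cj hz (γ ^ i) s := by
  induction i with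
  | zero =>
    apply Subtype.ext
    change s.1 = (γ ^ 0)⁻¹ * s.1 * γ ^ 0
    rw [pow_zero, inv_one, one_mul, mul_one]
  | succ i ih =>
    rw [Function.iterate_succ_apply', ih]
    apply Subtype.ext
    change γ⁻¹ * ((γ ^ i)⁻¹ * s.1 * γ ^ i) * γ = (γ ^ (i + 1))⁻¹ * s.1 * γ ^ (i + 1)
    rw [pow_succ, mul_inv_rev]
    simp only [mul_assoc]

theorem cj_inv_cj (hz : ∀ g : Γ, g * z = z * g) (γ : Γ) (s : Rt p z) (i : ℕ) :
    cj hz (γ⁻¹ ^ i) (cj hz (γ ^ i) s) = s := by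
  apply Subtype.ext
  change (γ⁻¹ ^ i)⁻¹ * ((γ ^ i)⁻¹ * s.1 * γ ^ i) * γ⁻¹ ^ i = s.1
  rw [inv_pow, inv_inv]
  group

theorem rR_z (hz : ∀ g : Γ, g * z = z * g) : rR (p := p) M hz z = 1 := by
  apply AddMonoidHom.ext
  intro f
  funext s
  change f (cj hz z s) = f s
  congr 1
  apply Subtype.ext
  change z⁻¹ * s.1 * z = s.1
  rw [mul_assoc, hz s.1, inv_mul_cancel_left]

theorem rQ_z (hz : ∀ g : Γ, g * z = z * g) : rQ (p := p) M hz z = 1 := by
  apply AddMonoidHom.ext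
  intro x
  obtain ⟨f, rfl⟩ := QuotientAddGroup.mk_surjective x
  change ((rR (p := p) M hz z f : CF p z M) : CQ p z M) = (f : CQ p z M)
  rw [rR_z]
  rfl

theorem CQ_tors {n : ℕ} (hM : ∀ m : M, n • m = 0) (a : CQ p z M) : n • a = 0 := by
  obtain ⟨f, rfl⟩ := QuotientAddGroup.mk_surjective a
  have h : n • f = 0 := by
    funext s
    exact hM (f s)
  change ((n • f : CF p z M) : CQ p z M) = 0
  rw [h]
  rfl

theorem HA_CQ (hp : p.Prime) (htf : ∀ (t : Γ) (q : ℕ), 0 < q → t ^ q = 1 → t = 1)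
    (hz : ∀ g : Γ, g * z = z * g) : HA p z (rQ (p := p) M hz) := by
  classical
  intro γ hγ
  have hs0 : γ⁻¹ ^ p = z := by rw [inv_pow, hγ, inv_inv]
  let s₀ : Rt p z := ⟨γ⁻¹, hs0⟩
  have hfix : ∀ i : ℕ, cj hz (γ⁻¹ ^ i) s₀ = s₀ := by
    intro i
    apply Subtype.ext
    change (γ⁻¹ ^ i)⁻¹ * γ⁻¹ * γ⁻¹ ^ i = γ⁻¹
    rw [mul_assoc, ← pow_succ', pow_succ, inv_mul_cancel_left]
  have hfix' : ∀ i : ℕ, cj hz (γ ^ i) s₀ = s₀ := by
    intro i
    have h1 := cj_inv_cj (p := p) hz γ⁻¹ s₀ i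
    rw [inv_inv, hfix i] at h1
    exact h1
  have hper : ∀ s : Rt p z, (cj hz γ)^[p] s = s := by
    intro s
    rw [cj_iter]
    apply Subtype.ext
    change (γ ^ p)⁻¹ * s.1 * γ ^ p = s.1
    rw [hγ, inv_inv, ← hz, mul_assoc, mul_inv_cancel, mul_one]
  have hκ0 : cj hz γ s₀ = s₀ := by
    have h1 := hfix' 1
    rwa [pow_one] at h1
  have hinj : Function.Injective (cj (p := p) hz γ) := by
    intro a b hab
    have h1 : γ⁻¹ * a.1 * γ = γ⁻¹ * b.1 * γ := congrArg Subtype.val hab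
    apply Subtype.ext
    exact mul_left_cancel (mul_right_cancel h1)
  have hne : ∀ s : Rt p z, s ≠ s₀ → cj hz γ s ≠ s₀ := by
    intro s hs h1
    apply hs
    apply hinj
    rw [h1, hκ0]
  let τ : {s : Rt p z // s ≠ s₀} → {s : Rt p z // s ≠ s₀} := fun s => ⟨cj hz γ s.1, hne s.1 s.2⟩
  have hτi : ∀ (i : ℕ) (s : {s : Rt p z // s ≠ s₀}), (τ^[i] s).1 = (cj hz γ)^[i] s.1 := by
    intro i
    induction i with
    | zero => intro s; rfl
    | succ i ih =>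
      intro s
      rw [Function.iterate_succ_apply, Function.iterate_succ_apply, ih]
  have hτp : ∀ s, τ^[p] s = s := fun s => Subtype.ext (by rw [hτi, hper])
  have hτf : ∀ s, τ s ≠ s := by
    intro s hs
    have h1 : cj hz γ s.1 = s.1 := congrArg Subtype.val hs
    have h2 : γ⁻¹ * s.1.1 * γ = s.1.1 := congrArg Subtype.val h1
    have h3 : s.1.1 * γ = γ * s.1.1 := by
      have h30 : s.1.1 * γ = γ * (γ⁻¹ * s.1.1 * γ) := by group
      rw [h30, h2]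
    apply s.2
    apply Subtype.ext
    change s.1.1 = γ⁻¹
    refine eq_inv_of_mul_eq_one_left ?_
    refine htf _ p hp.pos ?_
    rw [Commute.mul_pow h3, s.1.2, hγ, mul_inv_cancel]
  obtain ⟨χ, hχ⟩ := exists_chi hp τ hτp hτf
  let χ' : Rt p z → ℤ := fun s => if h : s ≠ s₀ then χ ⟨s, h⟩ else 0
  have hχ0 : χ' s₀ = 0 := dif_neg (fun h => h rfl)
  have hχ1 : ∀ s : Rt p z, s ≠ s₀ → ∑ i ∈ range p, χ' (cj hz (γ ^ i) s) = 1 := by
    intro s hs
    rw [← hχ ⟨s, hs⟩]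
    refine Finset.sum_congr rfl fun i _ => ?_
    have h1 := hτi i ⟨s, hs⟩
    rw [cj_iter] at h1
    change _ = cj hz (γ ^ i) s at h1
    rw [← h1]
    exact dif_pos (τ^[i] ⟨s, hs⟩).2
  let E' : CF p z M →+ CF p z M :=
    { toFun := fun f s => χ' s • (f s - f s₀)
      map_zero' := by
        funext s
        simp
      map_add' := by
        intro f g
        funext s
        change χ' s • ((f s + g s) - (f s₀ + g s₀)) = χ' s • (f s - f s₀) + χ' s • (g s - g s₀)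
        rw [← smul_add]
        congr 1
        abel }
  have hE'a : ∀ f s, E' f s = χ' s • (f s - f s₀) := fun _ _ => rfl
  have hE' : cns p z M ≤ (cns p z M).comap E' := by
    rintro f ⟨m, hm⟩
    refine ⟨0, fun s => ?_⟩
    rw [hE'a, hm, hm, sub_self, smul_zero]
  refine ⟨QuotientAddGroup.map _ _ E' hE', ?_⟩
  intro a
  obtain ⟨f, rfl⟩ := QuotientAddGroup.mk_surjective a
  have h4 : ∀ i : ℕ, rQ M hz (γ ^ i) ((QuotientAddGroup.map _ _ E' hE' : CQ p z M →+ CQ p z M)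
      (rQ M hz (γ⁻¹ ^ i) (f : CQ p z M))) =
      ((rR M hz (γ ^ i) (E' (rR M hz (γ⁻¹ ^ i) f)) : CF p z M) : CQ p z M) := fun _ => rfl
  have h5 : ∀ s, (∑ i ∈ range p, rR M hz (γ ^ i) (E' (rR M hz (γ⁻¹ ^ i) f))) s = f s - f s₀ := by
    intro s
    rw [Finset.sum_apply]
    have h6 : ∀ i ∈ range p, (rR M hz (γ ^ i) (E' (rR M hz (γ⁻¹ ^ i) f))) s =
        χ' (cj hz (γ ^ i) s) • (f s - f s₀) := by
      intro i _
      rw [rR_apply, hE'a, rR_apply, rR_apply, cj_inv_cj, hfix]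
    rw [Finset.sum_congr rfl h6, ← Finset.sum_smul]
    by_cases hs : s = s₀
    · rw [hs, sub_self, smul_zero]
    · rw [hχ1 s hs, one_smul]
  have h7 : ∑ i ∈ range p, rQ M hz (γ ^ i) ((QuotientAddGroup.map _ _ E' hE' : CQ p z M →+ CQ p z M)
      (rQ M hz (γ⁻¹ ^ i) (f : CQ p z M))) =
      ((∑ i ∈ range p, rR M hz (γ ^ i) (E' (rR M hz (γ⁻¹ ^ i) f)) : CF p z M) : CQ p z M) := by
    rw [Finset.sum_congr rfl fun i _ => h4 i]
    exact (map_sum (QuotientAddGroup.mk' (cns p z M)) _ _).symm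
  refine h7.trans ?_
  rw [QuotientAddGroup.eq]
  refine ⟨f s₀, fun s => ?_⟩
  rw [Pi.add_apply, Pi.neg_apply, h5 s]
  abel

theorem HA_empty {A : Type*} [AddCommGroup A] (h : IsEmpty (Rt p z)) (ρ : Γ →* AddMonoid.End A) :
    HA p z ρ := by
  intro γ hγ
  exact (h.false ⟨γ⁻¹, by rw [inv_pow, hγ, inv_inv]⟩).elim

end Pool.Agent.Helper39.DB
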