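import Pool.Agent.Helper39.DB.Defs

/-!
# DB-04 (project DB): multiadditive maps, the rotation and the filtration

* `sg_iter`: induction on `i` (`Function.iterate_succ_apply'`), case distinctions; `sg p z τ v j` is
  `v (j + 1)` or `τ z⁻¹ (v 0)` for `j = p - 1`. `sg_p`: the case `i = p`.
* `sg_act`: `τ` commutes with `τ z⁻¹` as `z` is central.
* `cU_pow_apply`: `cU p z τ φ v = φ (sg p z τ v)`; induction (`pow_succ`, `Function.iterate_succ_apply`).
* `rot_cU`: `comm` by `sg_act`; `pow`: `φ (fun i => τ z⁻¹ (v i))` and `ρ z = 1`.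
* `cnt_sg`: `v 0 ∈ K ↔ τ z⁻¹ (v 0) ∈ K` (`K` is stable under `τ z⁻¹` and `τ z`); reindex with the bijection `rotE p`.
* `stb_Fil`: `cnt` is invariant under `v ↦ τ g⁻¹ ∘ v` and `sg`.
* `cnt_le`: at most `p` indices. `Fil_top`, `Fil_bot`, `Fil_mono`.
-/

set_option autoImplicit false

namespace Pool.Agent.Helper39.DB

open Finset Pool.Agent.Helper27.Mess
open scoped IsMulCommutative

variable {Γ : Type*} [Group Γ] {F : Type*} {A : Type*} [AddCommGroup F] [AddCommGroup A] {p : ℕ}
  {z : Γ} {τ : Γ →* AddMonoid.End F} {ρ : Γ →* AddMonoid.End A}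

theorem sg_iter (z : Γ) (τ : Γ →* AddMonoid.End F) (v : Fin p → F) (i : ℕ) (hi : i ≤ p)
    (j : Fin p) : (sg p z τ)^[i] v j = if h : (j : ℕ) + i < p then v ⟨j + i, h⟩
      else τ z⁻¹ (v ⟨j + i - p, by have := j.2; omega⟩) := by
  induction i generalizing j with
  | zero =>
    have h : (j : ℕ) + 0 < p := j.2
    rw [dif_pos h]
    rfl
  | succ i ih =>
    rw [Function.iterate_succ_apply']
    unfold sg
    by_cases hj : (j : ℕ) + 1 < p
    · rw [dif_pos hj]
      have h1 := ih (by omega) ⟨j + 1, hj⟩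
      unfold sg at h1
      rw [h1]
      by_cases h2 : (j : ℕ) + (i + 1) < p
      · rw [dif_pos h2, dif_pos (show ((⟨j + 1, hj⟩ : Fin p) : ℕ) + i < p by
          simp only
          omega)]
        congr 1
        apply Fin.ext
        simp only
        omega
      · rw [dif_neg h2, dif_neg (show ¬ ((⟨j + 1, hj⟩ : Fin p) : ℕ) + i < p by
          simp only
          omega)]
        congr 2
        apply Fin.ext
        simp only
        omega
    · rw [dif_neg hj]
      have hp : 0 < p := by omega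
      have h1 := ih (by omega) ⟨0, hp⟩
      unfold sg at h1
      rw [h1, dif_pos (show ((⟨0, hp⟩ : Fin p) : ℕ) + i < p by
        simp only
        omega), dif_neg (show ¬ (j : ℕ) + (i + 1) < p by omega)]
      congr 2
      apply Fin.ext
      simp only
      have := j.2
      omega

theorem sg_p (z : Γ) (τ : Γ →* AddMonoid.End F) (v : Fin p → F) :
    (sg p z τ)^[p] v = fun j => τ z⁻¹ (v j) := by
  funext j
  rw [sg_iter z τ v p le_rfl j, dif_neg (by omega)]
  congr 2
  apply Fin.ext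
  simp only
  omega

theorem sg_act (hz : ∀ g : Γ, g * z = z * g) (g : Γ) (v : Fin p → F) :
    sg p z τ (fun i => τ g (v i)) = fun i => τ g (sg p z τ v i) := by
  have hz' : z⁻¹ * g = g * z⁻¹ := by
    rw [inv_mul_eq_iff_eq_mul, ← mul_assoc, ← hz g, mul_assoc, mul_inv_cancel, mul_one]
  funext i
  unfold sg
  split_ifs with h
  · rfl
  · show (τ z⁻¹ * τ g) _ = (τ g * τ z⁻¹) _
    rw [← map_mul, ← map_mul, hz']

theorem sg_iter_act (hz : ∀ g : Γ, g * z = z * g) (g : Γ) (v : Fin p → F) (i : ℕ) :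
    (sg p z τ)^[i] (fun i => τ g (v i)) = fun j => τ g ((sg p z τ)^[i] v j) := by
  induction i with
  | zero => rfl
  | succ i ih =>
    rw [Function.iterate_succ_apply', ih, sg_act hz, Function.iterate_succ_apply']

theorem cU_pow_apply (z : Γ) (τ : Γ →* AddMonoid.End F) (i : ℕ) (φ : MM p F A) (v : Fin p → F) :
    ((cU p z τ : AddMonoid.End (MM p F A)) ^ i) φ v = φ ((sg p z τ)^[i] v) := by
  induction i generalizing φ with
  | zero => rfl
  | succ i ih =>
    rw [pow_succ]
    change ((cU p z τ : AddMonoid.End (MM p F A)) ^ i) (cU p z τ φ) v = _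
    rw [ih, cU_apply, Function.iterate_succ_apply']

theorem rot_cU (hz : ∀ g : Γ, g * z = z * g) (hρ : ρ z = 1) :
    Rot p z (rU p τ ρ) (cU p z τ) := by
  constructor
  · intro g u
    apply MultilinearMap.ext
    intro v
    rw [cU_apply, rU_apply, rU_apply, cU_apply, sg_act hz]
  · intro u
    apply MultilinearMap.ext
    intro v
    rw [cU_pow_apply, sg_p, rU_apply, hρ]
    rfl

theorem cnt_act {K : AddSubgroup F} (hK : ∀ (g : Γ), ∀ v ∈ K, τ g v ∈ K) (g : Γ)
    (v : Fin p → F) : cnt K (fun i => τ g (v i)) = cnt K v := by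
  classical
  unfold cnt
  refine congrArg card ?_
  ext i
  rw [mem_filter, mem_filter]
  refine and_congr_right fun _ => ?_
  constructor
  · intro h
    have h1 := hK g⁻¹ _ h
    have h2 : τ g⁻¹ (τ g (v i)) = v i := by
      show (τ g⁻¹ * τ g) (v i) = v i
      rw [← map_mul, inv_mul_cancel, map_one]
      rfl
    rwa [h2] at h1
  · exact hK g _

theorem cnt_sg {K : AddSubgroup F} (hK : ∀ (g : Γ), ∀ v ∈ K, τ g v ∈ K) (v : Fin p → F) :
    cnt K (sg p z τ v) = cnt K v := by
  have hinv : ∀ x : F, τ z⁻¹ x ∈ K ↔ x ∈ K := by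
    intro x
    constructor
    · intro h
      have h1 := hK z _ h
      have h2 : τ z (τ z⁻¹ x) = x := by
        show (τ z * τ z⁻¹) x = x
        rw [← map_mul, mul_inv_cancel, map_one]
        rfl
      rwa [h2] at h1
    · exact hK z⁻¹ _
  have hmem : ∀ i : Fin p, sg p z τ v i ∈ K ↔ v (rotE p i) ∈ K := by
    intro i
    have h := rotE_val p i
    unfold sg
    by_cases h1 : (i : ℕ) + 1 < p
    · rw [if_pos h1] at h
      rw [dif_pos h1]
      have h2 : rotE p i = ⟨i + 1, h1⟩ := Fin.ext h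
      rw [h2]
    · rw [if_neg h1] at h
      rw [dif_neg h1, hinv]
      have h2 : rotE p i = ⟨0, Nat.lt_of_le_of_lt (Nat.zero_le _) i.2⟩ := Fin.ext h
      rw [h2]
  classical
  unfold cnt
  refine card_bij (fun i _ => rotE p i) ?_ ?_ ?_
  · intro i hi
    rw [mem_filter] at hi ⊢
    exact ⟨mem_univ _, (hmem i).1 hi.2⟩
  · intro i _ j _ hij
    exact (rotE p).injective hij
  · intro j hj
    rw [mem_filter] at hj
    refine ⟨(rotE p).symm j, ?_, (rotE p).apply_symm_apply j⟩
    rw [mem_filter]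
    refine ⟨mem_univ _, (hmem _).2 ?_⟩
    rw [(rotE p).apply_symm_apply j]
    exact hj.2

theorem cnt_iter {K : AddSubgroup F} (hK : ∀ (g : Γ), ∀ v ∈ K, τ g v ∈ K) (v : Fin p → F) (i : ℕ) :
    cnt K ((sg p z τ)^[i] v) = cnt K v := by
  induction i with
  | zero => rfl
  | succ i ih =>
    rw [Function.iterate_succ_apply', cnt_sg hK, ih]

theorem stb_Fil {K : AddSubgroup F} (hK : ∀ (g : Γ), ∀ v ∈ K, τ g v ∈ K) (j : ℕ) :
    Stb (rU p τ ρ) (cU p z τ) (Fil p A K j) := by
  constructor
  · intro g u hu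
    rw [mem_Fil] at hu ⊢
    intro v hv
    rw [rU_apply, hu _ (by rw [cnt_act hK]; exact hv), map_zero]
  · intro u hu
    rw [mem_Fil] at hu ⊢
    intro v hv
    rw [cU_apply]
    exact hu _ (by rw [cnt_sg hK]; exact hv)

theorem cnt_le (K : AddSubgroup F) (v : Fin p → F) : cnt K v ≤ p := by
  classical
  unfold cnt
  refine (card_filter_le _ _).trans ?_
  rw [card_univ, Fintype.card_fin]

/-- `cnt K v = p` iff all components are in `K` -/
theorem cnt_eq (K : AddSubgroup F) (v : Fin p → F) : p ≤ cnt K v ↔ ∀ i, v i ∈ K := by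
  classical
  unfold cnt
  constructor
  · intro h i
    have h1 : (univ.filter (fun i => v i ∈ K)) = univ := by
      refine eq_of_subset_of_card_le (filter_subset _ _) ?_
      rw [card_univ, Fintype.card_fin]
      exact h
    have h2 := mem_univ i
    rw [← h1, mem_filter] at h2
    exact h2.2
  · intro h
    rw [filter_true_of_mem (fun i _ => h i), card_univ, Fintype.card_fin]

/-- `1 ≤ cnt K v` iff some component is in `K` -/
theorem cnt_pos (K : AddSubgroup F) (v : Fin p → F) : 1 ≤ cnt K v ↔ ∃ i, v i ∈ K := by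
  classical
  unfold cnt
  rw [Nat.one_le_iff_ne_zero, ← Nat.pos_iff_ne_zero, card_pos]
  constructor
  · rintro ⟨i, hi⟩
    exact ⟨i, (mem_filter.1 hi).2⟩
  · rintro ⟨i, hi⟩
    exact ⟨i, mem_filter.2 ⟨mem_univ _, hi⟩⟩

theorem Fil_mono (K : AddSubgroup F) {i j : ℕ} (h : i ≤ j) : Fil p A K i ≤ Fil p A K j := by
  intro φ hφ
  rw [mem_Fil] at hφ ⊢
  exact fun v hv => hφ v (h.trans hv)

theorem Fil_top (K : AddSubgroup F) : Fil p A K (p + 1) = ⊤ := by
  rw [eq_top_iff]
  intro φ _
  rw [mem_Fil]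
  intro v hv
  have := cnt_le K v
  omega

theorem Fil_bot (K : AddSubgroup F) : Fil p A K 0 = ⊥ := by
  rw [eq_bot_iff]
  intro φ hφ
  rw [mem_Fil] at hφ
  rw [AddSubgroup.mem_bot]
  apply MultilinearMap.ext
  intro v
  exact hφ v (Nat.zero_le _)

end Pool.Agent.Helper39.DB
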