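import Pool.Agent.Helper39.DB.MulExt
import Pool.Agent.Helper39.DB.MulBas
import Pool.Agent.Helper39.DB.Orbit

/-!
# DB-07 (project DB): Higman's criterion for the multiadditive maps on a projective module

* `hig_free`: `F = X →₀ ℤ[Γ]`, the `Γ`-set `Y = X × Γ` with `g • (x, γ) = (x, g γ)` (a local instance or a private
  structure; it is free), `E` from `exists_E`. By `mm_exists`, `mm_ext` there is a unique additive
  `e : MM p F A → MM p F A` with `(e φ) (bas ∘ y) = E y (φ (bas ∘ y))` for all `y : Fin p → Y`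
  (`Classical.choose`, additivity by `mm_ext`).
  `equiv`: `(ρ g (e φ)) (bas ∘ y) = ρ g (E (g⁻¹ y) (φ (bas ∘ g⁻¹ y))) = E y (ρ g (φ (bas ∘ g⁻¹ y)))
  = (e (ρ g φ)) (bas ∘ y)`.
  `sum`: `sg p z τ (bas ∘ y) = bas ∘ (sgX p z y)`, so `((c ^ i) (e ψ)) (bas ∘ y) = E (σ^[i] y) (ψ (bas ∘ σ^[i] y))`, and for
  `ψ = (c ^ (p - i)) (ρ z⁻¹ φ)`: `ψ (bas ∘ σ^[i] y) = (ρ z⁻¹ φ) (bas ∘ σ^[p] y) = φ (bas ∘ y)` (`σ^[p] y = z⁻¹ y`,
  `ρ z⁻¹ = 1`). The sum is `∑_{i<p} E (σ^[i] y) (φ (bas ∘ y)) = φ (bas ∘ y)`.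
* `hig_proj`: `F` is a retract of the free module `F₁ = F →₀ ℤ[Γ]`: `r : F₁ → F`, `s : F → F₁` linear with
  `r (s v) = v` (`Module.projective_def`, `Finsupp.linearCombination`). Let `r* φ = φ ∘ r`, `s* φ = φ ∘ s`
  (`MultilinearMap.compLinearMap` with the underlying `ℤ`-linear maps); both commute with `ρ g` and `c`, and
  `s* (r* φ) = φ`. Take `s* ∘ e ∘ r*`.
-/

set_option autoImplicit false

namespace Pool.Agent.Helper39.DB

open Finset Pool.Agent.Helper27.Mess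
open scoped IsMulCommutative

variable {Γ : Type*} [Group Γ] {A : Type*} [AddCommGroup A] {p : ℕ} {z : Γ}
  {ρ : Γ →* AddMonoid.End A}

/-- the rotation commutes with equivariant maps -/
theorem sg_map {F G : Type*} [AddCommGroup F] [AddCommGroup G] {p : ℕ} (z : Γ)
    (τ : Γ →* AddMonoid.End F) (τ' : Γ →* AddMonoid.End G) (f : F →+ G)
    (hf : ∀ (g : Γ) (v : F), f (τ g v) = τ' g (f v)) (v : Fin p → F) (i : ℕ) :
    (sg p z τ')^[i] (fun j => f (v j)) = fun j => f ((sg p z τ)^[i] v j) := by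
  have h1 : ∀ v : Fin p → F, sg p z τ' (fun j => f (v j)) = fun j => f (sg p z τ v j) := by
    intro v
    funext j
    unfold sg
    by_cases h : (j : ℕ) + 1 < p
    · rw [dif_pos h, dif_pos h]
    · rw [dif_neg h, dif_neg h, hf]
  induction i with
  | zero => rfl
  | succ i ih => rw [Function.iterate_succ_apply', ih, h1, Function.iterate_succ_apply']

theorem hig_free (hp : p.Prime) (hz : ∀ g : Γ, g * z = z * g) (hρ : ρ z = 1) (hA : HA p z ρ)
    (X : Type*) : ∃ e : AddMonoid.End (MM p (X →₀ MonoidAlgebra ℤ Γ) A),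
      Hig p z (rU p (actH Γ (X →₀ MonoidAlgebra ℤ Γ)) ρ)
        (cU p z (actH Γ (X →₀ MonoidAlgebra ℤ Γ))) ⊤ ⊥ e := by
  classical
  let inst : MulAction Γ (X × Γ) :=
    { smul := fun g y => (y.1, g * y.2)
      one_smul := fun y => Prod.ext rfl (one_mul _)
      mul_smul := fun g h y => Prod.ext rfl (mul_assoc _ _ _) }
  have hsm : ∀ (g : Γ) (y : X × Γ), g • y = (y.1, g * y.2) := fun _ _ => rfl
  have hfree : ∀ (g : Γ) (y : X × Γ), g • y = y → g = 1 := by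
    intro g y h
    have h2 : g * y.2 = y.2 := congrArg Prod.snd h
    exact mul_eq_right.1 h2
  obtain ⟨E, hE1, hE2⟩ := exists_E hp hz hA hfree
  have hex : ∀ φ : MM p (X →₀ MonoidAlgebra ℤ Γ) A, ∃ ψ : MM p (X →₀ MonoidAlgebra ℤ Γ) A,
      ∀ y : Fin p → X × Γ, ψ (fun i => bas Γ (y i)) = E y (φ (fun i => bas Γ (y i))) :=
    fun φ => mm_exists _
  choose e0 he0 using hex
  have hb : ∀ (g : Γ) (y : X × Γ), actH Γ (X →₀ MonoidAlgebra ℤ Γ) g (bas Γ y) = bas Γ (g • y) :=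
    fun g y => act_bas g y
  have hsg : ∀ y : Fin p → X × Γ, sg p z (actH Γ (X →₀ MonoidAlgebra ℤ Γ))
      (fun i => bas Γ (y i)) = fun i => bas Γ (sgX p z y i) := by
    intro y
    funext j
    unfold sg sgX
    by_cases h : (j : ℕ) + 1 < p
    · rw [dif_pos h, dif_pos h]
    · rw [dif_neg h, dif_neg h, hb]
  have hsgi : ∀ (i : ℕ) (y : Fin p → X × Γ), (sg p z (actH Γ (X →₀ MonoidAlgebra ℤ Γ)))^[i]
      (fun i => bas Γ (y i)) = fun j => bas Γ ((sgX p z)^[i] y j) := by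
    intro i y
    induction i with
    | zero => rfl
    | succ i ih => rw [Function.iterate_succ_apply', ih, hsg, Function.iterate_succ_apply']
  refine ⟨AddMonoidHom.mk' e0 ?_, fun _ _ => AddSubgroup.mem_top _, ?_, ?_, ?_⟩
  · intro φ ψ
    apply mm_ext
    intro y
    change e0 (φ + ψ) _ = e0 φ _ + e0 ψ _
    rw [he0, he0, he0]
    exact map_add (E y) _ _
  · intro u hu
    rw [AddSubgroup.mem_bot.1 hu, map_zero]
    exact AddSubgroup.zero_mem _
  · intro g u _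
    rw [AddSubgroup.mem_bot, sub_eq_zero]
    apply mm_ext
    intro y
    change ρ g (e0 u (fun i => actH Γ (X →₀ MonoidAlgebra ℤ Γ) g⁻¹ (bas Γ (y i)))) =
      e0 (rU p (actH Γ (X →₀ MonoidAlgebra ℤ Γ)) ρ g u) _
    rw [he0]
    change _ = E y (ρ g (u (fun i => actH Γ (X →₀ MonoidAlgebra ℤ Γ) g⁻¹ (bas Γ (y i)))))
    have h1 : (fun i => actH Γ (X →₀ MonoidAlgebra ℤ Γ) g⁻¹ (bas Γ (y i))) =
        fun i => bas Γ (g⁻¹ • y i) := funext fun i => hb _ _
    rw [h1, he0, hE1, inv_inv]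
    change (ρ g * ρ g⁻¹) _ = _
    rw [← map_mul, mul_inv_cancel, map_one]
    rfl
  · intro u _
    rw [AddSubgroup.mem_bot, sub_eq_zero]
    apply mm_ext
    intro y
    have hterm : ∀ i ∈ range p, (((cU p z (actH Γ (X →₀ MonoidAlgebra ℤ Γ)) :
        AddMonoid.End (MM p (X →₀ MonoidAlgebra ℤ Γ) A)) ^ i)
        (e0 (((cU p z (actH Γ (X →₀ MonoidAlgebra ℤ Γ)) :
        AddMonoid.End (MM p (X →₀ MonoidAlgebra ℤ Γ) A)) ^ (p - i))
        (rU p (actH Γ (X →₀ MonoidAlgebra ℤ Γ)) ρ z⁻¹ u)))) (fun i => bas Γ (y i)) =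
        E ((sgX p z)^[i] y) (u (fun i => bas Γ (y i))) := by
      intro i hi
      have hi' := Finset.mem_range.1 hi
      rw [cU_pow_apply, hsgi, he0, cU_pow_apply, ← hsgi, ← Function.iterate_add_apply,
        Nat.sub_add_cancel hi'.le, sg_p, rU_apply]
      congr 1
      have h1 : (fun i => actH Γ (X →₀ MonoidAlgebra ℤ Γ) z⁻¹⁻¹
          (actH Γ (X →₀ MonoidAlgebra ℤ Γ) z⁻¹ (bas Γ (y i)))) = fun i => bas Γ (y i) := by
        funext i
        rw [hb, hb, inv_inv, smul_inv_smul]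
      rw [h1]
      change ρ z⁻¹ _ = _
      have h2 : ρ z⁻¹ = 1 := by
        have : ρ z⁻¹ * ρ z = 1 := by rw [← map_mul, inv_mul_cancel, map_one]
        rwa [hρ, mul_one] at this
      rw [h2]
      rfl
    rw [_root_.sum_apply]
    exact (Finset.sum_congr rfl hterm).trans (hE2 _ _)

theorem hig_proj (hp : p.Prime) (hz : ∀ g : Γ, g * z = z * g) (hρ : ρ z = 1) (hA : HA p z ρ)
    (F : Type*) [AddCommGroup F] [Module (MonoidAlgebra ℤ Γ) F]
    [Module.Projective (MonoidAlgebra ℤ Γ) F] : ∃ e : AddMonoid.End (MM p F A),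
      Hig p z (rU p (actH Γ F) ρ) (cU p z (actH Γ F)) ⊤ ⊥ e := by
  classical
  obtain ⟨s, hs⟩ := (Module.projective_def (R := MonoidAlgebra ℤ Γ) (P := F)).1 inferInstance
  obtain ⟨e1, he⟩ := hig_free (A := A) hp hz hρ hA F
  let r : (F →₀ MonoidAlgebra ℤ Γ) →ₗ[MonoidAlgebra ℤ Γ] F :=
    Finsupp.linearCombination (MonoidAlgebra ℤ Γ) id
  have hrs : ∀ v, r (s v) = v := hs
  let rs : MM p F A → MM p (F →₀ MonoidAlgebra ℤ Γ) A := fun φ =>
    φ.compLinearMap (fun _ => AddMonoidHom.toIntLinearMap r.toAddMonoidHom)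
  let ss : MM p (F →₀ MonoidAlgebra ℤ Γ) A → MM p F A := fun φ =>
    φ.compLinearMap (fun _ => AddMonoidHom.toIntLinearMap s.toAddMonoidHom)
  have hrsa : ∀ φ v, rs φ v = φ (fun i => r (v i)) := fun _ _ => rfl
  have hssa : ∀ φ v, ss φ v = φ (fun i => s (v i)) := fun _ _ => rfl
  have hsr : ∀ φ, ss (rs φ) = φ := by
    intro φ
    apply MultilinearMap.ext
    intro v
    rw [hssa, hrsa]
    congr 1
    funext i
    exact hrs _
  have hra : ∀ (g : Γ) v, r (actH Γ (F →₀ MonoidAlgebra ℤ Γ) g v) = actH Γ F g (r v) :=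
    fun g v => map_act r g v
  have hsa : ∀ (g : Γ) v, s (actH Γ F g v) = actH Γ (F →₀ MonoidAlgebra ℤ Γ) g (s v) :=
    fun g v => map_act s g v
  have hrg : ∀ g φ, rs (rU p (actH Γ F) ρ g φ) =
      rU p (actH Γ (F →₀ MonoidAlgebra ℤ Γ)) ρ g (rs φ) := by
    intro g φ
    apply MultilinearMap.ext
    intro v
    rw [hrsa, rU_apply, rU_apply, hrsa]
    congr 2
    funext i
    exact (hra _ _).symm
  have hsg : ∀ g φ, ss (rU p (actH Γ (F →₀ MonoidAlgebra ℤ Γ)) ρ g φ) =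
      rU p (actH Γ F) ρ g (ss φ) := by
    intro g φ
    apply MultilinearMap.ext
    intro v
    rw [hssa, rU_apply, rU_apply, hssa]
    congr 2
    funext i
    exact (hsa _ _).symm
  have hrc : ∀ (i : ℕ) φ, rs (((cU p z (actH Γ F) : AddMonoid.End (MM p F A)) ^ i) φ) =
      ((cU p z (actH Γ (F →₀ MonoidAlgebra ℤ Γ)) :
        AddMonoid.End (MM p (F →₀ MonoidAlgebra ℤ Γ) A)) ^ i) (rs φ) := by
    intro i φ
    apply MultilinearMap.ext
    intro v
    rw [hrsa, cU_pow_apply, cU_pow_apply, hrsa]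
    congr 1
    exact sg_map z (actH Γ (F →₀ MonoidAlgebra ℤ Γ)) (actH Γ F) r.toAddMonoidHom hra v i
  have hsc : ∀ (i : ℕ) φ, ss (((cU p z (actH Γ (F →₀ MonoidAlgebra ℤ Γ)) :
        AddMonoid.End (MM p (F →₀ MonoidAlgebra ℤ Γ) A)) ^ i) φ) =
      ((cU p z (actH Γ F) : AddMonoid.End (MM p F A)) ^ i) (ss φ) := by
    intro i φ
    apply MultilinearMap.ext
    intro v
    rw [hssa, cU_pow_apply, cU_pow_apply, hssa]
    congr 1
    exact sg_map z (actH Γ F) (actH Γ (F →₀ MonoidAlgebra ℤ Γ)) s.toAddMonoidHom hsa v i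
  have hradd : ∀ φ ψ, rs (φ + ψ) = rs φ + rs ψ := by
    intro φ ψ
    apply MultilinearMap.ext
    intro v
    rfl
  have hsadd : ∀ φ ψ, ss (φ + ψ) = ss φ + ss ψ := by
    intro φ ψ
    apply MultilinearMap.ext
    intro v
    rfl
  let ssH : MM p (F →₀ MonoidAlgebra ℤ Γ) A →+ MM p F A := AddMonoidHom.mk' ss hsadd
  have hssH : ∀ φ, ss φ = ssH φ := fun _ => rfl
  refine ⟨AddMonoidHom.mk' (fun φ => ss (e1 (rs φ))) ?_, fun _ _ => AddSubgroup.mem_top _,
    ?_, ?_, ?_⟩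
  · intro φ ψ
    rw [hradd, map_add, hsadd]
  · intro u hu
    rw [AddSubgroup.mem_bot.1 hu, map_zero]
    exact AddSubgroup.zero_mem _
  · intro g u _
    rw [AddSubgroup.mem_bot, sub_eq_zero]
    change rU p (actH Γ F) ρ g (ss (e1 (rs u))) = ss (e1 (rs (rU p (actH Γ F) ρ g u)))
    have h := sub_eq_zero.1 (AddSubgroup.mem_bot.1 (he.equiv g (rs u) (AddSubgroup.mem_top _)))
    rw [hrg, ← h, hsg]
  · intro u _
    rw [AddSubgroup.mem_bot, sub_eq_zero]
    change ∑ i ∈ range p, ((cU p z (actH Γ F) : AddMonoid.End (MM p F A)) ^ i)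
      (ss (e1 (rs (((cU p z (actH Γ F) : AddMonoid.End (MM p F A)) ^ (p - i))
        (rU p (actH Γ F) ρ z⁻¹ u))))) = u
    have h := sub_eq_zero.1 (AddSubgroup.mem_bot.1 (he.sum (rs u) (AddSubgroup.mem_top _)))
    conv_rhs => rw [← hsr u, ← h, hssH, map_sum]
    apply Finset.sum_congr rfl
    intro i _
    rw [← hssH, hsc, hrc, hrg]

end Pool.Agent.Helper39.DB
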