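import Pool.Agent.Helper39.DB.Step
import Pool.Agent.Helper39.DB.ProjH
import Pool.Agent.Helper39.DB.ResP

/-!
# DB-11 (project DB): the core theorem

`Z i = {x | G.π i x = x ∧ G.d x = 0 ∧ G.ε x = 0}` (an `AddSubgroup C` stable under `act`, the type `↥(Z i)` with the restriction `τ i` of
`actH Γ C`), `F i = LinearMap.range (G.π i)` (a submodule, projective over `ℤ[Γ]` as a direct summand of `C`:
`Module.Projective.of_split`; its `actH` is the restricted action). Let `s` be the contraction `exists_contr`.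
* `QQ p z T (τ i) ρ` for `i = n + 1`: `Z (n + 1)` is trivial (`G.π_big`); `MM p 0 A` is trivial as `p > 0`
  (a multiadditive map vanishes if one argument is `0`: `MultilinearMap.map_zero`/`map_coord_zero`), so `QQ` holds trivially.
* `QQ (τ i) → QQ (τ (i - 1))` for `i ≥ 1` by `QQ_step` for `Z i → F i → Z (i - 1)`, `q x = G.d x`
  (`G.π (i-1) (G.d x) = G.d (G.π i x)`, `G.d_d`, `G.ε_d`), `s y = G.π i (s y)` (`G.d (G.π i (s y)) = G.π (i-1) (G.d (s y)) = y`),
  exactness: `x ∈ F i`, `G.d x = 0`, then `G.ε x = 0` as `i ≠ 0` (`G.ε_π_ne`). `hF` by `hig_proj`.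
* So `QQ (τ 0)`; `QQ_step` for `Z 0 → F 0 → ℤ`, `q = G.ε`, `τ'' = 1` (`G.ε_act`), `s m = m • y₀` with `G.ε y₀ = 1`, `G.π 0 y₀ = y₀`; if
  `x ∈ F 0` then `G.d x = G.d (G.π 0 x) = G.π (-1) (G.d x) = 0`.
* So `QQ p z T (1 : Γ →* AddMonoid.End ℤ) ρ`. Translate: for `a : A` let `m a : MM p ℤ A`, `m a v = (∏ i, v i) • a`
  (`MultilinearMap.mkPiRing`, an additive isomorphism with inverse `φ ↦ φ (fun _ => 1)`: `MultilinearMap.mkPiRing_apply_one_eq_self`);
  `rU g (m a) = m (ρ g a)`, `cU (m a) = m a`. For `f` with `f (T x) = 0` apply `QQ` to the pair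
  `(m ∘ f, 0)`: `m (f (T x)) - N 0 = 0`, `c (m (f x)) - m (f x) - 0 = 0`. We get `α`, `β` with `m (f x) = α (T x) - N (β x)`, and
  `N (β x) = p • β x = 0` since `cU` is the identity on `MM p ℤ A` (`sg` is the rotation, `φ (v) = (∏ v i) • φ (1)`). Take
  `g x = α x (fun _ => 1)`.
-/

set_option autoImplicit false

namespace Pool.Agent.Helper39.DB

open Finset Pool.Agent.Helper27.Mess
open scoped IsMulCommutative

universe u v w

variable {Γ : Type u} [Group Γ] {C : Type v} [AddCommGroup C] [Module (MonoidAlgebra ℤ Γ) C]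
  {A : Type w} [AddCommGroup A] {p : ℕ} {z : Γ} {T : C →+ C} {ρ : Γ →* AddMonoid.End A}

section aux

variable (G : GrRes Γ C)

/-- The kernel of the differential in degree `i`. -/
private def Zi (i : ℤ) : AddSubgroup C where
  carrier := {x | G.π i x = x ∧ G.d x = 0 ∧ G.ε x = 0}
  add_mem' := by
    rintro x y ⟨h1, h2, h3⟩ ⟨k1, k2, k3⟩
    exact ⟨by rw [map_add, h1, k1], by rw [map_add, h2, k2, add_zero],
      by rw [map_add, h3, k3, add_zero]⟩
  zero_mem' := ⟨map_zero _, map_zero _, map_zero _⟩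
  neg_mem' := by
    rintro x ⟨h1, h2, h3⟩
    exact ⟨by rw [map_neg, h1], by rw [map_neg, h2, neg_zero], by rw [map_neg, h3, neg_zero]⟩

private theorem act_Zi (i : ℤ) (g : Γ) {x : C} (hx : x ∈ Zi G i) : act g x ∈ Zi G i := by
  obtain ⟨h1, h2, h3⟩ := hx
  exact ⟨by rw [map_act, h1], by rw [map_act, h2, act_zero], by rw [G.ε_act, h3]⟩

private noncomputable def τZ (i : ℤ) : Γ →* AddMonoid.End (Zi G i) where
  toFun g :=
    { toFun := fun x => ⟨act g (x : C), act_Zi G i g x.2⟩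
      map_zero' := Subtype.ext (act_zero g)
      map_add' := fun x y => Subtype.ext (act_add g (x : C) (y : C)) }
  map_one' := by
    apply AddMonoidHom.ext
    intro x
    exact Subtype.ext (act_one (x : C))
  map_mul' g k := by
    apply AddMonoidHom.ext
    intro x
    exact Subtype.ext (act_mul g k (x : C))

/-- The part of degree `i`. -/
private noncomputable def Fi (i : ℤ) : Submodule (MonoidAlgebra ℤ Γ) C := LinearMap.range (G.π i)

private theorem mem_Fi {i : ℤ} {x : C} : x ∈ Fi G i ↔ G.π i x = x := by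
  unfold Fi
  rw [LinearMap.mem_range]
  constructor
  · rintro ⟨y, rfl⟩
    exact G.π_self i y
  · intro h
    exact ⟨x, h⟩

private theorem proj_Fi [Module.Projective (MonoidAlgebra ℤ Γ) C] (i : ℤ) :
    Module.Projective (MonoidAlgebra ℤ Γ) (Fi G i) := by
  refine Module.Projective.of_split (Fi G i).subtype
    ((G.π i).codRestrict (Fi G i) (fun x => ⟨x, rfl⟩)) ?_
  apply LinearMap.ext
  intro x
  apply Subtype.ext
  exact (mem_Fi G).1 x.2

private noncomputable def ιZ (i : ℤ) : Zi G i →+ Fi G i where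
  toFun x := ⟨(x : C), (mem_Fi G).2 x.2.1⟩
  map_zero' := rfl
  map_add' _ _ := rfl

private theorem subs_MM {F : Type*} [AddCommGroup F] [Subsingleton F] (hp : 0 < p) :
    Subsingleton (MM p F A) := by
  constructor
  intro φ ψ
  apply MultilinearMap.ext
  intro v
  rw [φ.map_coord_zero ⟨0, hp⟩ (Subsingleton.elim _ _), ψ.map_coord_zero ⟨0, hp⟩ (Subsingleton.elim _ _)]

private theorem QQ_big (hp : p.Prime) (i : ℤ) (hi : (G.n : ℤ) < i) :
    QQ p z T (τZ G i) ρ := by
  have hs : Subsingleton (Zi G i) := by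
    constructor
    intro x y
    apply Subtype.ext
    rw [← x.2.1, ← y.2.1, G.π_big i _ hi, G.π_big i _ hi]
  have hM : Subsingleton (MM p (Zi G i) A) := subs_MM hp.pos
  intro a b _ _ _ _ _ _
  refine ⟨0, 0, ?_, ?_, fun x => AddSubgroup.mem_top _, fun x => AddSubgroup.mem_top _, ?_, ?_⟩
  · intro g x
    exact Subsingleton.elim _ _
  · intro g x
    exact Subsingleton.elim _ _
  · intro x
    exact AddSubgroup.mem_bot.2 (Subsingleton.elim _ _)
  · intro x
    exact AddSubgroup.mem_bot.2 (Subsingleton.elim _ _)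

private noncomputable def qZ (i : ℤ) : Fi G (i + 1) →+ Zi G i where
  toFun x := ⟨G.d (x : C), by
    refine ⟨?_, G.d_d _, G.ε_d _⟩
    have h := G.d_π (i + 1) (x : C)
    rw [(mem_Fi G).1 x.2, add_sub_cancel_right] at h
    exact h.symm⟩
  map_zero' := Subtype.ext (map_zero G.d)
  map_add' x y := Subtype.ext (map_add G.d (x : C) (y : C))

private noncomputable def sZ (s : C →+ C) (i : ℤ) : Zi G i →+ Fi G (i + 1) where
  toFun y := ⟨G.π (i + 1) (s (y : C)), (mem_Fi G).2 (G.π_self _ _)⟩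
  map_zero' := Subtype.ext (by
    change G.π (i + 1) (s 0) = 0
    rw [map_zero, map_zero])
  map_add' x y := Subtype.ext (by
    change G.π (i + 1) (s ((x : C) + (y : C))) = G.π (i + 1) (s x) + G.π (i + 1) (s y)
    rw [map_add, map_add])

private theorem QQ_down [Module.Projective (MonoidAlgebra ℤ Γ) C] (hp : p.Prime)
    (hz : ∀ g : Γ, g * z = z * g) (hT : Curv z T) (hρ : ρ z = 1) (hA : ∀ a : A, p • a = 0)
    (hH : HA p z ρ) (m : ℕ) (h : QQ p z T (τZ G ((m : ℤ) + 1)) ρ) :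
    QQ p z T (τZ G (m : ℤ)) ρ := by
  obtain ⟨s, hs⟩ := exists_contr G
  haveI := proj_Fi G ((m : ℤ) + 1)
  refine QQ_step hp hz hT hρ hA (τZ G ((m : ℤ) + 1)) (actH Γ (Fi G ((m : ℤ) + 1)))
    (τZ G (m : ℤ)) (ιZ G ((m : ℤ) + 1)) (qZ G (m : ℤ)) (sZ G s (m : ℤ)) ?_ ?_ ?_ ?_ ?_
    (hig_proj hp hz hρ hH _) h
  · intro x y hxy
    exact Subtype.ext (congrArg (fun w : Fi G ((m : ℤ) + 1) => (w : C)) hxy)
  · intro g x
    rfl
  · intro g v
    apply Subtype.ext
    exact map_act G.d g (v : C)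
  · intro y
    apply Subtype.ext
    change G.d (G.π ((m : ℤ) + 1) (s (y : C))) = (y : C)
    rw [G.d_π, hs _ y.2.2.1 y.2.2.2, add_sub_cancel_right]
    exact y.2.1
  · intro v
    constructor
    · intro hv
      have h1 : G.d (v : C) = 0 := congrArg Subtype.val hv
      have h2 : G.ε (v : C) = 0 := by
        rw [← (mem_Fi G).1 v.2]
        exact G.ε_π_ne _ (by omega) _
      exact ⟨⟨(v : C), (mem_Fi G).1 v.2, h1, h2⟩, rfl⟩
    · rintro ⟨x, rfl⟩
      exact Subtype.ext x.2.2.1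

private theorem QQ_all [Module.Projective (MonoidAlgebra ℤ Γ) C] (hp : p.Prime)
    (hz : ∀ g : Γ, g * z = z * g) (hT : Curv z T) (hρ : ρ z = 1) (hA : ∀ a : A, p • a = 0)
    (hH : HA p z ρ) (k : ℕ) : ∀ m : ℕ, m + k = G.n + 1 → QQ p z T (τZ G (m : ℤ)) ρ := by
  induction k with
  | zero =>
    intro m hm
    exact QQ_big G hp (m : ℤ) (by omega)
  | succ k ih =>
    intro m hm
    refine QQ_down G hp hz hT hρ hA hH m ?_
    have h := ih (m + 1) (by omega)
    rw [Nat.cast_add, Nat.cast_one] at h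
    exact h

end aux

/-- the statement for the kernels of the differential -/
theorem QQ_int [Module.Projective (MonoidAlgebra ℤ Γ) C] (G : GrRes Γ C) (hp : p.Prime)
    (hz : ∀ g : Γ, g * z = z * g) (hT : Curv z T) (hρ : ρ z = 1) (hA : ∀ a : A, p • a = 0)
    (hH : HA p z ρ) : QQ p z T (1 : Γ →* AddMonoid.End ℤ) ρ := by
  haveI := proj_Fi G 0
  have h0 : QQ p z T (τZ G ((0 : ℕ) : ℤ)) ρ := QQ_all G hp hz hT hρ hA hH (G.n + 1) 0 (by omega)
  rw [Nat.cast_zero] at h0
  obtain ⟨y, hy⟩ := G.ε_surj 1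
  let y₀ : Fi G 0 := ⟨G.π 0 y, (mem_Fi G).2 (G.π_self 0 y)⟩
  have hy₀ : G.ε (y₀ : C) = 1 := by
    change G.ε (G.π 0 y) = 1
    rw [G.ε_π, hy]
  refine QQ_step hp hz hT hρ hA (τZ G 0) (actH Γ (Fi G 0)) (1 : Γ →* AddMonoid.End ℤ) (ιZ G 0)
    (G.ε.comp (Fi G 0).toAddSubgroup.subtype) (zmultiplesHom (Fi G 0) y₀) ?_ ?_ ?_ ?_ ?_
    (hig_proj hp hz hρ hH _) h0
  · intro x y hxy
    exact Subtype.ext (congrArg (fun w : Fi G 0 => (w : C)) hxy)
  · intro g x
    rfl
  · intro g v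
    exact G.ε_act g (v : C)
  · intro m
    change G.ε ((m • y₀ : Fi G 0) : C) = m
    have h1 : ((m • y₀ : Fi G 0) : C) = m • (y₀ : C) := rfl
    rw [h1, map_zsmul, hy₀]
    simp
  · intro v
    constructor
    · intro hv
      have h1 : G.d (v : C) = 0 := by
        rw [← (mem_Fi G).1 v.2, G.d_π]
        exact G.π_neg _ _ (by norm_num)
      exact ⟨⟨(v : C), (mem_Fi G).1 v.2, h1, hv⟩, rfl⟩
    · rintro ⟨x, rfl⟩
      exact x.2.2.2

theorem core [Module.Projective (MonoidAlgebra ℤ Γ) C] (G : GrRes Γ C) (hp : p.Prime)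
    (hz : ∀ g : Γ, g * z = z * g) (hT : Curv z T) (hρ : ρ z = 1) (hA : ∀ a : A, p • a = 0)
    (hH : HA p z ρ) (f : C →+ A) (hf : Eqv ρ f) (hfT : ∀ x, f (T x) = 0) :
    ∃ g : C →+ A, Eqv ρ g ∧ ∀ x, g (T x) = f x := by
  let mA : A →+ MM p ℤ A := AddMonoidHom.mk' (fun a => MultilinearMap.mkPiRing ℤ (Fin p) a) (by
    intro a b
    apply MultilinearMap.ext_ring
    rw [_root_.add_apply, MultilinearMap.mkPiRing_apply, MultilinearMap.mkPiRing_apply,
      MultilinearMap.mkPiRing_apply, smul_add])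
  let ev : MM p ℤ A →+ A := AddMonoidHom.mk' (fun φ => φ (fun _ => 1)) (fun _ _ => rfl)
  have hev : ∀ a, ev (mA a) = a := by
    intro a
    change MultilinearMap.mkPiRing ℤ (Fin p) a (fun _ => 1) = a
    rw [MultilinearMap.mkPiRing_apply, prod_const_one, one_smul]
  have hext : ∀ φ ψ : MM p ℤ A, ev φ = ev ψ → φ = ψ := fun φ ψ h => MultilinearMap.ext_ring h
  have hevr : ∀ (g : Γ) (φ : MM p ℤ A),
      ev (rU p (1 : Γ →* AddMonoid.End ℤ) ρ g φ) = ρ g (ev φ) := fun g φ => rfl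
  have hc : ∀ φ : MM p ℤ A, cU p z (1 : Γ →* AddMonoid.End ℤ) φ = φ := by
    intro φ
    apply hext
    change cU p z (1 : Γ →* AddMonoid.End ℤ) φ (fun _ => 1) = φ (fun _ => 1)
    rw [cU_apply]
    congr 1
    funext i
    unfold sg
    split_ifs
    · rfl
    · rfl
  have hN : ∀ φ : MM p ℤ A, ev (Nm p (cU p z (1 : Γ →* AddMonoid.End ℤ)) φ) = 0 := by
    intro φ
    have h1 : Nm p (cU p z (1 : Γ →* AddMonoid.End ℤ)) φ = p • φ := by
      unfold Nm
      have h2 : ∀ i ∈ range p, ((cU p z (1 : Γ →* AddMonoid.End ℤ) :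
          AddMonoid.End (MM p ℤ A)) ^ i) φ = φ := by
        intro i hi
        clear hi
        induction i with
        | zero => rfl
        | succ i ih =>
          rw [pow_succ']
          change cU p z (1 : Γ →* AddMonoid.End ℤ) (((cU p z (1 : Γ →* AddMonoid.End ℤ) :
            AddMonoid.End (MM p ℤ A)) ^ i) φ) = φ
          rw [ih, hc]
      rw [sum_congr rfl h2, sum_const, card_range]
    rw [h1, map_nsmul, hA]
  obtain ⟨α, β, hα, -, -, -, h1, -⟩ := QQ_int G hp hz hT hρ hA hH (mA.comp f) 0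
    (by
      intro g x
      apply hext
      rw [AddMonoidHom.comp_apply, AddMonoidHom.comp_apply, hevr, hev, hev, hf])
    (by
      intro g x
      rw [AddMonoidHom.zero_apply, AddMonoidHom.zero_apply, map_zero])
    (fun x => AddSubgroup.mem_top _) (fun x => AddSubgroup.mem_top _)
    (by
      intro x
      rw [AddSubgroup.mem_bot]
      apply hext
      rw [map_sub, hN, AddMonoidHom.comp_apply, hfT, map_zero, map_zero, sub_zero])
    (by
      intro x
      rw [AddSubgroup.mem_bot, hc, sub_self, AddMonoidHom.zero_apply, sub_zero])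
  refine ⟨ev.comp α, ?_, ?_⟩
  · intro g x
    rw [AddMonoidHom.comp_apply, AddMonoidHom.comp_apply, hα, hevr]
  · intro x
    have h2 := h1 x
    rw [AddSubgroup.mem_bot, AddMonoidHom.comp_apply] at h2
    have h3 := congrArg ev h2
    rw [map_sub, map_sub, hN, hev, map_zero, sub_zero, sub_eq_zero] at h3
    exact h3.symm

end Pool.Agent.Helper39.DB
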