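import Pool.Agent.Helper27.Mess.Basic

/-!
# Project DB (MP_dbae29_al): roots of central elements of groups of type FP, definitions

`Γ` is a group, `C` a module over the integral group ring (`act g x` is the action of a group element),
`z` a central element of `Γ`. A map `T : C → C` with `T (T x) = z x - x` (`Curv z T`) gives a
differential `f ↦ f ∘ T` on the equivariant maps `f : C → U` (`Eqv ρ f`) for every `Γ`-module `U` on which
`z` acts trivially. For a group `U` with an action `ρ` of `Γ` and an endomorphism `c` commuting with the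
action and with `c ^ p = ρ z` (`Rot p z ρ c`) we consider on pairs `(a, b)` of equivariant maps `C → U`
the operator `(a, b) ↦ (a ∘ T - N b, c a - a - b ∘ T)`, `N = 1 + c + ... + c ^ (p - 1)`, which has square zero.
`Ac p T ρ c U1 U0`: it is acyclic on the pairs of maps with values in the subgroup `U1` modulo
those with values in `U0`.

`MM p F A`: the multiadditive maps `F ^ p → A`, with the action `rU` of `Γ` and the rotation `cU`.
-/

set_option autoImplicit false

namespace Pool.Agent.Helper39.DB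

open Finset Pool.Agent.Helper27.Mess
open scoped IsMulCommutative

universe u v w

section basic

variable {Γ : Type u} [Group Γ] {C : Type v} [AddCommGroup C] [Module (MonoidAlgebra ℤ Γ) C]
  {U : Type w} [AddCommGroup U]

variable (Γ C) in
/-- The action on a module over the integral group ring as a homomorphism. -/
noncomputable def actH : Γ →* AddMonoid.End C where
  toFun g :=
    { toFun := act g
      map_zero' := act_zero g
      map_add' := act_add g }
  map_one' := by
    ext x
    exact act_one x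
  map_mul' g k := by
    ext x
    exact act_mul g k x

@[simp] theorem actH_apply (g : Γ) (x : C) : actH Γ C g x = act g x := rfl

/-- `f` is equivariant. -/
def Eqv (ρ : Γ →* AddMonoid.End U) (f : C →+ U) : Prop := ∀ (g : Γ) (x : C), f (act g x) = ρ g (f x)

/-- `f` is invariant. -/
def Ivt (Γ : Type u) [Group Γ] {C : Type v} [AddCommGroup C] [Module (MonoidAlgebra ℤ Γ) C]
    {M : Type w} [AddCommGroup M] (f : C →+ M) : Prop := ∀ (g : Γ) (x : C), f (act g x) = f x

/-- `T` is equivariant with square `z - 1`. -/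
structure Curv (z : Γ) (T : C →+ C) : Prop where
  equiv : ∀ (g : Γ) (x : C), T (act g x) = act g (T x)
  sq : ∀ x : C, T (T x) = act z x - x

/-- `c` commutes with the action and its `p`-th power is the action of `z`. -/
structure Rot (p : ℕ) (z : Γ) (ρ : Γ →* AddMonoid.End U) (c : AddMonoid.End U) : Prop where
  comm : ∀ (g : Γ) (u : U), c (ρ g u) = ρ g (c u)
  pow : ∀ u : U, (c ^ p) u = ρ z u

/-- The subgroup `V` is stable under the action and under `c`. -/
structure Stb (ρ : Γ →* AddMonoid.End U) (c : AddMonoid.End U) (V : AddSubgroup U) : Prop where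
  act : ∀ (g : Γ), ∀ u ∈ V, ρ g u ∈ V
  rot : ∀ u ∈ V, c u ∈ V

/-- The norm `1 + c + ... + c ^ (p - 1)`. -/
def Nm (p : ℕ) (c : AddMonoid.End U) (u : U) : U := ∑ i ∈ range p, (c ^ i) u

/-- Acyclicity of the pairs of equivariant maps with values in `U1` modulo those with values in `U0`. -/
def Ac (p : ℕ) (T : C →+ C) (ρ : Γ →* AddMonoid.End U) (c : AddMonoid.End U)
    (U1 U0 : AddSubgroup U) : Prop :=
  ∀ a b : C →+ U, Eqv ρ a → Eqv ρ b → (∀ x, a x ∈ U1) → (∀ x, b x ∈ U1) →
    (∀ x, a (T x) - Nm p c (b x) ∈ U0) → (∀ x, c (a x) - a x - b (T x) ∈ U0) →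
    ∃ α β : C →+ U, Eqv ρ α ∧ Eqv ρ β ∧ (∀ x, α x ∈ U1) ∧ (∀ x, β x ∈ U1) ∧
      (∀ x, a x - (α (T x) - Nm p c (β x)) ∈ U0) ∧
      (∀ x, b x - (c (α x) - α x - β (T x)) ∈ U0)

/-- The relative form of Higman's criterion for the subgroup `Γ` of index `p` in the group generated by
`Γ` and `c`: `e` commutes with `Γ` and `∑ c ^ i e c ^ (- i) = 1`, on `U1` modulo `U0`. -/
structure Hig (p : ℕ) (z : Γ) (ρ : Γ →* AddMonoid.End U) (c : AddMonoid.End U)
    (U1 U0 : AddSubgroup U) (e : AddMonoid.End U) : Prop where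
  map1 : ∀ u ∈ U1, e u ∈ U1
  map0 : ∀ u ∈ U0, e u ∈ U0
  equiv : ∀ (g : Γ), ∀ u ∈ U1, ρ g (e u) - e (ρ g u) ∈ U0
  sum : ∀ u ∈ U1, (∑ i ∈ range p, (c ^ i) (e ((c ^ (p - i)) (ρ z⁻¹ u)))) - u ∈ U0

/-- The hypothesis on the coefficients: for every `γ` with `γ ^ p = z⁻¹` the coefficient group is
relatively projective for the cyclic group generated by `γ`. -/
def HA (p : ℕ) (z : Γ) (ρ : Γ →* AddMonoid.End U) : Prop :=
  ∀ γ : Γ, γ ^ p = z⁻¹ → ∃ E : AddMonoid.End U,
    ∀ a : U, ∑ i ∈ range p, ρ (γ ^ i) (E (ρ (γ⁻¹ ^ i) a)) = a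

end basic

section multi

variable {Γ : Type u} [Group Γ] (p : ℕ) {F : Type v} {A : Type w} [AddCommGroup F] [AddCommGroup A]

/-- Multiadditive maps. -/
abbrev MM (p : ℕ) (F : Type v) (A : Type w) [AddCommGroup F] [AddCommGroup A] : Type (max v w) :=
  MultilinearMap ℤ (fun _ : Fin p => F) A

/-- The twisted rotation of tuples: `(v 0, ..., v (p-1)) ↦ (v 1, ..., v (p-1), z⁻¹ v 0)`. -/
def sg (z : Γ) (τ : Γ →* AddMonoid.End F) (v : Fin p → F) (i : Fin p) : F :=
  if h : (i : ℕ) + 1 < p then v ⟨i + 1, h⟩ else τ z⁻¹ (v ⟨0, Nat.lt_of_le_of_lt (Nat.zero_le _) i.2⟩)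

/-- One element of `Γ` acting on a multiadditive map. -/
noncomputable def rU0 (τ : Γ →* AddMonoid.End F) (ρ : Γ →* AddMonoid.End A) (g : Γ)
    (φ : MM p F A) : MM p F A :=
  (AddMonoidHom.toIntLinearMap (ρ g)).compMultilinearMap
    (φ.compLinearMap (fun _ => AddMonoidHom.toIntLinearMap (τ g⁻¹)))

theorem rU0_apply (τ : Γ →* AddMonoid.End F) (ρ : Γ →* AddMonoid.End A) (g : Γ)
    (φ : MM p F A) (v : Fin p → F) : rU0 p τ ρ g φ v = ρ g (φ (fun i => τ g⁻¹ (v i))) := rfl

/-- The action of `Γ` on multiadditive maps: `(g φ) (v) = g φ (g⁻¹ v)`. -/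
noncomputable def rU (τ : Γ →* AddMonoid.End F) (ρ : Γ →* AddMonoid.End A) :
    Γ →* AddMonoid.End (MM p F A) where
  toFun g := AddMonoidHom.mk' (rU0 p τ ρ g) (by
    intro φ ψ
    apply MultilinearMap.ext
    intro v
    rw [rU0_apply]
    exact map_add (ρ g) _ _)
  map_one' := by
    apply AddMonoidHom.ext
    intro φ
    apply MultilinearMap.ext
    intro v
    change ρ 1 (φ (fun i => τ 1⁻¹ (v i))) = φ v
    rw [inv_one, map_one, map_one]
    rfl
  map_mul' g k := by
    apply AddMonoidHom.ext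
    intro φ
    apply MultilinearMap.ext
    intro v
    change ρ (g * k) (φ (fun i => τ (g * k)⁻¹ (v i))) =
      ρ g (ρ k (φ (fun i => τ k⁻¹ (τ g⁻¹ (v i)))))
    rw [mul_inv_rev, map_mul, map_mul]
    rfl

@[simp] theorem rU_apply (τ : Γ →* AddMonoid.End F) (ρ : Γ →* AddMonoid.End A) (g : Γ)
    (φ : MM p F A) (v : Fin p → F) : rU p τ ρ g φ v = ρ g (φ (fun i => τ g⁻¹ (v i))) := rfl

/-- The successor in `Fin p` (cyclically) as a permutation. -/
def rotE (p : ℕ) : Fin p ≃ Fin p := finRotate p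

theorem rotE_val (i : Fin p) : ((rotE p i : Fin p) : ℕ) = if (i : ℕ) + 1 < p then (i : ℕ) + 1 else 0 := by
  obtain ⟨i, hi⟩ := i
  cases p with
  | zero => exact absurd hi (Nat.not_lt_zero i)
  | succ n =>
    by_cases h : i + 1 < n + 1
    · rw [if_pos h]
      simp only [rotE]
      rw [finRotate_of_lt (by omega)]
    · rw [if_neg h]
      have hin : i = n := by omega
      subst hin
      simp only [rotE]
      rw [finRotate_last']

/-- The rotation of multiadditive maps. -/
noncomputable def cU0 (z : Γ) (τ : Γ →* AddMonoid.End F) (φ : MM p F A) : MM p F A :=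
  (φ.compLinearMap (fun i : Fin p => if (i : ℕ) + 1 < p then LinearMap.id
    else AddMonoidHom.toIntLinearMap (τ z⁻¹))).domDomCongr (rotE p)

theorem cU0_apply (z : Γ) (τ : Γ →* AddMonoid.End F) (φ : MM p F A) (v : Fin p → F) :
    cU0 p z τ φ v = φ (sg p z τ v) := by
  change φ (fun i => (if (i : ℕ) + 1 < p then LinearMap.id
    else AddMonoidHom.toIntLinearMap (τ z⁻¹) : F →ₗ[ℤ] F) (v (rotE p i))) = φ (sg p z τ v)
  congr 1
  funext i
  have h := rotE_val p i
  unfold sg
  by_cases h1 : (i : ℕ) + 1 < p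
  · rw [if_pos h1] at h
    rw [if_pos h1, dif_pos h1]
    change v (rotE p i) = _
    congr 1
    exact Fin.ext h
  · rw [if_neg h1] at h
    rw [if_neg h1, dif_neg h1]
    change τ z⁻¹ (v (rotE p i)) = _
    congr 2
    exact Fin.ext h

/-- The rotation of multiadditive maps: `(c φ) (v) = φ (sg v)`. -/
noncomputable def cU (z : Γ) (τ : Γ →* AddMonoid.End F) : AddMonoid.End (MM p F A) :=
  AddMonoidHom.mk' (cU0 p z τ) (by
    intro φ ψ
    apply MultilinearMap.ext
    intro v
    rw [cU0_apply]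
    change (φ + ψ) _ = cU0 p z τ φ v + cU0 p z τ ψ v
    rw [cU0_apply, cU0_apply]
    rfl)

@[simp] theorem cU_apply (z : Γ) (τ : Γ →* AddMonoid.End F) (φ : MM p F A) (v : Fin p → F) :
    cU p z τ φ v = φ (sg p z τ v) := cU0_apply p z τ φ v

open Classical in
/-- The number of components in the subgroup `K`. -/
noncomputable def cnt {p : ℕ} (K : AddSubgroup F) (v : Fin p → F) : ℕ :=
  (univ.filter (fun i => v i ∈ K)).card

variable (A) in
/-- The multiadditive maps which vanish if at least `j` arguments are in `K`. -/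
def Fil (K : AddSubgroup F) (j : ℕ) : AddSubgroup (MM p F A) where
  carrier := {φ | ∀ v : Fin p → F, j ≤ cnt K v → φ v = 0}
  add_mem' := by
    intro φ ψ h1 h2 v hv
    rw [add_apply, h1 v hv, h2 v hv, add_zero]
  zero_mem' := fun v _ => rfl
  neg_mem' := by
    intro φ h1 v hv
    rw [neg_apply, h1 v hv, neg_zero]

theorem mem_Fil {K : AddSubgroup F} {j : ℕ} {φ : MM p F A} :
    φ ∈ Fil p A K j ↔ ∀ v : Fin p → F, j ≤ cnt K v → φ v = 0 := Iff.rfl

/-- The acyclicity statement for the tensor power of the `Γ`-module `F`. -/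
def QQ {C : Type*} [AddCommGroup C] [Module (MonoidAlgebra ℤ Γ) C] (z : Γ) (T : C →+ C)
    (τ : Γ →* AddMonoid.End F) (ρ : Γ →* AddMonoid.End A) : Prop :=
  Ac p T (rU p τ ρ) (cU p z τ) (⊤ : AddSubgroup (MM p F A)) ⊥

end multi

end Pool.Agent.Helper39.DB
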