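import Pool.Agent.Helper39.DB.Defs

/-!
# Project DB (MP_dbae29_al): restriction to subgroups, systems for one central element, coefficients

* `Res H C`: the module `C` over the group ring of the subgroup `H`; `resG G H` the restricted graded
  resolution, `resS S hz` the restricted system of higher homotopies.
* `HSys G z`: higher homotopies `h k` (`k : ℕ`) for one element `z`, `S.T = ∑ h k` with
  `S.T (S.T x) = z x - x` (`HSys.curv`).
* `Rt p z`: the set of the `p`-th roots of `z` in `Γ`; `CF p z M` the functions `Rt p z → M`, with the action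
  `rR` by conjugation, `CQ p z M` its quotient by the constant functions, with the action `rQ`.
-/

set_option autoImplicit false

namespace Pool.Agent.Helper39.DB

open Finset Pool.Agent.Helper27.Mess
open scoped IsMulCommutative

universe u v w

section res

variable {Γ : Type u} [Group Γ]

/-- The restriction of the module `C` to the subgroup `H`. -/
def Res (_H : Subgroup Γ) (C : Type v) : Type v := C

variable {C : Type v} [AddCommGroup C] [Module (MonoidAlgebra ℤ Γ) C] (H : Subgroup Γ)

instance instAddRes : AddCommGroup (Res H C) := inferInstanceAs (AddCommGroup C)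

noncomputable instance instModRes : Module (MonoidAlgebra ℤ H) (Res H C) :=
  Module.compHom C (MonoidAlgebra.mapDomainRingHom ℤ H.subtype)

/-- The identity map. -/
def toRes : C ≃+ Res H C := AddEquiv.refl C

theorem smul_toRes (s : MonoidAlgebra ℤ H) (x : C) :
    s • toRes H x = toRes H (MonoidAlgebra.mapDomainRingHom ℤ H.subtype s • x) := rfl

theorem act_toRes (h : H) (x : C) : act h (toRes H x) = toRes H (act (h : Γ) x) := by
  rw [act_def, act_def, smul_toRes]
  congr 2
  simp

/-- The restriction of a linear map. -/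
noncomputable def resL (f : C →ₗ[MonoidAlgebra ℤ Γ] C) : Res H C →ₗ[MonoidAlgebra ℤ H] Res H C where
  toFun x := toRes H (f ((toRes H).symm x))
  map_add' x y := by
    rw [map_add, map_add, map_add]
  map_smul' s x := by
    change toRes H (f (MonoidAlgebra.mapDomainRingHom ℤ H.subtype s • (toRes H).symm x)) = _
    rw [map_smul]
    rfl

theorem resL_apply (f : C →ₗ[MonoidAlgebra ℤ Γ] C) (x : C) :
    resL H f (toRes H x) = toRes H (f x) := rfl

/-- The restriction of a graded resolution. -/
noncomputable def resG (G : GrRes Γ C) : GrRes H (Res H C) where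
  n := G.n
  π i := resL H (G.π i)
  π_self i x := G.π_self i ((toRes H).symm x)
  π_ne i j x hij := G.π_ne i j ((toRes H).symm x) hij
  π_neg i x hi := G.π_neg i ((toRes H).symm x) hi
  π_big i x hi := G.π_big i ((toRes H).symm x) hi
  π_sum x := G.π_sum ((toRes H).symm x)
  d := resL H G.d
  d_π i x := G.d_π i ((toRes H).symm x)
  ε := G.ε.comp (toRes H).symm.toAddMonoidHom
  ε_act g x := by
    have h := act_toRes H g ((toRes H).symm x)
    rw [AddEquiv.apply_symm_apply] at h
    rw [h]
    exact G.ε_act (g : Γ) ((toRes H).symm x)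
  ε_π x := G.ε_π ((toRes H).symm x)
  ε_surj := G.ε_surj.comp (toRes H).symm.surjective
  exact x := G.exact ((toRes H).symm x)

theorem resG_ε (G : GrRes Γ C) (x : C) : (resG H G).ε (toRes H x) = G.ε x := rfl

theorem resG_n (G : GrRes Γ C) : (resG H G).n = G.n := rfl

end res

section hsys

variable {Γ : Type u} [Group Γ] {C : Type v} [AddCommGroup C] [Module (MonoidAlgebra ℤ Γ) C]

/-- Higher homotopies for one central element. -/
structure HSys (G : GrRes Γ C) (z : Γ) where
  /-- the higher homotopies -/
  h : ℕ → (C →ₗ[MonoidAlgebra ℤ Γ] C)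
  /-- they vanish after this index -/
  K : ℕ
  h_out : ∀ k, K < k → h k = 0
  h_zero : h 0 = G.d
  h_deg : ∀ k i x, h k (G.π i x) = G.π (i + 2 * (k : ℤ) - 1) (h k x)
  rel : ∀ k x, ∑ q ∈ antidiagonal k, h q.1 (h q.2 x) = if k = 1 then act z x - x else 0

variable {G : GrRes Γ C} {z : Γ}

/-- The sum of the higher homotopies. -/
noncomputable def HSys.T (S : HSys G z) : C →+ C :=
  ∑ k ∈ range (S.K + 1), (S.h k).toAddMonoidHom

theorem HSys.T_apply (S : HSys G z) (x : C) : S.T x = ∑ k ∈ range (S.K + 1), S.h k x := by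
  simp [HSys.T, AddMonoidHom.finsetSum_apply]

/-- A bound which is large enough can be used instead of `S.K`. -/
theorem HSys.T_apply_of_le (S : HSys G z) {L : ℕ} (hL : S.K ≤ L) (x : C) :
    S.T x = ∑ k ∈ range (L + 1), S.h k x := by
  rw [S.T_apply]
  refine Finset.sum_subset (range_mono (by omega)) ?_
  intro k _ hk
  rw [mem_range] at hk
  rw [S.h_out k (by omega)]
  rfl

theorem HSys.curv (S : HSys G z) : Curv z S.T where
  equiv g x := by
    rw [S.T_apply, S.T_apply, act_sum]
    exact sum_congr rfl fun k _ => map_act _ _ _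
  sq x := by
    have h1 : S.T (S.T x) = ∑ k ∈ range (2 * S.K + 2), ∑ q ∈ antidiagonal k,
        S.h q.1 (S.h q.2 x) := by
      have h2 : ∀ y, S.T y = ∑ k ∈ range (2 * S.K + 2), S.h k y := fun y =>
        S.T_apply_of_le (L := 2 * S.K + 1) (by omega) y
      rw [h2, Finset.sum_congr rfl fun k _ => by rw [S.T_apply_of_le (le_refl S.K) x, map_sum]]
      rw [Finset.sum_sigma']
      rw [Finset.sum_sigma']
      symm
      refine Finset.sum_bij_ne_zero (fun p _ _ => (⟨p.2.1, p.2.2⟩ : Σ _ : ℕ, ℕ)) ?_ ?_ ?_ ?_
      · intro p hp hne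
        rw [mem_sigma, mem_range, HasAntidiagonal.mem_antidiagonal] at hp
        have h3 : p.2.2 ≤ S.K := by
          by_contra hcon
          apply hne
          rw [S.h_out p.2.2 (by omega)]
          simp
        rw [mem_sigma, mem_range, mem_range]
        constructor
        · change p.2.1 < _
          omega
        · change p.2.2 < _
          omega
      · intro p hp _ q hq _ he
        rw [mem_sigma, mem_range, HasAntidiagonal.mem_antidiagonal] at hp hq
        obtain ⟨p1, p2, p3⟩ := p
        obtain ⟨q1, q2, q3⟩ := q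
        simp only [Sigma.mk.injEq, heq_eq_eq] at he
        obtain ⟨rfl, rfl⟩ := he
        have : p1 = q1 := by
          have e1 := hp.2
          have e2 := hq.2
          simp only at e1 e2
          omega
        subst this
        rfl
      · intro p hp hne
        rw [mem_sigma, mem_range, mem_range] at hp
        have h3 : p.1 ≤ S.K := by
          by_contra hcon
          apply hne
          rw [S.h_out p.1 (by omega)]
          simp
        refine ⟨⟨p.1 + p.2, (p.1, p.2)⟩, ?_, hne, rfl⟩
        rw [mem_sigma, mem_range, HasAntidiagonal.mem_antidiagonal]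
        refine ⟨?_, rfl⟩
        change p.1 + p.2 < _
        omega
      · intro p _ _
        rfl
    rw [h1, Finset.sum_congr rfl fun k _ => S.rel k x, Finset.sum_ite_eq', if_pos]
    rw [mem_range]
    omega

/-- The restriction of a system of higher homotopies to a subgroup containing `z`. -/
noncomputable def resS (S : HSys G z) {H : Subgroup Γ} (hz : z ∈ H) :
    HSys (resG H G) (⟨z, hz⟩ : H) where
  h k := resL H (S.h k)
  K := S.K
  h_out k hk := by
    rw [S.h_out k hk]
    rfl
  h_zero := by
    rw [S.h_zero]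
    rfl
  h_deg k i x := S.h_deg k i ((toRes H).symm x)
  rel k x := by
    have h := S.rel k ((toRes H).symm x)
    have h2 := act_toRes H ⟨z, hz⟩ ((toRes H).symm x)
    rw [AddEquiv.apply_symm_apply] at h2
    rw [h2]
    have h3 := congrArg (toRes H) h
    rw [map_sum] at h3
    rw [apply_ite (toRes H)] at h3
    exact h3

theorem resS_T (S : HSys G z) {H : Subgroup Γ} (hz : z ∈ H) (x : C) :
    (resS S hz).T (toRes H x) = toRes H (S.T x) := by
  rw [HSys.T_apply, HSys.T_apply, map_sum]
  rfl

end hsys

section coef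

variable {Γ : Type u} [Group Γ] (p : ℕ) (z : Γ) (M : Type w) [AddCommGroup M]

/-- The `p`-th roots of `z`. -/
def Rt : Type u := {g : Γ // g ^ p = z}

variable {p z}

theorem Rt_conj (hz : ∀ g : Γ, g * z = z * g) (γ : Γ) (s : Rt p z) :
    (γ⁻¹ * s.1 * γ) ^ p = z := by
  have h : (γ⁻¹ * s.1 * γ) ^ p = γ⁻¹ * s.1 ^ p * γ := by
    have := conj_pow (a := γ⁻¹) (b := s.1) (i := p)
    rwa [inv_inv] at this
  rw [h, s.2, mul_assoc, ← hz γ, inv_mul_cancel_left]

/-- Conjugation of roots. -/
def cj (hz : ∀ g : Γ, g * z = z * g) (γ : Γ) (s : Rt p z) : Rt p z :=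
  ⟨γ⁻¹ * s.1 * γ, Rt_conj hz γ s⟩

variable (p z)

/-- The functions on the set of roots. -/
abbrev CF : Type (max u w) := Rt p z → M

variable {p z}

/-- The action on the functions on the set of roots: `(γ f) (s) = f (γ⁻¹ s γ)`. -/
def rR (hz : ∀ g : Γ, g * z = z * g) : Γ →* AddMonoid.End (CF p z M) where
  toFun γ :=
    { toFun := fun f s => f (cj hz γ s)
      map_zero' := rfl
      map_add' := fun _ _ => rfl }
  map_one' := by
    apply AddMonoidHom.ext
    intro f
    funext s
    change f (cj hz 1 s) = f s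
    congr 1
    apply Subtype.ext
    change (1 : Γ)⁻¹ * s.1 * 1 = s.1
    rw [inv_one, one_mul, mul_one]
  map_mul' γ δ := by
    apply AddMonoidHom.ext
    intro f
    funext s
    change f (cj hz (γ * δ) s) = f (cj hz δ (cj hz γ s))
    congr 1
    apply Subtype.ext
    change (γ * δ)⁻¹ * s.1 * (γ * δ) = δ⁻¹ * (γ⁻¹ * s.1 * γ) * δ
    group

theorem rR_apply (hz : ∀ g : Γ, g * z = z * g) (γ : Γ) (f : CF p z M) (s : Rt p z) :
    rR M hz γ f s = f (cj hz γ s) := rfl

variable (p z) in
/-- The constant functions. -/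
def cns : AddSubgroup (CF p z M) where
  carrier := {f | ∃ m : M, ∀ s, f s = m}
  add_mem' := by
    rintro f g ⟨m, hm⟩ ⟨m', hm'⟩
    exact ⟨m + m', fun s => by rw [Pi.add_apply, hm, hm']⟩
  zero_mem' := ⟨0, fun _ => rfl⟩
  neg_mem' := by
    rintro f ⟨m, hm⟩
    exact ⟨-m, fun s => by rw [Pi.neg_apply, hm]⟩

theorem mem_cns {f : CF p z M} : f ∈ cns p z M ↔ ∃ m : M, ∀ s, f s = m := Iff.rfl

theorem cns_le (hz : ∀ g : Γ, g * z = z * g) (γ : Γ) :
    cns p z M ≤ (cns p z M).comap (rR M hz γ) := by
  rintro f ⟨m, hm⟩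
  exact ⟨m, fun s => hm _⟩

variable (p z) in
/-- The functions modulo the constant functions. -/
abbrev CQ : Type (max u w) := CF p z M ⧸ cns p z M

/-- The action on `CQ`. -/
def rQ (hz : ∀ g : Γ, g * z = z * g) : Γ →* AddMonoid.End (CQ p z M) where
  toFun γ := QuotientAddGroup.map _ _ (rR M hz γ) (cns_le M hz γ)
  map_one' := by
    apply AddMonoidHom.ext
    intro x
    obtain ⟨f, rfl⟩ := QuotientAddGroup.mk_surjective x
    change ((rR M hz 1 f : CF p z M) : CQ p z M) = _
    rw [map_one]
    rfl
  map_mul' γ δ := by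
    apply AddMonoidHom.ext
    intro x
    obtain ⟨f, rfl⟩ := QuotientAddGroup.mk_surjective x
    change ((rR M hz (γ * δ) f : CF p z M) : CQ p z M) = _
    rw [map_mul]
    rfl

theorem rQ_mk (hz : ∀ g : Γ, g * z = z * g) (γ : Γ) (f : CF p z M) :
    rQ M hz γ (f : CQ p z M) = ((rR M hz γ f : CF p z M) : CQ p z M) := rfl

end coef

end Pool.Agent.Helper39.DB
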