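import Pool.Agent.Helper39.DB.Defs
import Pool.Agent.Helper81.Mess.ExistsBasis

/-!
# DB-19 (project DB): from all powers of `p` to the integers

Let `R`, `c`, `A` be from `exists_basis`; `Ivt Γ f` is membership in `Inv ⊤ C O`. `Mx i l = A (T (c i)) l` (an integer matrix), `w i = ε (c i)`. For an
invariant `φ : C → O`, `v i = φ (c i)`: `φ (T (c i)) = ∑ l, Mx i l * v l`, and an invariant functional is determined by its values on the `c i`
(`φ ∘ T` is invariant, since `T` commutes with the action). So for every `s` the vector `p ^ e • w` is in `Mx ℤ^R + p ^ s ℤ^R` (lift `v` to integers,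
`ZMod.intCast_zmod_eq_zero_iff_dvd`). In `Q = (Fin R → ℤ) ⧸ (range of Mx)` the class of `p ^ e • w` is in `⨅ s, (p)^s • ⊤`, so by Krull's intersection theorem
(`Ideal.mem_iInf_smul_pow_eq_bot_iff`) there is `r ∈ (p)` with `r • x = x`: `(1 - r) p ^ e • w ∈ Mx ℤ^R`, `1 - r ≠ 0` as `p` does not divide `1`. The second part of
`exists_basis` gives the functional `φ` with these values on the `c i`.
-/

set_option autoImplicit false

namespace Pool.Agent.Helper39.DB

open Finset Pool.Agent.Helper27.Mess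
open scoped IsMulCommutative

universe u v

theorem krull {Γ : Type u} [Group Γ] {C : Type v} [AddCommGroup C] [Module (MonoidAlgebra ℤ Γ) C]
    [Module.Finite (MonoidAlgebra ℤ Γ) C] [Module.Projective (MonoidAlgebra ℤ Γ) C]
    (G : GrRes Γ C) (T : C →+ C) (hT : ∀ (g : Γ) (x : C), T (act g x) = act g (T x)) {p : ℕ}
    (hp : p.Prime) (e : ℕ) (h : ∀ s : ℕ, ∃ φ : C →+ ZMod (p ^ s), Ivt Γ φ ∧
      ∀ x, φ (T x) = G.ε x • ((p : ZMod (p ^ s)) ^ e)) :
    ∃ (N : ℤ) (φ : C →+ ℤ), N ≠ 0 ∧ Ivt Γ φ ∧ ∀ x, φ (T x) = G.ε x • N := by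
  classical
  obtain ⟨R, c, A, hA, hV⟩ := exists_basis.{u, v, 0} (Γ := Γ) (C := C)
  have hmem : ∀ (O : Type) [CommRing O] (f : C →+ O), Ivt Γ f → f ∈ Inv (⊤ : Subgroup Γ) C O :=
    fun O _ f hf g _ x => hf g x
  set L : (Fin R → ℤ) →ₗ[ℤ] (Fin R → ℤ) :=
    Matrix.mulVecLin (Matrix.of fun i l => A (T (c i)) l) with hL
  have hLapp : ∀ V i, L V i = ∑ l, A (T (c i)) l * V l := by
    intro V i
    simp [hL, Matrix.mulVec, dotProduct]
  set w : Fin R → ℤ := fun i => G.ε (c i) * (p : ℤ) ^ e with hw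
  -- for every `s` the vector `w` is in the range of `L` modulo `p ^ s`
  have hs : ∀ s : ℕ, ∃ V y : Fin R → ℤ, w = L V + (p : ℤ) ^ s • y := by
    intro s
    obtain ⟨φ, hφ, hφT⟩ := h s
    have h1 : ∀ i, ∃ V : ℤ, ((V : ℤ) : ZMod (p ^ s)) = φ (c i) := fun i =>
      ZMod.intCast_surjective (φ (c i))
    choose V hVV using h1
    have h2 : ∀ i, ((p ^ s : ℕ) : ℤ) ∣ w i - L V i := by
      intro i
      rw [← ZMod.intCast_zmod_eq_zero_iff_dvd _ (p ^ s)]
      have h3 := hA (ZMod (p ^ s)) φ (hmem _ φ hφ) (T (c i))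
      rw [hφT] at h3
      rw [hLapp, hw]
      push_cast
      simp_rw [hVV]
      rw [← h3]
      simp
    choose y hy using h2
    refine ⟨V, y, ?_⟩
    funext i
    rw [Pi.add_apply, Pi.smul_apply, smul_eq_mul]
    have := hy i
    push_cast at this
    linarith
  set Q := (Fin R → ℤ) ⧸ LinearMap.range L with hQ
  set x : Q := Submodule.Quotient.mk w with hx
  set I : Ideal ℤ := Ideal.span {(p : ℤ)} with hI
  have hxmem : x ∈ (⨅ i : ℕ, I ^ i • ⊤ : Submodule ℤ Q) := by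
    rw [Submodule.mem_iInf]
    intro s
    obtain ⟨V, y, hVy⟩ := hs s
    have h4 : x = (p : ℤ) ^ s • (Submodule.Quotient.mk y : Q) := by
      rw [hx, hVy, ← Submodule.Quotient.mk_smul, Submodule.Quotient.eq, add_sub_cancel_right]
      exact ⟨V, rfl⟩
    rw [h4]
    refine Submodule.smul_mem_smul ?_ Submodule.mem_top
    exact Ideal.pow_mem_pow (Ideal.mem_span_singleton_self _) s
  obtain ⟨⟨r, hr⟩, hrx⟩ := (Ideal.mem_iInf_smul_pow_eq_bot_iff I x).1 hxmem
  have hrx' : (r • w : Fin R → ℤ) - w ∈ LinearMap.range L := by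
    rw [← Submodule.Quotient.eq, Submodule.Quotient.mk_smul]
    exact hrx
  have hr1 : (1 - r : ℤ) ≠ 0 := by
    intro h0
    rw [hI, Ideal.mem_span_singleton] at hr
    have h1 : r = 1 := by linarith
    rw [h1] at hr
    exact (Nat.prime_iff_prime_int.1 hp).not_unit (isUnit_of_dvd_one hr)
  have hV0 : ∃ V : Fin R → ℤ, L V = (1 - r) • w := by
    obtain ⟨V, hVV⟩ := hrx'
    refine ⟨-V, ?_⟩
    rw [map_neg, hVV, sub_smul, one_smul]
    abel
  obtain ⟨V, hLV⟩ := hV0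
  obtain ⟨φ, hφinv, hφV⟩ := hV ℤ V
  have hφI : Ivt Γ φ := fun g x => hφinv g (Subgroup.mem_top g) x
  have hp0 : (p : ℤ) ≠ 0 := by
    exact_mod_cast hp.ne_zero
  refine ⟨(1 - r) * (p : ℤ) ^ e, φ, mul_ne_zero hr1 (pow_ne_zero _ hp0), hφI, ?_⟩
  have hφT : φ.comp T ∈ Inv (⊤ : Subgroup Γ) C ℤ := by
    intro g _ x
    rw [AddMonoidHom.comp_apply, AddMonoidHom.comp_apply, hT, hφI]
  have hεN : (G.εO ℤ) ∈ Inv (⊤ : Subgroup Γ) C ℤ := G.εO_mem ℤ
  intro y
  have h5 := hA ℤ _ hφT y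
  have h6 := hA ℤ _ hεN y
  have h7 : ∀ i, φ (T (c i)) = G.ε (c i) * ((1 - r) * (p : ℤ) ^ e) := by
    intro i
    have h8 := hA ℤ φ hφinv (T (c i))
    rw [h8]
    have h9 := congrFun hLV i
    rw [hLapp, Pi.smul_apply, smul_eq_mul, hw] at h9
    simp only [Int.cast_id]
    simp_rw [hφV]
    rw [h9]
    ring
  simp only [AddMonoidHom.comp_apply, Int.cast_id, GrRes.εO_apply] at h5 h6
  rw [h5, smul_eq_mul, h6, Finset.sum_mul]
  refine Finset.sum_congr rfl fun i _ => ?_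
  rw [h7]
  ring

end Pool.Agent.Helper39.DB
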