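import Pool.Agent.Helper39.DB.Claim
import Pool.Agent.Helper39.DB.Krull
import Pool.Agent.Helper27.Mess.Final

/-!
# DB-20 (project DB): the theorem

Let `C`, `G` be from `exists_grRes`, `a = fun _ : Fin 1 => ⟨z, hz⟩`, `S : DSys G a` (`exists_dSys`), `S'` from `hsys_of_dsys`. By `claim` and `krull` there are `N ≠ 0` and
`φ` invariant with `φ (S'.T x) = ε x • N`. For `m : ℤ`, `scale_up` (`M = ℤ`, `e = N`) gives `ψ` with `S.D (fun _ => m) ψ = (N * m ^ (n + 1)) • ε`.
`root_lemma`: if `t ≠ 1` (so of infinite order by `torsion_free`), `t ^ q = z ^ m`, `q > 0`, then `q ∣ N * m ^ (n + 1)` (the product over `Fin 1` is `z ^ m`).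
* first part: `m = 1` (`t ≠ 1` as `z ≠ 1`: `hroot 1`). `B = |N|`.
* second part: `center_fg_of_bound` (Helper27/Mess/Final.lean) with `root_order_dvd` (`B j = N`, exponent `n + 1`); `z` has infinite order; `pr a m = z ^ (m 0)`.
-/

set_option autoImplicit false

namespace Pool.Agent.Helper39.DB

open Finset Pool.Agent.Helper27.Mess
open scoped IsMulCommutative

universe u

theorem roots_main (Γ : Type u) [Group Γ] (hΓ : IsTypeFP Γ) (p k : ℕ) (hp : p.Prime) (z : Γ)
    (hz : z ∈ Subgroup.center Γ) (hroot : ∀ t : Γ, t ^ p ^ k ≠ z) :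
    (∃ B : ℕ, 0 < B ∧ ∀ (t : Γ) (q : ℕ), 0 < q → t ^ q = z → q ∣ B) ∧
    ((∀ w ∈ Subgroup.center Γ, ∃ q : ℕ, 0 < q ∧ w ^ q ∈ Subgroup.zpowers z) →
      (Subgroup.center Γ).FG ∧
        ∃ B : ℕ, 0 < B ∧ ∀ t : Γ, (∃ q : ℕ, 0 < q ∧ t ^ q ∈ Subgroup.center Γ) →
          t ^ B ∈ Subgroup.center Γ) := by
  classical
  obtain ⟨R⟩ := hΓ
  obtain ⟨C, _, _, hfin, hproj, ⟨G⟩⟩ := exists_grRes Γ R
  have htf : ∀ (t : Γ) (q : ℕ), 0 < q → t ^ q = 1 → t = 1 := fun t q hq ht =>
    torsion_free G t q hq ht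
  have hz1 : z ≠ 1 := by
    intro h
    exact hroot 1 (by rw [one_pow, h])
  obtain ⟨S⟩ := exists_dSys G (fun _ : Fin 1 => (⟨z, hz⟩ : Subgroup.center Γ))
  obtain ⟨S', hS'⟩ := hsys_of_dsys S
  change HSys G z at S'
  obtain ⟨N, φ, hN, hφ, hφT⟩ := krull G S'.T S'.curv.equiv hp (k * (G.n + 1))
    (fun s => claim hp k Γ C G z hz S' hroot s)
  have hdiv : ∀ (t : Γ) (q : ℕ) (m : Fin 1 → ℤ), 0 < q →
      t ^ q = (pr (fun _ : Fin 1 => (⟨z, hz⟩ : Subgroup.center Γ)) m : Γ) → t ≠ 1 →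
      ∀ j : Fin 1, (q : ℤ) ∣ N * m j ^ (G.n + 1) := by
    intro t q m hq htq ht j
    obtain ⟨ψ, hψ, hψS⟩ := scale_up S' φ hφ N hφT (m j)
    have hm : (fun _ : Fin 1 => m j) = m := by
      funext i
      rw [Subsingleton.elim i j]
    refine root_lemma S t (fun l hl h => ht (htf t l hl h)) q hq m htq _ ψ
      (fun g _ x => hψ g x) ?_
    apply AddMonoidHom.ext
    intro x
    have h1 := hS' (m j) ψ x
    rw [hm] at h1
    rw [h1]
    have h2 := hψS x
    simp only [smul_eq_mul] at h2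
    rw [h2, AddMonoidHom.smul_apply, smul_eq_mul]
    ring
  have hpr : ∀ m : ℤ, (pr (fun _ : Fin 1 => (⟨z, hz⟩ : Subgroup.center Γ)) (fun _ => m) : Γ) =
      z ^ m := by
    intro m
    simp [pr]
  have hzinf : ∀ m : ℤ, z ^ m = 1 → m = 0 := by
    intro m hm
    by_contra hne
    have h1 : z ^ m.natAbs = 1 := by
      rcases Int.natAbs_eq m with h | h
      · rw [h, zpow_natCast] at hm
        exact hm
      · rw [h, zpow_neg, zpow_natCast, inv_eq_one] at hm
        exact hm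
    exact hz1 (htf z _ (Int.natAbs_pos.2 hne) h1)
  refine ⟨⟨N.natAbs, Int.natAbs_pos.2 hN, ?_⟩, ?_⟩
  · intro t q hq htq
    have ht : t ≠ 1 := by
      intro h
      apply hz1
      rw [← htq, h, one_pow]
    have h1 := hdiv t q (fun _ => 1) hq (by rw [hpr, zpow_one]; exact htq) ht 0
    rw [one_pow, mul_one] at h1
    exact Int.natCast_dvd.1 h1
  · intro hall
    refine center_fg_of_bound htf (fun _ : Fin 1 => (⟨z, hz⟩ : Subgroup.center Γ)) ?_ ?_
      (∏ _j : Fin 1, N.natAbs) (Finset.prod_pos fun _ _ => Int.natAbs_pos.2 hN) ?_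
    · intro m hm
      have h1 : z ^ m 0 = 1 := by
        have h2 := congrArg Subtype.val hm
        simpa using h2
      funext j
      rw [Subsingleton.elim j 0, hzinf _ h1]
      rfl
    · intro t
      obtain ⟨q, hq, hmem⟩ := hall t t.2
      obtain ⟨m, hm⟩ := Subgroup.mem_zpowers_iff.1 hmem
      refine ⟨q, hq, fun _ => m, Subtype.ext ?_⟩
      rw [hpr, hm]
      simp
    · intro t q hq m htq hmin
      exact root_order_dvd htf _ (fun _ => N) (fun _ => G.n + 1) hdiv t q hq m htq hmin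

end Pool.Agent.Helper39.DB
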