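import Pool.Agent.Helper39.DB.Defs
import Pool.Agent.Helper10.Mess.Lift

/-!
# DB-01 (project DB): lifting of equivariant maps

Both follow from `equivariant_lift` (Helper10/Mess/Lift.lean) for the subgroup `H = ⊤`; it wants
`DistribMulAction H M` instances: use `letI : DistribMulAction (⊤ : Subgroup Γ) U := { smul g u := ρ g u, ... }`
(a private reducible definition depending on `ρ` is convenient).

* `lift_surj`: immediate.
* `lift_rel`: `U' = ↥U1 ⧸ U0.addSubgroupOf U1`, with the induced actions (`QuotientAddGroup.map`); the map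
  `x ↦ [f x]` is additive and equivariant by `hfe`; lift it along the surjection `↥U1 → U'` with
  `lift_surj` and compose with the inclusion `↥U1 → U`; `QuotientAddGroup.eq` and
  `AddSubgroup.mem_addSubgroupOf` give `α x - f x ∈ U0`.
-/

set_option autoImplicit false

namespace Pool.Agent.Helper39.DB

open Finset Pool.Agent.Helper27.Mess
open scoped IsMulCommutative

variable {Γ : Type*} [Group Γ] {C : Type*} [AddCommGroup C] [Module (MonoidAlgebra ℤ Γ) C]

/-- an action as an instance for the whole group -/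
@[reducible] private def lrAct {U : Type*} [AddCommGroup U] (ρ : Γ →* AddMonoid.End U) :
    DistribMulAction (⊤ : Subgroup Γ) U where
  smul g u := ρ (g : Γ) u
  one_smul u := by
    change ρ ((1 : (⊤ : Subgroup Γ)) : Γ) u = u
    rw [Subgroup.coe_one, map_one]
    rfl
  mul_smul g h u := by
    change ρ ((g * h : (⊤ : Subgroup Γ)) : Γ) u = ρ (g : Γ) (ρ (h : Γ) u)
    rw [Subgroup.coe_mul, map_mul]
    rfl
  smul_zero g := map_zero (ρ (g : Γ))
  smul_add g u v := map_add (ρ (g : Γ)) u v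

/-- restriction of an action to a stable subgroup -/
private def lrS {U : Type*} [AddCommGroup U] (ρ : Γ →* AddMonoid.End U) (U1 : AddSubgroup U)
    (h1 : ∀ (g : Γ), ∀ u ∈ U1, ρ g u ∈ U1) : Γ →* AddMonoid.End U1 where
  toFun g :=
    { toFun := fun u => ⟨ρ g (u : U), h1 g u u.2⟩
      map_zero' := Subtype.ext (map_zero (ρ g))
      map_add' := fun u v => Subtype.ext (map_add (ρ g) (u : U) (v : U)) }
  map_one' := by
    apply AddMonoidHom.ext
    intro u
    apply Subtype.ext
    change ρ 1 (u : U) = u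
    rw [map_one]
    rfl
  map_mul' g k := by
    apply AddMonoidHom.ext
    intro u
    apply Subtype.ext
    change ρ (g * k) (u : U) = ρ g (ρ k (u : U))
    rw [map_mul]
    rfl

/-- the action on the quotient of two stable subgroups -/
private def lrQ {U : Type*} [AddCommGroup U] (ρ : Γ →* AddMonoid.End U) (U1 U0 : AddSubgroup U)
    (h1 : ∀ (g : Γ), ∀ u ∈ U1, ρ g u ∈ U1) (h0 : ∀ (g : Γ), ∀ u ∈ U0, ρ g u ∈ U0) :
    Γ →* AddMonoid.End (U1 ⧸ U0.addSubgroupOf U1) where
  toFun g := QuotientAddGroup.map (U0.addSubgroupOf U1) (U0.addSubgroupOf U1) (lrS ρ U1 h1 g) (by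
    intro u hu
    exact h0 g (u : U) hu)
  map_one' := by
    apply AddMonoidHom.ext
    intro x
    induction x using QuotientAddGroup.induction_on with
    | H u =>
      change (QuotientAddGroup.mk (lrS ρ U1 h1 1 u) : U1 ⧸ U0.addSubgroupOf U1) =
        QuotientAddGroup.mk u
      rw [map_one]
      rfl
  map_mul' g k := by
    apply AddMonoidHom.ext
    intro x
    induction x using QuotientAddGroup.induction_on with
    | H u =>
      change (QuotientAddGroup.mk (lrS ρ U1 h1 (g * k) u) : U1 ⧸ U0.addSubgroupOf U1) =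
        QuotientAddGroup.mk (lrS ρ U1 h1 g (lrS ρ U1 h1 k u))
      rw [map_mul]
      rfl

theorem lift_surj [Module.Projective (MonoidAlgebra ℤ Γ) C] {U U' : Type*} [AddCommGroup U]
    [AddCommGroup U'] (ρ : Γ →* AddMonoid.End U) (ρ' : Γ →* AddMonoid.End U') (π : U →+ U')
    (hπ : Function.Surjective π) (hπe : ∀ (g : Γ) (u : U), π (ρ g u) = ρ' g (π u)) (f : C →+ U')
    (hf : Eqv ρ' f) : ∃ F : C →+ U, Eqv ρ F ∧ ∀ x, π (F x) = f x := by
  letI := lrAct ρ
  letI := lrAct ρ'
  obtain ⟨F, hF1, hF2⟩ := equivariant_lift (⊤ : Subgroup Γ) π hπ (fun g m => hπe g m) f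
    (fun g x => hf g x)
  exact ⟨F, fun g x => hF1 ⟨g, Subgroup.mem_top g⟩ x, hF2⟩

theorem lift_rel [Module.Projective (MonoidAlgebra ℤ Γ) C] {U : Type*} [AddCommGroup U]
    (ρ : Γ →* AddMonoid.End U) (U1 U0 : AddSubgroup U) (h01 : U0 ≤ U1)
    (h1 : ∀ (g : Γ), ∀ u ∈ U1, ρ g u ∈ U1) (h0 : ∀ (g : Γ), ∀ u ∈ U0, ρ g u ∈ U0) (f : C →+ U)
    (hf : ∀ x, f x ∈ U1) (hfe : ∀ (g : Γ) (x : C), f (act g x) - ρ g (f x) ∈ U0) :
    ∃ α : C →+ U, Eqv ρ α ∧ (∀ x, α x ∈ U1) ∧ ∀ x, α x - f x ∈ U0 := by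
  let f1 : C →+ U1 := AddMonoidHom.mk' (fun x => ⟨f x, hf x⟩)
    (fun x y => Subtype.ext (map_add f x y))
  let fq : C →+ (U1 ⧸ U0.addSubgroupOf U1) := (QuotientAddGroup.mk' (U0.addSubgroupOf U1)).comp f1
  have hfq : Eqv (lrQ ρ U1 U0 h1 h0) fq := by
    intro g x
    change (QuotientAddGroup.mk (f1 (act g x)) : U1 ⧸ U0.addSubgroupOf U1) =
      QuotientAddGroup.mk (lrS ρ U1 h1 g (f1 x))
    rw [QuotientAddGroup.eq, AddSubgroup.mem_addSubgroupOf]
    change -(f (act g x)) + ρ g (f x) ∈ U0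
    have h2 : -(f (act g x)) + ρ g (f x) = -(f (act g x) - ρ g (f x)) := by abel
    rw [h2]
    exact U0.neg_mem (hfe g x)
  obtain ⟨F, hF1, hF2⟩ := lift_surj (lrS ρ U1 h1) (lrQ ρ U1 U0 h1 h0)
    (QuotientAddGroup.mk' (U0.addSubgroupOf U1)) (QuotientAddGroup.mk'_surjective _)
    (fun g u => rfl) fq hfq
  refine ⟨U1.subtype.comp F, ?_, fun x => (F x).2, ?_⟩
  · intro g x
    exact congrArg Subtype.val (hF1 g x)
  · intro x
    have h2 := hF2 x
    change (QuotientAddGroup.mk (F x) : U1 ⧸ U0.addSubgroupOf U1) = QuotientAddGroup.mk (f1 x) at h2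
    rw [QuotientAddGroup.eq, AddSubgroup.mem_addSubgroupOf] at h2
    change -(F x : U) + f x ∈ U0 at h2
    have h3 : (U1.subtype.comp F) x - f x = -(-(F x : U) + f x) := by
      change (F x : U) - f x = _
      abel
    rw [h3]
    exact U0.neg_mem h2

end Pool.Agent.Helper39.DB
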