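import Pool.Agent.Helper39.DB.Core
import Pool.Agent.Helper39.DB.Coef
import Pool.Agent.Helper39.DB.LiftR
import Pool.Agent.Helper26.Mess.TorsionFree

/-!
# DB-13 (project DB): localisation at the roots of `z`

`M` an abelian group killed by `p ^ s`, `pM = {p • m}` (the range of multiplication by `p`, an `AddSubgroup M`), `M / pM` is killed by `p` and `pM` by
`p ^ (s - 1)`. `Ivt Γ f` is `Eqv 1 f`. `torsion_free G` gives `htf`. Induction on `s` generalizing `M` (all `M` in the universe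
`w`); `s = 0`: `M` is trivial, take `0`.

* `loc_empty` (no roots), step: `f̄ : C → M / pM`, `core` for `A = M / pM`, `ρ = 1` (`HA_empty`) gives `φ̄` invariant with `φ̄ ∘ T = f̄`;
  lift to an invariant `φ : C → M` (`lift_surj` with `ρ = 1`). `f - φ ∘ T` has values in `pM`, is invariant, and
  `(f - φ ∘ T) (T x) = - φ (z x - x) = 0`. By induction for `pM` (as a type `↥pM`) it is `φ₁ ∘ T`. Take `φ + φ₁`.
* `loc_family`, step: `F : C → CF p z M` equivariant with `F (T x) s = f x`. Let `F̄ : C → CQ p z (M / pM)` be its class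
  (compose with `M → M / pM` and the quotient map `CF → CQ`), equivariant for `rQ`, `F̄ (T x) = 0` (constant function). `core` for `A = CQ p z (M / pM)`
  (`HA_CQ`, `CQ_tors`, `rQ_z`) gives `H̄` with `H̄ (T x) = F̄ x`. Lift `H̄` to an equivariant `H : C → CF p z M` (`lift_surj` for
  `CF p z M → CQ p z (M / pM)`, surjective). `F' = F - H ∘ T` is equivariant, `F' (T x) s = f x` (`H (T (T x)) = H (z x) - H x = 0` as
  `rR_z`), and `F' x s - F' x s' ∈ pM` for all `s`, `s'`. Choose a root `s₁` (`hne`); the map `x ↦ [F' x s₁] : C → M / pM` is additive and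
  invariant (`F' (g x) s₁ = F' x (g⁻¹ s₁ g)`), lift it to an invariant `φ₀ : C → M`. Then `F'' x s = F' x s - φ₀ x ∈ pM` for all `s`,
  `F''` is equivariant, `F'' (T x) s = f x - φ₀ (T x) =: f' x ∈ pM`. By induction for `↥pM`, `f' = φ₁ ∘ T`. Take `φ₀ + φ₁`.
-/

set_option autoImplicit false

namespace Pool.Agent.Helper39.DB

open Finset Pool.Agent.Helper27.Mess
open scoped IsMulCommutative

universe u v w

variable {Γ : Type u} [Group Γ] {C : Type v} [AddCommGroup C] [Module (MonoidAlgebra ℤ Γ) C]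
  {p : ℕ} {z : Γ} {T : C →+ C}

/-- the subgroup of the multiples of `p` -/
private def pM (p : ℕ) (M : Type w) [AddCommGroup M] : AddSubgroup M :=
  (nsmulAddMonoidHom (α := M) p).range

private theorem mem_pM (p : ℕ) {M : Type w} [AddCommGroup M] {m : M} :
    m ∈ pM p M ↔ ∃ n : M, p • n = m := Iff.rfl

private theorem pM_kill (p s : ℕ) {M : Type w} [AddCommGroup M] (hM : ∀ m : M, p ^ (s + 1) • m = 0)
    (m : pM p M) : p ^ s • m = 0 := by
  obtain ⟨m, hm⟩ := m
  obtain ⟨n, rfl⟩ := (mem_pM p).1 hm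
  apply Subtype.ext
  change p ^ s • (p • n) = 0
  rw [← mul_smul, ← pow_succ]
  exact hM n

private theorem quo_kill (p : ℕ) {M : Type w} [AddCommGroup M] (a : M ⧸ pM p M) : p • a = 0 := by
  obtain ⟨m, rfl⟩ := QuotientAddGroup.mk_surjective a
  change ((p • m : M) : M ⧸ pM p M) = 0
  rw [QuotientAddGroup.eq_zero_iff]
  exact (mem_pM p).2 ⟨m, rfl⟩

private theorem mk_eq_iff (p : ℕ) {M : Type w} [AddCommGroup M] (a b : M) :
    (QuotientAddGroup.mk' (pM p M) a = QuotientAddGroup.mk' (pM p M) b) ↔ a - b ∈ pM p M := by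
  rw [← sub_eq_zero, ← map_sub]
  change ((a - b : M) : M ⧸ pM p M) = 0 ↔ _
  rw [QuotientAddGroup.eq_zero_iff]

theorem loc_empty [Module.Projective (MonoidAlgebra ℤ Γ) C] (G : GrRes Γ C) (hp : p.Prime)
    (hz : ∀ g : Γ, g * z = z * g) (hT : Curv z T) (hE : IsEmpty (Rt p z)) (s : ℕ) :
    ∀ (M : Type w) [AddCommGroup M] (_ : ∀ m : M, p ^ s • m = 0) (f : C →+ M) (_ : Ivt Γ f)
      (_ : ∀ x, f (T x) = 0), ∃ φ : C →+ M, Ivt Γ φ ∧ ∀ x, φ (T x) = f x := by
  induction s with
  | zero =>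
    intro M _ hM f _ _
    refine ⟨0, fun _ _ => rfl, fun x => ?_⟩
    have h := hM (f x)
    rw [pow_zero, one_smul] at h
    rw [h]
    rfl
  | succ s ih =>
    intro M _ hM f hf hfT
    obtain ⟨φq, hφq1, hφq2⟩ := core (A := M ⧸ pM p M) (ρ := 1) G hp hz hT rfl (quo_kill p)
      (HA_empty hE 1) ((QuotientAddGroup.mk' (pM p M)).comp f)
      (fun g x => congrArg (QuotientAddGroup.mk' (pM p M)) (hf g x))
      (fun x => by rw [AddMonoidHom.comp_apply, hfT x, map_zero])
    obtain ⟨φ, hφ1, hφ2⟩ := lift_surj (1 : Γ →* AddMonoid.End M)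
      (1 : Γ →* AddMonoid.End (M ⧸ pM p M)) (QuotientAddGroup.mk' (pM p M))
      (QuotientAddGroup.mk'_surjective _) (fun _ _ => rfl) φq hφq1
    have hφ1' : ∀ (g : Γ) (x : C), φ (act g x) = φ x := fun g x => hφ1 g x
    have hmem : ∀ x, f x - φ (T x) ∈ pM p M := by
      intro x
      rw [← mk_eq_iff, hφ2 (T x), hφq2 x]
      rfl
    let f₁ : C →+ pM p M := AddMonoidHom.mk' (fun x => ⟨f x - φ (T x), hmem x⟩) (by
      intro x y
      apply Subtype.ext
      change f (x + y) - φ (T (x + y)) = (f x - φ (T x)) + (f y - φ (T y))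
      rw [map_add, map_add, map_add]
      abel)
    obtain ⟨φ₁, h1, h2⟩ := ih (pM p M) (pM_kill p s hM) f₁ (by
      intro g x
      apply Subtype.ext
      change f (act g x) - φ (T (act g x)) = f x - φ (T x)
      rw [hf g x, hT.equiv, hφ1']) (by
      intro x
      apply Subtype.ext
      change f (T x) - φ (T (T x)) = 0
      rw [hfT x, hT.sq, map_sub, hφ1', sub_self, sub_zero])
    refine ⟨φ + (pM p M).subtype.comp φ₁, ?_, ?_⟩
    · intro g x
      change φ (act g x) + ((φ₁ (act g x) : pM p M) : M) = φ x + ((φ₁ x : pM p M) : M)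
      rw [hφ1', h1 g x]
    · intro x
      change φ (T x) + ((φ₁ (T x) : pM p M) : M) = f x
      rw [h2 x]
      change φ (T x) + (f x - φ (T x)) = f x
      abel

/-- the map on functions followed by the quotient map -/
private def kap (p : ℕ) (z : Γ) (M : Type w) [AddCommGroup M] :
    CF p z M →+ CQ p z (M ⧸ pM p M) :=
  (QuotientAddGroup.mk' (cns p z (M ⧸ pM p M))).comp
    (AddMonoidHom.mk' (fun (F : CF p z M) (s : Rt p z) => QuotientAddGroup.mk' (pM p M) (F s))
      (fun F F' => by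
        funext s
        exact map_add (QuotientAddGroup.mk' (pM p M)) (F s) (F' s)))

private theorem kap_apply (p : ℕ) (z : Γ) (M : Type w) [AddCommGroup M] (F : CF p z M) :
    kap p z M F = (((fun s => QuotientAddGroup.mk' (pM p M) (F s)) : CF p z (M ⧸ pM p M)) :
      CQ p z (M ⧸ pM p M)) := rfl

private theorem kap_surj (p : ℕ) (z : Γ) (M : Type w) [AddCommGroup M] :
    Function.Surjective (kap p z M) := by
  intro a
  obtain ⟨F, rfl⟩ := QuotientAddGroup.mk_surjective a
  choose F' hF' using fun s => QuotientAddGroup.mk'_surjective (pM p M) (F s)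
  refine ⟨F', ?_⟩
  rw [kap_apply]
  congr 1
  funext s
  exact hF' s

private theorem kap_eqv (hz : ∀ g : Γ, g * z = z * g) (M : Type w) [AddCommGroup M] (g : Γ)
    (F : CF p z M) : kap p z M (rR M hz g F) = rQ (M ⧸ pM p M) hz g (kap p z M F) := rfl

private theorem kap_zero (p : ℕ) (z : Γ) (M : Type w) [AddCommGroup M] (F : CF p z M) :
    kap p z M F = 0 ↔ ∃ m : M ⧸ pM p M, ∀ s, QuotientAddGroup.mk' (pM p M) (F s) = m := by
  rw [kap_apply, QuotientAddGroup.eq_zero_iff, mem_cns]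

theorem loc_family [Module.Projective (MonoidAlgebra ℤ Γ) C] (G : GrRes Γ C) (hp : p.Prime)
    (hz : ∀ g : Γ, g * z = z * g) (hT : Curv z T) (hne : Nonempty (Rt p z)) (s : ℕ) :
    ∀ (M : Type w) [AddCommGroup M] (_ : ∀ m : M, p ^ s • m = 0) (f : C →+ M) (_ : Ivt Γ f)
      (F : C →+ CF p z M) (_ : Eqv (rR M hz) F) (_ : ∀ x s, F (T x) s = f x),
      ∃ φ : C →+ M, Ivt Γ φ ∧ ∀ x, φ (T x) = f x := by
  have htf : ∀ (t : Γ) (q : ℕ), 0 < q → t ^ q = 1 → t = 1 :=
    fun t q hq ht => torsion_free G t q hq ht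
  induction s with
  | zero =>
    intro M _ hM f _ _ _ _
    refine ⟨0, fun _ _ => rfl, fun x => ?_⟩
    have h := hM (f x)
    rw [pow_zero, one_smul] at h
    rw [h]
    rfl
  | succ s ih =>
    intro M _ hM f hf F hF hFT
    obtain ⟨Hq, hHq1, hHq2⟩ := core (A := CQ p z (M ⧸ pM p M)) (ρ := rQ (M ⧸ pM p M) hz) G hp hz
      hT (rQ_z _ hz) (CQ_tors _ (quo_kill p)) (HA_CQ _ hp htf hz) ((kap p z M).comp F)
      (fun g x => by
        rw [AddMonoidHom.comp_apply, AddMonoidHom.comp_apply, hF g x, kap_eqv hz])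
      (fun x => by
        rw [AddMonoidHom.comp_apply, kap_zero]
        exact ⟨QuotientAddGroup.mk' (pM p M) (f x), fun s => by rw [hFT x s]⟩)
    obtain ⟨H, hH1, hH2⟩ := lift_surj (rR M hz) (rQ (M ⧸ pM p M) hz) (kap p z M)
      (kap_surj p z M) (kap_eqv hz M) Hq hHq1
    let F1 : C →+ CF p z M := F - H.comp T
    have hF1 : ∀ x, F1 x = F x - H (T x) := fun x => rfl
    have hF1e : ∀ g x, F1 (act g x) = rR M hz g (F1 x) := by
      intro g x
      rw [hF1, hF1, hF g x, hT.equiv, hH1 g (T x), map_sub]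
    have hF1T : ∀ x s, F1 (T x) s = f x := by
      intro x s
      rw [hF1, hT.sq, map_sub, hH1 z x, rR_z]
      change F (T x) s - (H x s - H x s) = f x
      rw [sub_self, sub_zero, hFT]
    have hF1c : ∀ x s s', F1 x s - F1 x s' ∈ pM p M := by
      intro x s s'
      have h1 : kap p z M (F1 x) = 0 := by
        rw [hF1, map_sub, hH2, hHq2]
        exact sub_self _
      obtain ⟨m, hm⟩ := (kap_zero p z M (F1 x)).1 h1
      rw [← mk_eq_iff, hm s, hm s']
    obtain ⟨s₁⟩ := hne
    let φq : C →+ M ⧸ pM p M := AddMonoidHom.mk' (fun x => QuotientAddGroup.mk' (pM p M) (F1 x s₁))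
      (by
        intro x y
        rw [map_add]
        exact map_add (QuotientAddGroup.mk' (pM p M)) (F1 x s₁) (F1 y s₁))
    obtain ⟨φ₀, hφ1, hφ2⟩ := lift_surj (1 : Γ →* AddMonoid.End M)
      (1 : Γ →* AddMonoid.End (M ⧸ pM p M)) (QuotientAddGroup.mk' (pM p M))
      (QuotientAddGroup.mk'_surjective _) (fun _ _ => rfl) φq (by
        intro g x
        change QuotientAddGroup.mk' (pM p M) (F1 (act g x) s₁) =
          QuotientAddGroup.mk' (pM p M) (F1 x s₁)
        rw [hF1e g x, rR_apply, mk_eq_iff]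
        exact hF1c x _ _)
    have hφ1' : ∀ (g : Γ) (x : C), φ₀ (act g x) = φ₀ x := fun g x => hφ1 g x
    have hmem : ∀ x s, F1 x s - φ₀ x ∈ pM p M := by
      intro x s
      have h1 : F1 x s₁ - φ₀ x ∈ pM p M := by
        rw [← mk_eq_iff, hφ2 x]
        rfl
      have h2 := (pM p M).add_mem (hF1c x s s₁) h1
      have h3 : F1 x s - F1 x s₁ + (F1 x s₁ - φ₀ x) = F1 x s - φ₀ x := by abel
      rwa [h3] at h2
    have hmemf : ∀ x, f x - φ₀ (T x) ∈ pM p M := by
      intro x
      have h1 := hmem (T x) s₁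
      rwa [hF1T] at h1
    let f' : C →+ pM p M := AddMonoidHom.mk' (fun x => ⟨f x - φ₀ (T x), hmemf x⟩) (by
      intro x y
      apply Subtype.ext
      change f (x + y) - φ₀ (T (x + y)) = (f x - φ₀ (T x)) + (f y - φ₀ (T y))
      rw [map_add, map_add, map_add]
      abel)
    let F2 : C →+ CF p z (pM p M) := AddMonoidHom.mk'
      (fun x s => (⟨F1 x s - φ₀ x, hmem x s⟩ : pM p M)) (by
        intro x y
        funext s
        apply Subtype.ext
        change F1 (x + y) s - φ₀ (x + y) = (F1 x s - φ₀ x) + (F1 y s - φ₀ y)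
        rw [map_add, map_add, Pi.add_apply]
        abel)
    obtain ⟨φ₁, h1, h2⟩ := ih (pM p M) (pM_kill p s hM) f' (by
      intro g x
      apply Subtype.ext
      change f (act g x) - φ₀ (T (act g x)) = f x - φ₀ (T x)
      rw [hf g x, hT.equiv, hφ1']) F2 (by
      intro g x
      funext s
      apply Subtype.ext
      change F1 (act g x) s - φ₀ (act g x) = F1 x (cj hz g s) - φ₀ x
      rw [hF1e g x, rR_apply, hφ1']) (by
      intro x s
      apply Subtype.ext
      change F1 (T x) s - φ₀ (T x) = f x - φ₀ (T x)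
      rw [hF1T])
    refine ⟨φ₀ + (pM p M).subtype.comp φ₁, ?_, ?_⟩
    · intro g x
      change φ₀ (act g x) + ((φ₁ (act g x) : pM p M) : M) = φ₀ x + ((φ₁ x : pM p M) : M)
      rw [hφ1', h1 g x]
    · intro x
      change φ₀ (T x) + ((φ₁ (T x) : pM p M) : M) = f x
      rw [h2 x]
      change φ₀ (T x) + (f x - φ₀ (T x)) = f x
      abel

end Pool.Agent.Helper39.DB
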