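import Pool.Agent.Helper39.DB.Defs
import Pool.Agent.Helper10.Mess.Lift

/-!
# DB-06 (project DB): multiadditive maps on a free module

`F = X →₀ ℤ[Γ]`, `bas (x, γ) = single x γ`. The elements `bas y`, `y : X × Γ`, are a basis of `F` as an abelian
group (`F ≃ (X × Γ) →₀ ℤ`; see `freeMap`, `free_ext` in Helper10/Mess/Lift.lean; MonoidAlgebra is a
structure with `coeff`).
* `mm_ext`: `Module.Basis.ext_multilinear` (Mathlib LinearAlgebra/Multilinear/Basis.lean), or directly by
  induction over the arguments.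
* `mm_exists`: with the coordinates `co y : F →ₗ[ℤ] ℤ` (`co (x, γ) f = (f x).coeff γ`) put
  `φ v = ∑ᶠ y : Fin p → X × Γ, (∏ i, co (y i) (v i)) • Φ y`. For given `v` only finitely many `y` contribute (they
  lie in `Fintype.piFinset` of the supports). Multiadditive: each summand is, and `finsum_add_distrib` for finite
  supports. On `bas ∘ x` only `y = x` contributes.
-/

set_option autoImplicit false

namespace Pool.Agent.Helper39.DB

open Finset Pool.Agent.Helper27.Mess
open scoped IsMulCommutative

variable {Γ : Type*} [Group Γ] {A : Type*} [AddCommGroup A] {X : Type*} {p : ℕ}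

variable (Γ) in
/-- the basis elements of a free module -/
noncomputable def bas (y : X × Γ) : X →₀ MonoidAlgebra ℤ Γ :=
  Finsupp.single y.1 (MonoidAlgebra.single y.2 (1 : ℤ))

theorem act_bas (g : Γ) (y : X × Γ) : act g (bas Γ y) = bas Γ (y.1, g * y.2) := by
  rw [act_def]
  exact of_smul_single g y.1 y.2 1

/-- the coordinates of the free module -/
private noncomputable def coE : (X →₀ MonoidAlgebra ℤ Γ) ≃+ (X × Γ →₀ ℤ) :=
  (Finsupp.mapRange.addEquiv (MonoidAlgebra.coeffAddEquiv (R := ℤ) (M := Γ))).trans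
    Finsupp.curryAddEquiv.symm

private theorem coE_bas (y : X × Γ) : coE (bas Γ y) = Finsupp.single y 1 := by
  unfold coE bas
  rw [AddEquiv.trans_apply, AddEquiv.symm_apply_eq]
  ext a b
  simp

/-- the basis of the free module as an abelian group -/
private noncomputable def bb : Module.Basis (X × Γ) ℤ (X →₀ MonoidAlgebra ℤ Γ) :=
  Module.Basis.ofRepr ((coE (Γ := Γ) (X := X)).toIntLinearEquiv)

private theorem bb_apply (y : X × Γ) : bb (Γ := Γ) (X := X) y = bas Γ y := by
  unfold bb
  rw [Module.Basis.coe_ofRepr, LinearEquiv.symm_apply_eq]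
  exact (coE_bas y).symm

theorem mm_ext {φ ψ : MM p (X →₀ MonoidAlgebra ℤ Γ) A}
    (h : ∀ y : Fin p → X × Γ, φ (fun i => bas Γ (y i)) = ψ (fun i => bas Γ (y i))) : φ = ψ := by
  refine Module.Basis.ext_multilinear (fun _ => bb (Γ := Γ) (X := X)) (fun y => ?_)
  simp only [bb_apply]
  exact h y

theorem mm_exists (Φ : (Fin p → X × Γ) → A) :
    ∃ φ : MM p (X →₀ MonoidAlgebra ℤ Γ) A, ∀ y : Fin p → X × Γ,
      φ (fun i => bas Γ (y i)) = Φ y := by
  classical
  refine ⟨((Basis.piTensorProduct (fun _ : Fin p => bb (Γ := Γ) (X := X))).constr ℤ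
    Φ).compMultilinearMap (PiTensorProduct.tprod ℤ), fun y => ?_⟩
  rw [LinearMap.compMultilinearMap_apply]
  have h1 : (PiTensorProduct.tprod ℤ (fun i => bas Γ (y i))) =
      Basis.piTensorProduct (fun _ : Fin p => bb (Γ := Γ) (X := X)) y := by
    rw [Basis.piTensorProduct_apply]
    simp only [bb_apply]
  rw [h1, Module.Basis.constr_basis]

end Pool.Agent.Helper39.DB
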