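import Pool.Agent.Helper39.DB.MulBas

/-!
# DB-08 (project DB): the graded pieces of the filtration

`K ≤ F` stable, `P : F → K ≤ F` an additive projection (not equivariant), `1 ≤ j < p`, `p A = 0`. Choose `j'` with
`j * j' ≡ 1` modulo `p`, and put `(e φ) (v) = j' • φ (v with P (v 0) in place of v 0)` (`MultilinearMap.compLinearMap` with
`P` in the component `0` and the identity in the others).
* `map1`, `map0`: replacing `v 0` by `P (v 0) ∈ K` does not decrease `cnt K v`, and if `v 0 ∈ K` nothing changes.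
* `equiv`: `(ρ g (e φ) - e (ρ g φ)) (v) = j' • ρ g (φ (w₁) - φ (w₂))` where `w₁`, `w₂` are `g⁻¹ v` with the component `0` replaced by
  `P (g⁻¹ (v 0))`, `g⁻¹ P (v 0)`. If `v 0 ∈ K` both are `g⁻¹ (v 0)` and the difference is `0`. If `v 0 ∉ K` the
  difference is `φ` of `g⁻¹ v` with the component `0` replaced by an element of `K`, so at least
  `cnt K v + 1 ≥ j + 1` components are in `K` and it vanishes (`φ ∈ Fil (j + 1)`).
* `sum`: for `i < p`, with `σ = sg p z τ`, by `cU_pow_apply` and `sg_iter`: `(σ^[i] v) 0 = v i`, and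
  `σ^[p - i] (σ^[i] v with x in place of the component 0) = τ z⁻¹ (v with x in place of v i)`. So
  `((c ^ i) (e ((c ^ (p - i)) (ρ z⁻¹ φ)))) (v) = j' • φ (update v i (P (v i)))` (`ρ z = 1`). If `cnt K v ≥ j + 1`
  everything is `0`. If `cnt K v = j` the terms with `v i ∈ K` are `j' • φ v` (there are `j` of them) and the
  others vanish; `j * j' • φ v = φ v` as `p • φ v = 0`.
-/

set_option autoImplicit false

namespace Pool.Agent.Helper39.DB

open Finset Pool.Agent.Helper27.Mess
open scoped IsMulCommutative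

variable {Γ : Type*} [Group Γ] {F : Type*} {A : Type*} [AddCommGroup F] [AddCommGroup A] {p : ℕ}
  {z : Γ} {τ : Γ →* AddMonoid.End F} {ρ : Γ →* AddMonoid.End A}

private noncomputable def pcE (P : F →+ F) (i0 : Fin p) (n : ℕ) : AddMonoid.End (MM p F A) :=
  AddMonoidHom.mk' (fun φ : MM p F A => n • (φ.compLinearMap (fun i : Fin p =>
    if i = i0 then AddMonoidHom.toIntLinearMap P else LinearMap.id))) (by
    intro φ ψ
    apply MultilinearMap.ext
    intro v
    change n • (φ _ + ψ _) = n • φ _ + n • ψ _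
    rw [nsmul_add])

private theorem pcE_apply (P : F →+ F) (i0 : Fin p) (n : ℕ) (φ : MM p F A) (v : Fin p → F) :
    pcE P i0 n φ v = n • φ (Function.update v i0 (P (v i0))) := by
  change n • φ (fun i => (if i = i0 then AddMonoidHom.toIntLinearMap P else LinearMap.id :
    F →ₗ[ℤ] F) (v i)) = _
  congr 2
  funext i
  by_cases h : i = i0
  · subst h
    rw [if_pos rfl, Function.update_self]
    rfl
  · rw [if_neg h, Function.update_of_ne h]
    rfl

private theorem pc_cnt_update {K : AddSubgroup F} (v : Fin p → F) (i : Fin p) {x : F}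
    (hx : x ∈ K) : cnt K v ≤ cnt K (Function.update v i x) := by
  classical
  unfold cnt
  apply Finset.card_le_card
  intro k hk
  rw [mem_filter] at hk ⊢
  refine ⟨mem_univ _, ?_⟩
  by_cases h : k = i
  · subst h
    rw [Function.update_self]
    exact hx
  · rw [Function.update_of_ne h]
    exact hk.2

private theorem pc_cnt_update' {K : AddSubgroup F} (v : Fin p → F) (i : Fin p) {x : F}
    (hx : x ∈ K) (hv : v i ∉ K) : cnt K v + 1 ≤ cnt K (Function.update v i x) := by
  classical
  unfold cnt
  rw [← Finset.card_insert_of_notMem (s := univ.filter (fun k => v k ∈ K)) (a := i)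
    (by rw [mem_filter]; exact fun h => hv h.2)]
  apply Finset.card_le_card
  intro k hk
  rw [mem_insert, mem_filter] at hk
  rw [mem_filter]
  refine ⟨mem_univ _, ?_⟩
  by_cases h : k = i
  · subst h
    rw [Function.update_self]
    exact hx
  · rw [Function.update_of_ne h]
    rcases hk with hk | hk
    · exact absurd hk h
    · exact hk.2

private theorem pc_unrot (z : Γ) (τ : Γ →* AddMonoid.End F) (v : Fin p → F) (i : ℕ) (hi : i < p)
    (x : F) (hp : 0 < p) :
    (fun k => τ z ((sg p z τ)^[p - i] (Function.update ((sg p z τ)^[i] v) ⟨0, hp⟩ x) k)) =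
      Function.update v ⟨i, hi⟩ x := by
  have htz : ∀ y : F, τ z (τ z⁻¹ y) = y := by
    intro y
    have h1 : (τ z * τ z⁻¹) y = y := by
      rw [← map_mul, mul_inv_cancel, map_one]
      rfl
    exact h1
  funext k
  rw [sg_iter z τ _ (p - i) (Nat.sub_le _ _) k]
  by_cases hk : (k : ℕ) < i
  · have h1 : (k : ℕ) + (p - i) < p := by omega
    have h2 : k ≠ (⟨i, hi⟩ : Fin p) := by
      intro h
      rw [h] at hk
      exact absurd hk (lt_irrefl _)
    have h3 : (⟨(k : ℕ) + (p - i), h1⟩ : Fin p) ≠ ⟨0, hp⟩ := by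
      intro h
      have := congrArg Fin.val h
      simp only at this
      omega
    rw [dif_pos h1, Function.update_of_ne h3, Function.update_of_ne h2,
      sg_iter z τ v i hi.le _]
    have h4 : ¬ ((⟨(k : ℕ) + (p - i), h1⟩ : Fin p) : ℕ) + i < p := by
      simp only
      omega
    rw [dif_neg h4, htz]
    congr 1
    apply Fin.ext
    simp only
    omega
  · have h1 : ¬ (k : ℕ) + (p - i) < p := by omega
    rw [dif_neg h1, htz]
    by_cases hki : k = ⟨i, hi⟩
    · have h3 : (⟨(k : ℕ) + (p - i) - p, by have := k.2; omega⟩ : Fin p) = ⟨0, hp⟩ := by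
        apply Fin.ext
        have := congrArg Fin.val hki
        simp only at this ⊢
        omega
      rw [h3, Function.update_self, hki, Function.update_self]
    · have hne : (k : ℕ) ≠ i := by
        intro h
        exact hki (Fin.ext h)
      have h3 : (⟨(k : ℕ) + (p - i) - p, by have := k.2; omega⟩ : Fin p) ≠ ⟨0, hp⟩ := by
        intro h
        have := congrArg Fin.val h
        simp only at this
        omega
      rw [Function.update_of_ne h3, Function.update_of_ne hki, sg_iter z τ v i hi.le _]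
      have h4 : ((⟨(k : ℕ) + (p - i) - p, by have := k.2; omega⟩ : Fin p) : ℕ) + i < p := by
        have := k.2
        simp only
        omega
      rw [dif_pos h4]
      congr 1
      apply Fin.ext
      simp only
      omega

theorem hig_piece (hp : p.Prime) (hz : ∀ g : Γ, g * z = z * g) (hρ : ρ z = 1)
    (hA : ∀ a : A, p • a = 0) {K : AddSubgroup F} (hK : ∀ (g : Γ), ∀ v ∈ K, τ g v ∈ K)
    (P : F →+ F) (hP : ∀ v, P v ∈ K) (hP' : ∀ v ∈ K, P v = v) {j : ℕ} (hj : 1 ≤ j) (hjp : j < p) :
    ∃ e : AddMonoid.End (MM p F A),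
      Hig p z (rU p τ ρ) (cU p z τ) (Fil p A K (j + 1)) (Fil p A K j) e := by
  classical
  have hp0 : 0 < p := hp.pos
  have hcop : Nat.Coprime j p := (Nat.coprime_of_lt_prime (by omega) hjp hp).symm
  obtain ⟨j', -, hj'⟩ := Nat.exists_mul_mod_eq_one_of_coprime hcop hp.one_lt
  have hjj : ∀ a : A, (j * j') • a = a := by
    intro a
    have h1 : j * j' = p * (j * j' / p) + 1 := by
      rw [← hj']
      exact (Nat.div_add_mod (j * j') p).symm
    rw [h1, add_nsmul, one_nsmul, mul_comm, mul_nsmul', hA, nsmul_zero, zero_add]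
  have hiK : ∀ (g : Γ) (w : F), τ g⁻¹ w ∈ K → w ∈ K := by
    intro g w hw
    have h1 := hK g _ hw
    have h2 : τ g (τ g⁻¹ w) = w := by
      have h3 : (τ g * τ g⁻¹) w = w := by
        rw [← map_mul, mul_inv_cancel, map_one]
        rfl
      exact h3
    rwa [h2] at h1
  have hρ' : ∀ a : A, ρ z⁻¹ a = a := by
    intro a
    have h1 : ρ z⁻¹ = 1 := by
      have h2 : ρ z * ρ z⁻¹ = 1 := by
        rw [← map_mul, mul_inv_cancel, map_one]
      rw [hρ, one_mul] at h2
      exact h2
    rw [h1]
    rfl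
  obtain ⟨i0, hi0⟩ : ∃ i0 : Fin p, i0 = ⟨0, hp0⟩ := ⟨_, rfl⟩
  refine ⟨pcE P i0 j', ?_, ?_, ?_, ?_⟩
  · intro φ hφ v hv
    rw [pcE_apply, hφ _ (hv.trans (pc_cnt_update v i0 (hP _))), nsmul_zero]
  · intro φ hφ v hv
    rw [pcE_apply, hφ _ (hv.trans (pc_cnt_update v i0 (hP _))), nsmul_zero]
  · intro g φ hφ v hv
    change rU p τ ρ g (pcE P i0 j' φ) v - pcE P i0 j' (rU p τ ρ g φ) v = 0
    rw [rU_apply, pcE_apply, pcE_apply, rU_apply]
    have h1 : (fun i => τ g⁻¹ (Function.update v i0 (P (v i0)) i)) =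
        Function.update (fun i => τ g⁻¹ (v i)) i0 (τ g⁻¹ (P (v i0))) := by
      funext i
      by_cases h : i = i0
      · subst h
        rw [Function.update_self, Function.update_self]
      · rw [Function.update_of_ne h, Function.update_of_ne h]
    rw [h1, map_nsmul, ← nsmul_sub, ← map_sub, ← MultilinearMap.map_update_sub]
    have h0 : φ (Function.update (fun i => τ g⁻¹ (v i)) i0
        (P (τ g⁻¹ (v i0)) - τ g⁻¹ (P (v i0)))) = 0 := by
      by_cases hvK : v i0 ∈ K
      · rw [hP' _ hvK, hP' _ (hK g⁻¹ _ hvK), sub_self, MultilinearMap.map_update_zero]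
      · apply hφ
        have h2 : cnt K (fun i => τ g⁻¹ (v i)) = cnt K v := cnt_act hK g⁻¹ v
        have h3 := pc_cnt_update' (K := K) (fun i => τ g⁻¹ (v i)) i0
          (x := P (τ g⁻¹ (v i0)) - τ g⁻¹ (P (v i0)))
          (K.sub_mem (hP _) (hK g⁻¹ _ (hP _))) (fun h => hvK (hiK g _ h))
        rw [h2] at h3
        omega
    rw [h0, map_zero, nsmul_zero]
  · intro φ hφ v hv
    change (∑ i ∈ range p, ((cU p z τ : AddMonoid.End (MM p F A)) ^ i) (pcE P i0 j'
      (((cU p z τ : AddMonoid.End (MM p F A)) ^ (p - i)) (rU p τ ρ z⁻¹ φ)))) v - φ v = 0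
    rw [MultilinearMap.sum_apply]
    have hterm : ∀ i : Fin p, ((cU p z τ : AddMonoid.End (MM p F A)) ^ (i : ℕ)) (pcE P i0 j'
        (((cU p z τ : AddMonoid.End (MM p F A)) ^ (p - (i : ℕ))) (rU p τ ρ z⁻¹ φ))) v =
        j' • φ (Function.update v i (P (v i))) := by
      intro i
      rw [cU_pow_apply, pcE_apply, cU_pow_apply, rU_apply, hρ', inv_inv]
      have h1 : (sg p z τ)^[(i : ℕ)] v i0 = v i := by
        rw [sg_iter z τ v (i : ℕ) i.2.le i0]
        have h5 : (i0 : ℕ) = 0 := by rw [hi0]
        have h2 : (i0 : ℕ) + (i : ℕ) < p := by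
          have := i.2
          omega
        rw [dif_pos h2]
        congr 1
        apply Fin.ext
        change (i0 : ℕ) + (i : ℕ) = (i : ℕ)
        omega
      rw [h1]
      congr 2
      rw [hi0]
      exact pc_unrot z τ v (i : ℕ) i.2 (P (v i)) hp0
    rw [← Fin.sum_univ_eq_sum_range (fun i => ((cU p z τ : AddMonoid.End (MM p F A)) ^ i)
      (pcE P i0 j' (((cU p z τ : AddMonoid.End (MM p F A)) ^ (p - i)) (rU p τ ρ z⁻¹ φ))) v) p]
    rw [Finset.sum_congr rfl (fun i _ => hterm i), sub_eq_zero]
    rcases Nat.lt_or_ge j (cnt K v) with hlt | hge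
    · rw [hφ v hlt]
      apply Finset.sum_eq_zero
      intro i _
      rw [hφ _ (hlt.trans_le (pc_cnt_update v i (hP _))), nsmul_zero]
    · have hcv : (univ.filter (fun i => v i ∈ K)).card = j := by
        have : cnt K v = j := le_antisymm hge hv
        unfold cnt at this
        convert this
      have h2 : ∀ i ∈ (univ : Finset (Fin p)), j' • φ (Function.update v i (P (v i))) =
          if v i ∈ K then j' • φ v else 0 := by
        intro i _
        by_cases hi : v i ∈ K
        · rw [if_pos hi, hP' _ hi, Function.update_eq_self]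
        · rw [if_neg hi, hφ _ ?_, nsmul_zero]
          have h3 := pc_cnt_update' (K := K) v i (hP (v i)) hi
          omega
      rw [Finset.sum_congr rfl h2, ← Finset.sum_filter, Finset.sum_const, hcv, ← mul_nsmul']
      exact hjj (φ v)

end Pool.Agent.Helper39.DB
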