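import Pool.Agent.Helper39.DB.LiftR
import Pool.Agent.Helper39.DB.AcAlg

/-!
# DB-03 (project DB): the relative form of Higman's criterion implies acyclicity

Let `[i] u = ∑_{l < i} c ^ l u` (`= Nm i c u`) and `E_i u = (c ^ i) (e ((c ^ (p - i)) (ρ z⁻¹ u)))` for `i ≤ p`
(this is `c ^ i e c ^ (-i)`: `c ^ p = ρ z`). For `u ∈ U1`:
* `E_0 u = e u` exactly (`c ^ p (ρ z⁻¹ u) = u`), `E_p u = ρ z (e (ρ z⁻¹ u))`, so `E_p u - e u ∈ U0` (`equiv` for
  `g = z` and `ρ z⁻¹ u`);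
* `∑_{i < p} E_i u - u ∈ U0` (`sum`);
* `E_{i+1} (c u) = c (E_i u)` for `i + 1 ≤ p` (`c ^ (p - (i+1)) c = c ^ (p - i)`).
All `E_i` preserve `U1` and `U0`.
Put `B u = - ∑_{i < p} E_i ([i] u)`. Then for `u ∈ U1`
(1) `B (c u - u) + N (e u) - u ∈ U0`: `[i] (c u - u) = c ^ i u - u` and `E_i (c ^ i u) = c ^ i (e u)`
    (`c ^ (p-i) ρ z⁻¹ c ^ i u = u`), so `B (c u - u) = - ∑ c ^ i e u + ∑ E_i u = - N e u + ∑ E_i u`;
(2) `c (B u) - B u + e (N u) - u ∈ U0`: `c (E_i ([i] u)) = E_{i+1} (c [i] u) = E_{i+1} ([i+1] u) - E_{i+1} u`, so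
    `c (B u) - B u = - ∑_{i<p} (E_{i+1} [i+1] u - E_i [i] u) + ∑_{i<p} E_{i+1} u = - E_p (N u) + ∑_{i<p} E_{i+1} u`
    (`[0] = 0`), and `∑_{i<p} E_{i+1} u = ∑_{i<p} E_i u + (E_p u - E_0 u)`.
Now let `(a, b)` be as in `Ac`. By `lift_rel` choose `α` equivariant with values in `U1` and `α x - B (b x) ∈ U0`
(`B` preserves `U1`, `U0` and commutes with `ρ g` modulo `U0` on `U1`), and `β` with `β x - (- e (a x)) ∈ U0`.
Modulo `U0`: `α (T x) - N (β x) ≡ B (b (T x)) + N e (a x) ≡ B (c a x - a x) + N e (a x) ≡ a x` by (1), and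
`c (α x) - α x - β (T x) ≡ c B (b x) - B (b x) + e (a (T x)) ≡ c B b x - B b x + e (N (b x)) ≡ b x` by (2).
(`B` is additive; define it as an `AddMonoidHom`.)
-/

set_option autoImplicit false

namespace Pool.Agent.Helper39.DB

open Finset Pool.Agent.Helper27.Mess
open scoped IsMulCommutative

variable {Γ : Type*} [Group Γ] {C : Type*} [AddCommGroup C] [Module (MonoidAlgebra ℤ Γ) C]
  {U : Type*} [AddCommGroup U] {p : ℕ} {z : Γ} {T : C →+ C} {ρ : Γ →* AddMonoid.End U}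
  {c : AddMonoid.End U}

section aux

/-- the conjugates of the operator `e` -/
private def EE (p : ℕ) (z : Γ) (ρ : Γ →* AddMonoid.End U) (c e : AddMonoid.End U) (i : ℕ)
    (u : U) : U := (c ^ i) (e ((c ^ (p - i)) (ρ z⁻¹ u)))

private lemma EE_add (e : AddMonoid.End U) (i : ℕ) (u v : U) :
    EE p z ρ c e i (u + v) = EE p z ρ c e i u + EE p z ρ c e i v := by
  unfold EE
  rw [map_add, map_add, map_add, map_add]

private lemma EE_sub (e : AddMonoid.End U) (i : ℕ) (u v : U) :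
    EE p z ρ c e i (u - v) = EE p z ρ c e i u - EE p z ρ c e i v := by
  unfold EE
  rw [map_sub, map_sub, map_sub, map_sub]

private lemma EE_zero (e : AddMonoid.End U) (i : ℕ) : EE p z ρ c e i (0 : U) = 0 := by
  unfold EE
  rw [map_zero, map_zero, map_zero, map_zero]

private lemma rho_cancel (ρ : Γ →* AddMonoid.End U) (g : Γ) (u : U) : ρ g (ρ g⁻¹ u) = u := by
  have h : ρ g * ρ g⁻¹ = 1 := by rw [← map_mul, mul_inv_cancel, map_one]
  exact congrArg (fun f : AddMonoid.End U => f u) h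

private lemma rho_cancel' (ρ : Γ →* AddMonoid.End U) (g : Γ) (u : U) : ρ g⁻¹ (ρ g u) = u := by
  have h : ρ g⁻¹ * ρ g = 1 := by rw [← map_mul, inv_mul_cancel, map_one]
  exact congrArg (fun f : AddMonoid.End U => f u) h

private lemma pow_add_apply (c : AddMonoid.End U) (i j : ℕ) (u : U) :
    (c ^ i) ((c ^ j) u) = (c ^ (i + j)) u := by
  rw [pow_add]
  rfl

private lemma pow_succ_apply (c : AddMonoid.End U) (i : ℕ) (u : U) :
    (c ^ i) (c u) = (c ^ (i + 1)) u := by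
  rw [pow_succ]
  rfl

private lemma pow_succ_apply' (c : AddMonoid.End U) (i : ℕ) (u : U) :
    c ((c ^ i) u) = (c ^ (i + 1)) u := by
  rw [pow_succ']
  rfl

private lemma zinv_comm (hc : Rot p z ρ c) (g : Γ) (w : U) : ρ z⁻¹ (ρ g w) = ρ g (ρ z⁻¹ w) := by
  have h : ρ g w = ρ z (ρ g (ρ z⁻¹ w)) := by
    rw [← hc.pow, pow_act hc, hc.pow, rho_cancel]
  rw [h, rho_cancel']

private lemma EE_cp (hc : Rot p z ρ c) (e : AddMonoid.End U) (u : U) :
    EE p z ρ c e 0 u = e u := by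
  unfold EE
  rw [pow_zero, Nat.sub_zero, hc.pow, rho_cancel]
  rfl

private lemma EE_p (hc : Rot p z ρ c) (e : AddMonoid.End U) (u : U) :
    EE p z ρ c e p u = ρ z (e (ρ z⁻¹ u)) := by
  unfold EE
  rw [Nat.sub_self, pow_zero, hc.pow]
  rfl

private lemma EE_shift (hc : Rot p z ρ c) (e : AddMonoid.End U) {i : ℕ} (hi : i + 1 ≤ p)
    (u : U) : EE p z ρ c e (i + 1) (c u) = c (EE p z ρ c e i u) := by
  unfold EE
  rw [← hc.comm, pow_succ_apply, pow_succ_apply', show p - (i + 1) + 1 = p - i by omega]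

private lemma EE_pow (hc : Rot p z ρ c) (e : AddMonoid.End U) {i : ℕ} (hi : i ≤ p) (u : U) :
    EE p z ρ c e i ((c ^ i) u) = (c ^ i) (e u) := by
  unfold EE
  rw [← pow_act hc, pow_add_apply, Nat.sub_add_cancel hi, hc.pow, rho_cancel]

private lemma EE_mem {V V' : AddSubgroup U} (hV : Stb ρ c V) {e : AddMonoid.End U}
    (he : ∀ u ∈ V, e u ∈ V) (i : ℕ) {u : U} (hu : u ∈ V) : EE p z ρ c e i u ∈ V :=
  pow_mem hV i (he _ (pow_mem hV _ (hV.act _ _ hu)))

private lemma EE_equiv (hc : Rot p z ρ c) {U1 U0 : AddSubgroup U} (s1 : Stb ρ c U1)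
    (s0 : Stb ρ c U0) {e : AddMonoid.End U} (he : Hig p z ρ c U1 U0 e) (i : ℕ) (g : Γ) {w : U}
    (hw : w ∈ U1) : EE p z ρ c e i (ρ g w) - ρ g (EE p z ρ c e i w) ∈ U0 := by
  unfold EE
  rw [zinv_comm hc, pow_act hc, ← pow_act hc i g (e _), ← map_sub]
  refine pow_mem s0 i ?_
  rw [← neg_mem_iff, neg_sub]
  exact he.equiv g _ (pow_mem s1 _ (s1.act _ _ hw))

/-- the contraction -/
private def BB (p : ℕ) (z : Γ) (ρ : Γ →* AddMonoid.End U) (c e : AddMonoid.End U) : U →+ U :=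
  AddMonoidHom.mk' (fun u => -∑ i ∈ range p, EE p z ρ c e i (Nm i c u)) (by
    intro u v
    rw [← neg_add, ← sum_add_distrib]
    congr 1
    refine sum_congr rfl fun i _ => ?_
    rw [Nm_add, EE_add])

private lemma BB_apply (p : ℕ) (z : Γ) (ρ : Γ →* AddMonoid.End U) (c e : AddMonoid.End U)
    (u : U) : BB p z ρ c e u = -∑ i ∈ range p, EE p z ρ c e i (Nm i c u) := rfl

private lemma BB_mem {V : AddSubgroup U} (hV : Stb ρ c V) {e : AddMonoid.End U}
    (he : ∀ u ∈ V, e u ∈ V) {u : U} (hu : u ∈ V) : BB p z ρ c e u ∈ V := by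
  rw [BB_apply]
  refine neg_mem (sum_mem fun i _ => ?_)
  exact EE_mem (V' := V) hV he i (Nm_mem hV i hu)

private lemma BB_equiv (hc : Rot p z ρ c) {U1 U0 : AddSubgroup U} (s1 : Stb ρ c U1)
    (s0 : Stb ρ c U0) {e : AddMonoid.End U} (he : Hig p z ρ c U1 U0 e) (g : Γ) {w : U}
    (hw : w ∈ U1) : BB p z ρ c e (ρ g w) - ρ g (BB p z ρ c e w) ∈ U0 := by
  rw [BB_apply, BB_apply, map_neg, map_sum, sub_neg_eq_add, neg_add_eq_sub, ← sum_sub_distrib]
  refine sum_mem fun i _ => ?_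
  rw [Nm_act hc, ← neg_mem_iff, neg_sub]
  exact EE_equiv hc s1 s0 he i g (Nm_mem s1 i hw)

private lemma id1 (hc : Rot p z ρ c) {U1 U0 : AddSubgroup U} {e : AddMonoid.End U}
    (he : Hig p z ρ c U1 U0 e) {u : U} (hu : u ∈ U1) :
    BB p z ρ c e (c u - u) + Nm p c (e u) - u ∈ U0 := by
  have h1 : BB p z ρ c e (c u - u) = -Nm p c (e u) + ∑ i ∈ range p, EE p z ρ c e i u := by
    rw [BB_apply]
    have h2 : ∀ i ∈ range p, EE p z ρ c e i (Nm i c (c u - u)) =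
        (c ^ i) (e u) - EE p z ρ c e i u := by
      intro i hi
      rw [mem_range] at hi
      rw [Nm_sub, Nm_comm, Nm_tel, EE_sub, EE_pow hc e hi.le]
    rw [sum_congr rfl h2, sum_sub_distrib]
    unfold Nm
    abel
  rw [h1]
  have h3 := he.sum u hu
  have h4 : -Nm p c (e u) + ∑ i ∈ range p, EE p z ρ c e i u + Nm p c (e u) - u =
      (∑ i ∈ range p, (c ^ i) (e ((c ^ (p - i)) (ρ z⁻¹ u)))) - u := by
    unfold EE
    abel
  rw [h4]
  exact h3

private lemma EEp_sub (hc : Rot p z ρ c) {U1 U0 : AddSubgroup U} (s1 : Stb ρ c U1)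
    {e : AddMonoid.End U} (he : Hig p z ρ c U1 U0 e) {u : U} (hu : u ∈ U1) :
    EE p z ρ c e p u - e u ∈ U0 := by
  have h := he.equiv z (ρ z⁻¹ u) (s1.act _ _ hu)
  rw [rho_cancel] at h
  rw [EE_p hc]
  exact h

private lemma id2 (hc : Rot p z ρ c) {U1 U0 : AddSubgroup U} (s1 : Stb ρ c U1)
    {e : AddMonoid.End U} (he : Hig p z ρ c U1 U0 e) {u : U} (hu : u ∈ U1) :
    c (BB p z ρ c e u) - BB p z ρ c e u + e (Nm p c u) - u ∈ U0 := by
  have h1 : ∀ i ∈ range p, c (EE p z ρ c e i (Nm i c u)) =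
      EE p z ρ c e (i + 1) (Nm (i + 1) c u) - EE p z ρ c e (i + 1) u := by
    intro i hi
    rw [mem_range] at hi
    rw [← EE_shift hc e (by omega), ← EE_sub]
    congr 1
    have h2 := Nm_tel i c u
    have h3 : Nm (i + 1) c u = Nm i c u + (c ^ i) u := by
      unfold Nm
      rw [sum_range_succ]
    rw [h3]
    rw [sub_eq_iff_eq_add] at h2
    rw [h2]
    abel
  have h4 : c (BB p z ρ c e u) = -∑ i ∈ range p,
      (EE p z ρ c e (i + 1) (Nm (i + 1) c u) - EE p z ρ c e (i + 1) u) := by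
    rw [BB_apply, map_neg, map_sum, sum_congr rfl h1]
  have h5 : ∑ i ∈ range p, (EE p z ρ c e (i + 1) (Nm (i + 1) c u) -
      EE p z ρ c e i (Nm i c u)) = EE p z ρ c e p (Nm p c u) := by
    rw [sum_range_sub (fun i => EE p z ρ c e i (Nm i c u))]
    have : Nm 0 c u = 0 := by
      unfold Nm
      simp
    rw [this, EE_zero, sub_zero]
  have h6 : ∑ i ∈ range p, EE p z ρ c e (i + 1) u =
      (∑ i ∈ range p, EE p z ρ c e i u) + (EE p z ρ c e p u - e u) := by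
    have a1 := sum_range_succ (fun i => EE p z ρ c e i u) p
    have a2 := sum_range_succ' (fun i => EE p z ρ c e i u) p
    rw [EE_cp hc] at a2
    rw [a1] at a2
    rw [← add_sub_assoc, a2, add_sub_cancel_right]
  have h7 : c (BB p z ρ c e u) - BB p z ρ c e u + e (Nm p c u) - u =
      -(EE p z ρ c e p (Nm p c u) - e (Nm p c u)) +
        ((∑ i ∈ range p, EE p z ρ c e i u) - u) + (EE p z ρ c e p u - e u) := by
    rw [h4, BB_apply, ← h5]
    rw [sum_sub_distrib, sum_sub_distrib, h6]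
    abel
  rw [h7]
  exact add_mem (add_mem (neg_mem (EEp_sub hc s1 he (Nm_mem s1 p hu))) (he.sum u hu))
    (EEp_sub hc s1 he hu)

end aux

theorem ac_of_hig [Module.Projective (MonoidAlgebra ℤ Γ) C] (hT : Curv z T) (hc : Rot p z ρ c)
    {U1 U0 : AddSubgroup U} (h01 : U0 ≤ U1) (s1 : Stb ρ c U1) (s0 : Stb ρ c U0)
    {e : AddMonoid.End U} (he : Hig p z ρ c U1 U0 e) : Ac p T ρ c U1 U0 := by
  have _ := hT
  intro a b ha hb ha1 hb1 h1 h2
  let B : U →+ U := BB p z ρ c e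
  have hB1 : ∀ u ∈ U1, B u ∈ U1 := fun u hu => BB_mem s1 he.map1 hu
  have hB0 : ∀ u ∈ U0, B u ∈ U0 := fun u hu => BB_mem s0 he.map0 hu
  obtain ⟨α, hα, hα1, hα0⟩ := lift_rel ρ U1 U0 h01 s1.act s0.act (B.comp b)
    (fun x => hB1 _ (hb1 x)) (fun g x => by
      change B (b (act g x)) - ρ g (B (b x)) ∈ U0
      rw [hb g x]
      exact BB_equiv hc s1 s0 he g (hb1 x))
  obtain ⟨β, hβ, hβ1, hβ0⟩ := lift_rel ρ U1 U0 h01 s1.act s0.act (-(AddMonoidHom.comp e a))
    (fun x => neg_mem (he.map1 _ (ha1 x))) (fun g x => by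
      change -e (a (act g x)) - ρ g (-e (a x)) ∈ U0
      rw [ha g x, map_neg, sub_neg_eq_add, neg_add_eq_sub]
      exact he.equiv g _ (ha1 x))
  have hα0' : ∀ x, α x - B (b x) ∈ U0 := hα0
  have hβ0' : ∀ x, β x + e (a x) ∈ U0 := by
    intro x
    have h : β x - -e (a x) ∈ U0 := hβ0 x
    rwa [sub_neg_eq_add] at h
  refine ⟨α, β, hα, hβ, hα1, hβ1, fun x => ?_, fun x => ?_⟩
  · have e1 : a x - (α (T x) - Nm p c (β x)) =
        -(B (c (a x) - a x) + Nm p c (e (a x)) - a x) + B (c (a x) - a x - b (T x)) -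
          (α (T x) - B (b (T x))) + Nm p c (β x + e (a x)) := by
      rw [Nm_add, map_sub B (c (a x) - a x) (b (T x))]
      abel
    rw [e1]
    exact add_mem (sub_mem (add_mem (neg_mem (id1 hc he (ha1 x))) (hB0 _ (h2 x))) (hα0' (T x)))
      (Nm_mem s0 p (hβ0' x))
  · have e1 : b x - (c (α x) - α x - β (T x)) =
        -(c (B (b x)) - B (b x) + e (Nm p c (b x)) - b x) - c (α x - B (b x)) +
          (α x - B (b x)) + (β (T x) + e (a (T x))) - e (a (T x) - Nm p c (b x)) := by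
      rw [map_sub c, map_sub e]
      abel
    rw [e1]
    exact sub_mem (add_mem (add_mem (sub_mem (neg_mem (id2 hc s1 he (hb1 x)))
      (s0.rot _ (hα0' x))) (hα0' x)) (hβ0' (T x))) (he.map0 _ (h1 x))

end Pool.Agent.Helper39.DB
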