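import Pool.Agent.Helper39.DB.RelHig
import Pool.Agent.Helper39.DB.Piece

/-!
# DB-09 (project DB): the step for a short exact sequence `0 → F' → F → F'' → 0`

`K = ` the kernel of `q` (an `AddSubgroup F`, `= range ι`), stable under `τ`; `P v = v - s (q v)` is an additive projection onto `K`.
Put `V j = Fil p A K j`, so `V 0 = ⊥`, `V (p + 1) = ⊤` (`Fil_bot`, `Fil_top`), all stable (`stb_Fil`). `Rot` by `rot_cU`.
1. `Ac V(j+1) V(j)` for `1 ≤ j < p`: `hig_piece`, `ac_of_hig`. By `Ac.trans` (induction on `j`): `Ac V(p) V(1)`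
   (`Ac.refl` for `p = 1`, not needed; for `j` from `1` to `p`).
2. `Ac ⊤ V(p)`: let `(a, b)` be given. `ι* φ = φ ∘ ι : MM p F A → MM p F' A` is additive, surjective (with the
   additive `r : F → F'`, `ι (r v) = P v`, `r (ι m) = m`: `ι* (φ ∘ r) = φ`), commutes with the actions and with the
   rotations (`sg` commutes with `ι`), and `ι* φ = 0` iff `φ ∈ V p` (`cnt_eq`). The pair `(ι* a, ι* b)` is a cycle, by
   `hQ` it is `𝔇(α', β')`, lift `α'`, `β'` to equivariant `α`, `β` by `lift_surj`.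
3. `Ac ⊤ ⊥`: `hF` and `ac_of_hig`.
4. `Ac V(p) ⊥` by `Ac.inner` from 3 and 2; `Ac V(1) ⊥` by `Ac.inner` from `Ac V(p) ⊥` and `Ac V(p) V(1)`.
5. `QQ` for `F''`: `q* φ = φ ∘ q : MM p F'' A → MM p F A` commutes with the actions and the rotations, has values in
   `V 1` (`cnt_pos`, `q` kills `K`), is injective (`q` is surjective), and for `ψ ∈ V 1` we have `ψ = q* (ψ ∘ s)`
   (`ψ (v) = ψ (s (q v))`: change the components one after the other, `v i - s (q (v i)) ∈ K`). For a cycle `(a, b)` the pair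
   `(q* a, q* b)` is a cycle with values in `V 1`, so `= 𝔇(α, β)` with `α`, `β` in `V 1`; take `s* ∘ α`,
   `s* ∘ β` (equivariant since `q*` is injective and equivariant).
-/

set_option autoImplicit false

namespace Pool.Agent.Helper39.DB

open Finset Pool.Agent.Helper27.Mess
open scoped IsMulCommutative

section pull

variable {Γ : Type*} [Group Γ] {p : ℕ} {z : Γ} {A : Type*} [AddCommGroup A]

/-- The pull-back of multiadditive maps along an additive map. -/
private noncomputable def pb {F' F : Type*} [AddCommGroup F'] [AddCommGroup F] (p : ℕ) (A : Type*)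
    [AddCommGroup A] (f : F' →+ F) : MM p F A →+ MM p F' A :=
  AddMonoidHom.mk' (fun φ => φ.compLinearMap (fun _ => f.toIntLinearMap)) (fun _ _ => rfl)

private theorem pb_apply {F' F : Type*} [AddCommGroup F'] [AddCommGroup F] (f : F' →+ F)
    (φ : MM p F A) (v : Fin p → F') : pb p A f φ v = φ (fun i => f (v i)) := rfl

private theorem sg_map {F' F : Type*} [AddCommGroup F'] [AddCommGroup F] (f : F' →+ F)
    (τ' : Γ →* AddMonoid.End F') (τ : Γ →* AddMonoid.End F)
    (hf : ∀ (g : Γ) (m : F'), f (τ' g m) = τ g (f m)) (v : Fin p → F') :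
    sg p z τ (fun i => f (v i)) = fun i => f (sg p z τ' v i) := by
  funext i
  unfold sg
  by_cases h : (i : ℕ) + 1 < p
  · rw [dif_pos h, dif_pos h]
  · rw [dif_neg h, dif_neg h, hf]

private theorem pb_act {F' F : Type*} [AddCommGroup F'] [AddCommGroup F] (f : F' →+ F)
    (τ' : Γ →* AddMonoid.End F') (τ : Γ →* AddMonoid.End F) (ρ : Γ →* AddMonoid.End A)
    (hf : ∀ (g : Γ) (m : F'), f (τ' g m) = τ g (f m)) (g : Γ) (φ : MM p F A) :
    pb p A f (rU p τ ρ g φ) = rU p τ' ρ g (pb p A f φ) := by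
  apply MultilinearMap.ext
  intro v
  rw [pb_apply, rU_apply, rU_apply, pb_apply]
  congr 2
  funext i
  rw [hf]

private theorem pb_rot {F' F : Type*} [AddCommGroup F'] [AddCommGroup F] (f : F' →+ F)
    (τ' : Γ →* AddMonoid.End F') (τ : Γ →* AddMonoid.End F)
    (hf : ∀ (g : Γ) (m : F'), f (τ' g m) = τ g (f m)) (φ : MM p F A) :
    pb p A f (cU p z τ φ) = cU p z τ' (pb p A f φ) := by
  apply MultilinearMap.ext
  intro v
  rw [pb_apply, cU_apply, cU_apply, pb_apply, sg_map f τ' τ hf]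

private theorem Nm_map {U U' : Type*} [AddCommGroup U] [AddCommGroup U'] (π : U →+ U')
    (c : AddMonoid.End U) (c' : AddMonoid.End U') (h : ∀ u, π (c u) = c' (π u)) (n : ℕ) (u : U) :
    π (Nm n c u) = Nm n c' (π u) := by
  unfold Nm
  rw [map_sum]
  refine sum_congr rfl fun i hi => ?_
  clear hi
  induction i generalizing u with
  | zero => rfl
  | succ i ih =>
    rw [pow_succ, pow_succ]
    change π ((c ^ i) (c u)) = (c' ^ i) (c' (π u))
    rw [ih, h]

private theorem Fil_one_congr {F : Type*} [AddCommGroup F] {K : AddSubgroup F} {ψ : MM p F A}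
    (hψ : ψ ∈ Fil p A K 1) (v w : Fin p → F) (h : ∀ i, v i - w i ∈ K) : ψ v = ψ w := by
  classical
  have e1 : v = w + fun i => v i - w i := by
    funext i
    change v i = w i + (v i - w i)
    abel
  rw [e1, MultilinearMap.map_add_univ]
  rw [Finset.sum_eq_single (Finset.univ : Finset (Fin p))]
  · rw [Finset.piecewise_univ]
  · intro S _ hS
    apply hψ
    rw [cnt_pos]
    have h3 : ∃ i, i ∉ S := by
      by_contra hcon
      apply hS
      rw [Finset.eq_univ_iff_forall]
      intro i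
      by_contra hi
      exact hcon ⟨i, hi⟩
    obtain ⟨i, hi⟩ := h3
    refine ⟨i, ?_⟩
    rw [Finset.piecewise_eq_of_notMem _ _ _ hi]
    exact h i
  · intro h3
    exact absurd (Finset.mem_univ _) h3

end pull

variable {Γ : Type*} [Group Γ] {C : Type*} [AddCommGroup C] [Module (MonoidAlgebra ℤ Γ) C]
  {A : Type*} [AddCommGroup A] {p : ℕ} {z : Γ} {T : C →+ C} {ρ : Γ →* AddMonoid.End A}

theorem QQ_step [Module.Projective (MonoidAlgebra ℤ Γ) C] (hp : p.Prime)
    (hz : ∀ g : Γ, g * z = z * g) (hT : Curv z T) (hρ : ρ z = 1) (hA : ∀ a : A, p • a = 0)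
    {F' F F'' : Type*} [AddCommGroup F'] [AddCommGroup F] [AddCommGroup F'']
    (τ' : Γ →* AddMonoid.End F') (τ : Γ →* AddMonoid.End F) (τ'' : Γ →* AddMonoid.End F'')
    (ι : F' →+ F) (q : F →+ F'') (s : F'' →+ F) (hι : Function.Injective ι)
    (hιe : ∀ (g : Γ) (m : F'), ι (τ' g m) = τ g (ι m))
    (hqe : ∀ (g : Γ) (v : F), q (τ g v) = τ'' g (q v)) (hs : ∀ m, q (s m) = m)
    (hex : ∀ v, q v = 0 ↔ ∃ m, ι m = v)
    (hF : ∃ e : AddMonoid.End (MM p F A), Hig p z (rU p τ ρ) (cU p z τ) ⊤ ⊥ e)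
    (hQ : QQ p z T τ' ρ) : QQ p z T τ'' ρ := by
  classical
  let K : AddSubgroup F := q.ker
  have memK : ∀ v, v ∈ K ↔ q v = 0 := fun v => AddMonoidHom.mem_ker
  have hK : ∀ (g : Γ), ∀ v ∈ K, τ g v ∈ K := by
    intro g v hv
    rw [memK] at hv ⊢
    rw [hqe, hv, map_zero]
  let P : F →+ F := AddMonoidHom.id F - s.comp q
  have hPa : ∀ v, P v = v - s (q v) := fun v => rfl
  have hP : ∀ v, P v ∈ K := by
    intro v
    rw [memK, hPa, map_sub, hs, sub_self]
  have hP' : ∀ v ∈ K, P v = v := by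
    intro v hv
    rw [memK] at hv
    rw [hPa, hv, map_zero, sub_zero]
  have hrot : Rot p z (rU p τ ρ) (cU p z τ) := rot_cU (F := F) (A := A) hz hρ
  have st : ∀ j, Stb (rU p τ ρ) (cU p z τ) (Fil p A K j) := fun j => stb_Fil hK j
  have h1 : ∀ j, 1 ≤ j → j ≤ p →
      Ac p T (rU p τ ρ) (cU p z τ) (Fil p A K j) (Fil p A K 1) := by
    intro j hj
    induction j, hj using Nat.le_induction with
    | base => intro _; exact Ac.refl _
    | succ j hj ih =>
      intro hjp
      obtain ⟨e, he⟩ := hig_piece (z := z) (τ := τ) (ρ := ρ) hp hz hρ hA hK P hP hP' hj (by omega : j < p)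
      exact Ac.trans hT hrot (Fil_mono K hj) (Fil_mono K (Nat.le_succ j)) (st _) (st _) (st _)
        (ac_of_hig hT hrot (Fil_mono K (Nat.le_succ j)) (st _) (st _) he) (ih (by omega))
  -- the retraction
  have hr0 : ∀ v, ∃ m, ι m = P v := fun v => (hex _).1 ((memK _).1 (hP v))
  choose r0 hr0 using hr0
  let r : F →+ F' := AddMonoidHom.mk' r0 (by
    intro v w
    apply hι
    rw [map_add, hr0, hr0, hr0, map_add])
  have hr : ∀ v, ι (r v) = P v := fun v => hr0 v
  have hιK : ∀ m, ι m ∈ K := fun m => (memK _).2 ((hex _).2 ⟨m, rfl⟩)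
  have hrι : ∀ m, r (ι m) = m := by
    intro m
    apply hι
    rw [hr, hP' _ (hιK m)]
  have hsurj : Function.Surjective (pb p A ι) := by
    intro φ
    refine ⟨pb p A r φ, ?_⟩
    apply MultilinearMap.ext
    intro v
    rw [pb_apply, pb_apply]
    congr 1
    funext i
    exact hrι _
  have hker : ∀ φ : MM p F A, pb p A ι φ = 0 ↔ φ ∈ Fil p A K p := by
    intro φ
    rw [mem_Fil]
    constructor
    · intro h v hv
      rw [cnt_eq] at hv
      have h2 : ∀ i, ∃ m, ι m = v i := fun i => (hex _).1 ((memK _).1 (hv i))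
      choose m hm using h2
      have h3 : pb p A ι φ m = 0 := by
        rw [h]
        rfl
      rw [pb_apply] at h3
      have h4 : (fun i => ι (m i)) = v := funext hm
      rwa [h4] at h3
    · intro h
      apply MultilinearMap.ext
      intro v
      rw [pb_apply]
      exact h _ ((cnt_eq K _).2 fun i => hιK _)
  -- step 2
  have h2 : Ac p T (rU p τ ρ) (cU p z τ) ⊤ (Fil p A K p) := by
    intro a b ha hb _ _ h3 h4
    obtain ⟨α', β', hα', hβ', -, -, h5, h6⟩ := hQ ((pb p A ι).comp a) ((pb p A ι).comp b)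
      (by
        intro g x
        rw [AddMonoidHom.comp_apply, ha, pb_act ι τ' τ ρ hιe]
        rfl)
      (by
        intro g x
        rw [AddMonoidHom.comp_apply, hb, pb_act ι τ' τ ρ hιe]
        rfl)
      (fun x => AddSubgroup.mem_top _) (fun x => AddSubgroup.mem_top _)
      (by
        intro x
        rw [AddSubgroup.mem_bot, AddMonoidHom.comp_apply, AddMonoidHom.comp_apply,
          ← Nm_map (pb p A ι) (cU p z τ) (cU p z τ') (pb_rot ι τ' τ hιe), ← map_sub, hker]
        exact h3 x)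
      (by
        intro x
        rw [AddSubgroup.mem_bot, AddMonoidHom.comp_apply, AddMonoidHom.comp_apply,
          ← pb_rot ι τ' τ hιe, ← map_sub, ← map_sub, hker]
        exact h4 x)
    obtain ⟨α, hα, hα2⟩ := lift_surj (rU p τ ρ) (rU p τ' ρ) (pb p A ι) hsurj
      (pb_act ι τ' τ ρ hιe) α' hα'
    obtain ⟨β, hβ, hβ2⟩ := lift_surj (rU p τ ρ) (rU p τ' ρ) (pb p A ι) hsurj
      (pb_act ι τ' τ ρ hιe) β' hβ'
    refine ⟨α, β, hα, hβ, fun x => AddSubgroup.mem_top _, fun x => AddSubgroup.mem_top _, ?_, ?_⟩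
    · intro x
      rw [← hker]
      rw [map_sub, map_sub, Nm_map (pb p A ι) (cU p z τ) (cU p z τ') (pb_rot ι τ' τ hιe), hα2, hβ2]
      exact (AddSubgroup.mem_bot).1 (h5 x)
    · intro x
      rw [← hker]
      rw [map_sub, map_sub, map_sub, pb_rot ι τ' τ hιe, hα2, hβ2]
      exact (AddSubgroup.mem_bot).1 (h6 x)
  -- step 3
  have h3 : Ac p T (rU p τ ρ) (cU p z τ) (⊤ : AddSubgroup (MM p F A)) ⊥ := by
    obtain ⟨e, he⟩ := hF
    exact ac_of_hig hT hrot bot_le Stb.top Stb.bot he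
  -- step 4
  have h4 : Ac p T (rU p τ ρ) (cU p z τ) (Fil p A K p) ⊥ :=
    Ac.inner hT hrot bot_le le_top Stb.top (st p) Stb.bot h3 h2
  have h5 : Ac p T (rU p τ ρ) (cU p z τ) (Fil p A K 1) ⊥ :=
    Ac.inner hT hrot bot_le (Fil_mono K hp.one_le) (st p) (st 1) Stb.bot h4 (h1 p hp.one_le le_rfl)
  -- step 5
  have hqV : ∀ φ : MM p F'' A, pb p A q φ ∈ Fil p A K 1 := by
    intro φ
    rw [mem_Fil]
    intro v hv
    rw [cnt_pos] at hv
    obtain ⟨i, hi⟩ := hv
    rw [pb_apply]
    exact φ.map_coord_zero i ((memK _).1 hi)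
  have hqinj : Function.Injective (pb p A q) := by
    intro φ ψ h
    apply MultilinearMap.ext
    intro v
    have h6 : pb p A q φ (fun i => s (v i)) = pb p A q ψ (fun i => s (v i)) := by rw [h]
    rw [pb_apply, pb_apply] at h6
    have h7 : (fun i => q (s (v i))) = v := funext fun i => hs _
    rwa [h7] at h6
  have hqs : ∀ ψ ∈ Fil p A K 1, pb p A q (pb p A s ψ) = ψ := by
    intro ψ hψ
    apply MultilinearMap.ext
    intro v
    rw [pb_apply, pb_apply]
    refine Fil_one_congr hψ _ _ fun i => ?_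
    rw [memK, map_sub, hs, sub_self]
  intro a b ha hb _ _ h6 h7
  obtain ⟨α, β, hα, hβ, hα1, hβ1, h8, h9⟩ := h5 ((pb p A q).comp a) ((pb p A q).comp b)
    (by
      intro g x
      rw [AddMonoidHom.comp_apply, ha, pb_act q τ τ'' ρ hqe]
      rfl)
    (by
      intro g x
      rw [AddMonoidHom.comp_apply, hb, pb_act q τ τ'' ρ hqe]
      rfl)
    (fun x => hqV _) (fun x => hqV _)
    (by
      intro x
      rw [AddSubgroup.mem_bot, AddMonoidHom.comp_apply, AddMonoidHom.comp_apply,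
        ← Nm_map (pb p A q) (cU p z τ'') (cU p z τ) (pb_rot q τ τ'' hqe), ← map_sub,
        (AddSubgroup.mem_bot).1 (h6 x), map_zero])
    (by
      intro x
      rw [AddSubgroup.mem_bot, AddMonoidHom.comp_apply, AddMonoidHom.comp_apply,
        ← pb_rot q τ τ'' hqe, ← map_sub, ← map_sub, (AddSubgroup.mem_bot).1 (h7 x), map_zero])
  have hEs : ∀ γ : C →+ MM p F A, Eqv (rU p τ ρ) γ → (∀ x, γ x ∈ Fil p A K 1) →
      Eqv (rU p τ'' ρ) ((pb p A s).comp γ) := by
    intro γ hγ hγ1 g x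
    apply hqinj
    rw [AddMonoidHom.comp_apply, AddMonoidHom.comp_apply, hqs _ (hγ1 _),
      pb_act q τ τ'' ρ hqe, hqs _ (hγ1 _), hγ]
  refine ⟨(pb p A s).comp α, (pb p A s).comp β, hEs α hα hα1, hEs β hβ hβ1,
    fun x => AddSubgroup.mem_top _, fun x => AddSubgroup.mem_top _, ?_, ?_⟩
  · intro x
    rw [AddSubgroup.mem_bot]
    apply hqinj
    rw [map_zero, map_sub, map_sub, Nm_map (pb p A q) (cU p z τ'') (cU p z τ) (pb_rot q τ τ'' hqe),
      AddMonoidHom.comp_apply, AddMonoidHom.comp_apply, hqs _ (hα1 _), hqs _ (hβ1 _)]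
    exact (AddSubgroup.mem_bot).1 (h8 x)
  · intro x
    rw [AddSubgroup.mem_bot]
    apply hqinj
    rw [map_zero, map_sub, map_sub, map_sub, pb_rot q τ τ'' hqe,
      AddMonoidHom.comp_apply, AddMonoidHom.comp_apply, hqs _ (hα1 _), hqs _ (hβ1 _)]
    exact (AddSubgroup.mem_bot).1 (h9 x)

end Pool.Agent.Helper39.DB
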